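import Pool.Agent.H566X.Spec3

set_option autoImplicit false

namespace Pool.Agent.H566X

open Set TopologicalSpace

section act

variable {X : Type} [TopologicalSpace X] [MulAction (Equiv.Perm ℕ) X]

theorem act_cont (h : ContAct X) (σ : Equiv.Perm ℕ) : Continuous fun x : X => σ • x := by
  rw [continuous_def]
  intro U hU
  rw [isOpen_iff_forall_mem_open]
  intro x hx
  obtain ⟨n, V, hV, hxV, hV2⟩ := h σ x U hU hx
  exact ⟨V, fun y hy => hV2 σ (fun _ _ => rfl) y hy, hV, hxV⟩

/-- every clopen set is invariant under the stabiliser of a finite set -/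
theorem act_stab [CompactSpace X] (h : ContAct X) {U : Set X} (hU : IsClopen U) :
    ∃ m : ℕ, ∀ τ : Equiv.Perm ℕ, (∀ i < m, τ i = i) → ∀ x, τ • x ∈ U ↔ x ∈ U := by
  classical
  have h1 : ∀ x : X, ∃ (n : ℕ) (V : Set X), IsOpen V ∧ x ∈ V ∧
      ∀ τ : Equiv.Perm ℕ, (∀ i < n, τ i = i) → ∀ y ∈ V, y ∈ U → τ • y ∈ U := by
    intro x
    by_cases hx : x ∈ U
    · obtain ⟨n, V, hV, hxV, hV2⟩ := h 1 x U hU.isOpen (by simpa using hx)
      exact ⟨n, V, hV, hxV, fun τ hτ y hy _ => hV2 τ (by simpa using hτ) y hy⟩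
    · exact ⟨0, Uᶜ, hU.compl.isOpen, hx, fun τ _ y hy hy' => absurd hy' hy⟩
  choose n V hV hxV hV2 using h1
  obtain ⟨s, hs⟩ := isCompact_univ.elim_finite_subcover V hV (fun x _ => mem_iUnion.2 ⟨x, hxV x⟩)
  have key : ∀ τ : Equiv.Perm ℕ, (∀ i < s.sup n, τ i = i) → ∀ x, x ∈ U → τ • x ∈ U := by
    intro τ hτ x hx
    obtain ⟨y, hy, hxy⟩ := mem_iUnion₂.1 (hs (mem_univ x))
    exact hV2 y τ (fun i hi => hτ i (lt_of_lt_of_le hi (Finset.le_sup hy))) x hxy hx
  refine ⟨s.sup n, fun τ hτ x => ⟨fun hx => ?_, key τ hτ x⟩⟩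
  have := key τ⁻¹ (fun i hi => by
    rw [Equiv.Perm.inv_eq_iff_eq]; exact (hτ i hi).symm) _ hx
  simpa using this

end act

theorem t_ACT : S_ACT := by
  classical
  intro X _ _ _ _ _ hX
  have hsc : SecondCountableTopology X := by infer_instance
  have hc : Countable (Clopens X) := Clopens.countable_iff_secondCountable.2 hsc
  obtain ⟨U, hU⟩ := exists_surjective_nat (Clopens X)
  choose m hm using fun i => act_stab hX (U i).isClopen
  let φ : X → RS m ℕ := fun x i t =>
    decide (∃ g : Equiv.Perm ℕ, (∀ k : Fin (m i), g k = t k) ∧ g⁻¹ • x ∈ U i)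
  have hφ : ∀ x i (t : Fin (m i) → ℕ) (g : Equiv.Perm ℕ), (∀ k : Fin (m i), g k = t k) →
      (φ x i t = true ↔ g⁻¹ • x ∈ U i) := by
    intro x i t g hg
    simp only [φ, decide_eq_true_eq]
    constructor
    · rintro ⟨g', hg', hx⟩
      have h1 := hm i (g⁻¹ * g') (fun j hj => by
        rw [Equiv.Perm.mul_apply, Equiv.Perm.inv_eq_iff_eq]
        rw [hg' ⟨j, hj⟩, hg ⟨j, hj⟩]) (g'⁻¹ • x)
      rw [← mul_smul, mul_assoc, mul_inv_cancel, mul_one] at h1
      exact h1.2 hx
    · intro hx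
      exact ⟨g, hg, hx⟩
  have hmap : ∀ x (σ : Equiv.Perm ℕ), Iso (φ x) (φ (σ • x)) σ := by
    intro x σ i t
    rw [Bool.eq_iff_iff]
    simp only [φ, decide_eq_true_eq]
    constructor
    · rintro ⟨g, hg, hx⟩
      refine ⟨σ⁻¹ * g, fun k => ?_, ?_⟩
      · rw [Equiv.Perm.mul_apply, hg k]
        simp
      · rw [mul_inv_rev, inv_inv, mul_smul]
        exact hx
    · rintro ⟨g, hg, hx⟩
      refine ⟨σ * g, fun k => ?_, ?_⟩
      · rw [Equiv.Perm.mul_apply, hg k]
        rfl
      · rw [mul_inv_rev, mul_smul, inv_smul_smul]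
        exact hx
  have hinj : Function.Injective φ := by
    intro x y hxy
    by_contra hne
    obtain ⟨C, hC, hxC, hyC⟩ := exists_isClopen_of_totally_separated hne
    obtain ⟨i, hi⟩ := hU ⟨C, hC⟩
    have h1 := hφ x i (fun k => (k : ℕ)) 1 (fun k => rfl)
    have h2 := hφ y i (fun k => (k : ℕ)) 1 (fun k => rfl)
    rw [inv_one, one_smul, hi] at h1 h2
    rw [hxy] at h1
    exact hyC (h2.1 (h1.2 hxC))
  refine ⟨m, φ, ?_, hinj, fun x y σ => ⟨fun h => ?_, fun h => h ▸ hmap x σ⟩⟩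
  · refine continuous_pi fun i => continuous_pi fun t => ?_
    by_cases hg : ∃ g : Equiv.Perm ℕ, ∀ k : Fin (m i), g k = t k
    · obtain ⟨g, hg⟩ := hg
      have h1 : (fun x => φ x i t) = fun x => decide (x ∈ (fun x : X => g⁻¹ • x) ⁻¹' (U i)) := by
        funext x
        rw [Bool.eq_iff_iff, hφ x i t g hg, decide_eq_true_eq]
        rfl
      rw [h1]
      have h2 : IsClopen ((fun x : X => g⁻¹ • x) ⁻¹' (U i)) :=
        (U i).isClopen.preimage (act_cont hX g⁻¹)
      rw [continuous_discrete_rng]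
      intro b
      cases b
      · convert h2.compl.isOpen using 1
        ext x
        simp
      · convert h2.isOpen using 1
        ext x
        simp
    · have h1 : (fun x => φ x i t) = fun _ => false := by
        funext x
        simp only [φ, decide_eq_false_iff_not]
        rintro ⟨g, hg', -⟩
        exact hg ⟨g, hg'⟩
      rw [h1]
      exact continuous_const
  · apply hinj
    funext i t
    have h1 := h i (σ.symm ∘ t)
    have h2 := hmap x σ i (σ.symm ∘ t)
    have h3 : σ ∘ (σ.symm ∘ t) = t := by funext k; simp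
    rw [h3] at h1 h2
    rw [h1, h2]

end Pool.Agent.H566X
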