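import Pool.Agent.H566X.Spec

set_option autoImplicit false

namespace Pool.Agent.H566X

open Set

theorem t_ALG : S_ALG := by
  intro a V W M N _ hN p hp hW x hx
  obtain ⟨n, hn⟩ := hx
  choose e he hep using fun k : ℕ => hW (n + k)
  have himg : ∀ k, (e k) '' (Prod.fst '' p) = Prod.snd '' p := by
    intro k
    rw [image_image]
    exact image_congr fun u hu => hep k u hu
  have hmem : ∀ k, e k x ∈ {y | Ac N n (Prod.snd '' p) y} := by
    intro k
    have h1 := (ac_iff (he k) (Nat.le_add_right n k)).1 hn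
    rw [himg k] at h1
    exact h1
  have hfin : {y | Ac N n (Prod.snd '' p) y}.Finite := (hN n).fin _ (hp.image _)
  haveI : Finite {y | Ac N n (Prod.snd '' p) y} := hfin
  obtain ⟨⟨y, hy⟩, hinf⟩ := Finite.exists_infinite_fiber
    (fun k : ℕ => (⟨e k x, hmem k⟩ : {y | Ac N n (Prod.snd '' p) y}))
  refine ⟨y, fun k => ?_⟩
  have hinf' := Set.infinite_coe_iff.1 hinf
  obtain ⟨m, hm, hkm⟩ := hinf'.exists_gt k
  have hm' : e m x = y := by
    have h2 : (⟨e m x, hmem m⟩ : {y | Ac N n (Prod.snd '' p) y}) = ⟨y, hy⟩ := hm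
    exact congrArg Subtype.val h2
  refine ⟨e m, (he m).mono (by omega), ?_⟩
  intro u hu
  rcases mem_insert_iff.1 hu with rfl | hu
  · exact hm'
  · exact hep m u hu

end Pool.Agent.H566X
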