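import Pool.Agent.H566X.Spec

/-! H566X, task BFI (helper93): a back-and-forth system gives an isomorphism. -/

set_option autoImplicit false

namespace Pool.Agent.H566X

open Set

theorem t_BFI : S_BFI := by
  intro a M N S hW hf hb hS
  obtain ⟨p0, hp0⟩ := hS
  have step : ∀ (k : ℕ) (p : S), ∃ q : S, p.1 ⊆ q.1 ∧ (∃ y, (k, y) ∈ q.1) ∧ ∃ x, (x, k) ∈ q.1 := by
    intro k p
    obtain ⟨y, hy⟩ := hf p.1 p.2 k
    obtain ⟨x, hx⟩ := hb _ hy k
    exact ⟨⟨_, hx⟩, (subset_insert _ _).trans (subset_insert _ _),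
      ⟨y, Or.inr (mem_insert _ _)⟩, ⟨x, mem_insert _ _⟩⟩
  choose g hg1 hg2 hg3 using step
  let f : ℕ → S := fun n => Nat.rec ⟨p0, hp0⟩ (fun k p => g k p) n
  have hfs : ∀ k, f (k + 1) = g k (f k) := fun k => rfl
  have hmono : Monotone (fun k => (f k).1) := by
    refine monotone_nat_of_le_succ fun k => ?_
    show (f k).1 ⊆ (f (k + 1)).1
    rw [hfs]; exact hg1 k (f k)
  set Q : Set (ℕ × ℕ) := ⋃ k, (f k).1 with hQ
  have hQ1 : ∀ x, ∃ y, (x, y) ∈ Q := by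
    intro x
    obtain ⟨y, hy⟩ := hg2 x (f x)
    exact ⟨y, mem_iUnion.2 ⟨x + 1, by rw [hfs]; exact hy⟩⟩
  have hQ2 : ∀ y, ∃ x, (x, y) ∈ Q := by
    intro y
    obtain ⟨x, hx⟩ := hg3 y (f y)
    exact ⟨x, mem_iUnion.2 ⟨y + 1, by rw [hfs]; exact hx⟩⟩
  have hQ3 : ∀ u ∈ Q, ∀ v ∈ Q, (u.1 = v.1 ↔ u.2 = v.2) := by
    intro u hu v hv
    obtain ⟨i, hi⟩ := mem_iUnion.1 hu
    obtain ⟨j, hj⟩ := mem_iUnion.1 hv
    have hi' := hmono (le_max_left i j) hi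
    have hj' := hmono (le_max_right i j) hj
    obtain ⟨e, -, he⟩ := hW _ (f (max i j)).2 0
    rw [← he u hi', ← he v hj', e.apply_eq_iff_eq]
  choose F hF using hQ1
  have hinj : Function.Injective F := by
    intro x y h
    exact (hQ3 _ (hF x) _ (hF y)).2 h
  have hsurj : Function.Surjective F := by
    intro y
    obtain ⟨x, hx⟩ := hQ2 y
    exact ⟨x, (hQ3 _ (hF x) _ hx).1 rfl⟩
  refine ⟨Equiv.ofBijective F ⟨hinj, hsurj⟩, ?_⟩
  intro i t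
  have hex : ∀ k : Fin (a i), ∃ j, (t k, F (t k)) ∈ (f j).1 := fun k => mem_iUnion.1 (hF (t k))
  choose J hJ using hex
  obtain ⟨e, he1, he2⟩ := hW _ (f (Finset.univ.sup J)).2 (i + 1)
  have h1 : (Equiv.ofBijective F ⟨hinj, hsurj⟩ : ℕ ≃ ℕ) ∘ t = e ∘ t := by
    funext k
    have h2 : (t k, F (t k)) ∈ (f (Finset.univ.sup J)).1 :=
      hmono (Finset.le_sup (Finset.mem_univ k)) (hJ k)
    exact (he2 _ h2).symm
  rw [h1]
  exact he1 i (Nat.lt_succ_self i) t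

end Pool.Agent.H566X
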