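import Pool.Agent.H566X.Spec

/-! BFW: rank `ω 3` of the back-and-forth gives everything. -/

set_option autoImplicit false

namespace Pool.Agent.H566X

open Set

variable {a : ℕ → ℕ} {M N : RS a ℕ} {p : Set (ℕ × ℕ)} {o : Ordinal.{0}}

private abbrev bfwB (M N : RS a ℕ) (o : Ordinal.{0}) (p : Set (ℕ × ℕ)) : Prop :=
  Pool.Agent.H899R2.VP.BF (stOf M) (stOf N) univ univ o p

private theorem bfw_pi (n : ℕ) (h : bfwB M N o p) : PI n M N p := by
  have h1 := Pool.Agent.H899R2.VP.BF.piso h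
  exact ⟨h1.1, fun i _ t ht => h1.2.2 i t ht⟩

private theorem bfw_bk (n : ℕ) (k : ℕ) : ∀ (o : Ordinal.{0}) (p : Set (ℕ × ℕ)),
    (k : Ordinal.{0}) ≤ o → bfwB M N o p → Bk n M N k p := by
  induction k with
  | zero => intro o p _ h; exact bfw_pi n h
  | succ k ih =>
    intro o p ho h
    have hlt : (k : Ordinal.{0}) < o := by
      refine lt_of_lt_of_le ?_ ho
      exact_mod_cast Nat.lt_succ_self k
    refine ⟨bfw_pi n h, fun x => ?_, fun y => ?_⟩
    · obtain ⟨y, _, hy⟩ := Pool.Agent.H899R2.VP.BF.forth h hlt (mem_univ x)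
      exact ⟨y, ih _ _ le_rfl hy⟩
    · obtain ⟨x, _, hx⟩ := Pool.Agent.H899R2.VP.BF.back h hlt (mem_univ y)
      exact ⟨x, ih _ _ le_rfl hx⟩

private theorem bfw_w0 (hB : S_BKI) (hM : AC M) (hN : AC N) (ho : Ordinal.omega0 ≤ o)
    (hp : p.Finite) (h : bfwB M N o p) : W0 M N p := by
  intro n
  refine hB a M N n (hM n) (hN n) p hp (fun k => bfw_bk n k o p ?_ h)
  exact le_trans (le_of_lt (Ordinal.natCast_lt_omega0 k)) ho

private theorem bfw_wk (hB : S_BKI) (hM : AC M) (hN : AC N) (k : ℕ) :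
    ∀ (o : Ordinal.{0}) (p : Set (ℕ × ℕ)), Ordinal.omega0 + (k : Ordinal.{0}) ≤ o → p.Finite →
      bfwB M N o p → Wk M N k p := by
  induction k with
  | zero =>
    intro o p ho hp h
    refine bfw_w0 hB hM hN ?_ hp h
    simpa using ho
  | succ k ih =>
    intro o p ho hp h
    have hlt : Ordinal.omega0 + (k : Ordinal.{0}) < o := by
      refine lt_of_lt_of_le ?_ ho
      have : (k : Ordinal.{0}) < ((k + 1 : ℕ) : Ordinal.{0}) := by
        exact_mod_cast Nat.lt_succ_self k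
      simp
    have h0 : Ordinal.omega0 ≤ o := le_trans (by simp) ho
    refine ⟨bfw_w0 hB hM hN h0 hp h, fun x => ?_, fun y => ?_⟩
    · obtain ⟨y, _, hy⟩ := Pool.Agent.H899R2.VP.BF.forth h hlt (mem_univ x)
      exact ⟨y, ih _ _ le_rfl (hp.insert _) hy⟩
    · obtain ⟨x, _, hx⟩ := Pool.Agent.H899R2.VP.BF.back h hlt (mem_univ y)
      exact ⟨x, ih _ _ le_rfl (hp.insert _) hx⟩

private theorem bfw_ww (hB : S_BKI) (hM : AC M) (hN : AC N) (ho : Ordinal.omega0 * 2 ≤ o)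
    (hp : p.Finite) (h : bfwB M N o p) : WW M N p := by
  intro k
  refine bfw_wk hB hM hN k o p (le_trans ?_ ho) hp h
  rw [Ordinal.mul_two]
  exact add_le_add le_rfl (le_of_lt (Ordinal.natCast_lt_omega0 k))

private theorem bfw_wh (hB : S_BKI) (hM : AC M) (hN : AC N)
    (hp : p.Finite) (h : bfwB M N (Ordinal.omega0 * 2 + ((1 : ℕ) : Ordinal.{0})) p) :
    WH M N p := by
  have hlt : Ordinal.omega0 * 2 < Ordinal.omega0 * 2 + ((1 : ℕ) : Ordinal.{0}) := by simp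
  refine ⟨bfw_ww hB hM hN hlt.le hp h, fun x => ?_, fun y => ?_⟩
  · obtain ⟨y, _, hy⟩ := Pool.Agent.H899R2.VP.BF.forth h hlt (mem_univ x)
    exact ⟨y, bfw_ww hB hM hN le_rfl (hp.insert _) hy⟩
  · obtain ⟨x, _, hx⟩ := Pool.Agent.H899R2.VP.BF.back h hlt (mem_univ y)
    exact ⟨x, bfw_ww hB hM hN le_rfl (hp.insert _) hx⟩

private theorem bfw_ext (h : bfwB M N (Ordinal.omega0 * 3) ∅) {u : Set ℕ} (hu : u.Finite) :
    ∀ r : ℕ, ∃ p : Set (ℕ × ℕ), p.Finite ∧ Prod.fst '' p = u ∧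
      bfwB M N (Ordinal.omega0 * 2 + (r : Ordinal.{0})) p := by
  induction u, hu using Set.Finite.induction_on with
  | empty =>
    intro r
    refine ⟨∅, finite_empty, image_empty _, Pool.Agent.H899R2.VP.BF.mono h ?_⟩
    have h3 : (3 : Ordinal.{0}) = 2 + 1 := by norm_num
    rw [h3, mul_add, mul_one]
    exact add_le_add le_rfl (le_of_lt (Ordinal.natCast_lt_omega0 r))
  | insert _ _ ih =>
    rename_i x u _ _
    intro r
    obtain ⟨p, hp, hpu, hb⟩ := ih (r + 1)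
    have hlt : Ordinal.omega0 * 2 + (r : Ordinal.{0}) <
        Ordinal.omega0 * 2 + ((r + 1 : ℕ) : Ordinal.{0}) := by
      have : (r : Ordinal.{0}) < ((r + 1 : ℕ) : Ordinal.{0}) := by
        exact_mod_cast Nat.lt_succ_self r
      simp
    obtain ⟨y, _, hy⟩ := Pool.Agent.H899R2.VP.BF.forth hb hlt (mem_univ x)
    refine ⟨insert (x, y) p, hp.insert _, ?_, hy⟩
    rw [image_insert_eq, hpu]

theorem t_BFW (h : S_BKI) : S_BFW := by
  intro a M N hM hN hbf u hu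
  obtain ⟨p, hp, hpu, hb⟩ := bfw_ext hbf hu 1
  exact ⟨p, hp, hpu, bfw_wh h hM hN hp hb⟩

end Pool.Agent.H566X
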