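import Pool.Agent.H566X.Spec

/-! BKI: all finite ranks of back-and-forth at level `n` give an isomorphism of the `n`-reducts. -/

set_option autoImplicit false

namespace Pool.Agent.H566X

open Set

section

variable {a : ℕ → ℕ} {V W : Type} {M : RS a V} {N : RS a W} {n : ℕ} {p : Set (V × W)}

theorem bki_pi {k : ℕ} (h : Bk n M N k p) : PI n M N p := by
  cases k with
  | zero => exact h
  | succ k => exact h.1

theorem bki_succ : ∀ (k : ℕ) (p : Set (V × W)), Bk n M N (k + 1) p → Bk n M N k p := by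
  intro k
  induction k with
  | zero => intro p h; exact h.1
  | succ k ih =>
    intro p h
    refine ⟨h.1, fun x => ?_, fun y => ?_⟩
    · obtain ⟨y, hy⟩ := h.2.1 x
      exact ⟨y, ih _ hy⟩
    · obtain ⟨x, hx⟩ := h.2.2 y
      exact ⟨x, ih _ hx⟩

theorem bki_anti {j k : ℕ} (hjk : j ≤ k) (h : Bk n M N k p) : Bk n M N j p := by
  induction k, hjk using Nat.le_induction with
  | base => exact h
  | succ k _ ih => exact ih (bki_succ k p h)

theorem bki_pi_swap (h : PI n M N p) : PI n N M (Prod.swap '' p) := by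
  refine ⟨?_, ?_⟩
  · rintro _ ⟨u, hu, rfl⟩ _ ⟨v, hv, rfl⟩
    exact (h.1 u hu v hv).symm
  · intro i hi t ht
    have h1 := h.2 i hi (fun k => (t k).swap) (fun k => by
      obtain ⟨u, hu, hu'⟩ := ht k
      rw [← hu']; simpa using hu)
    exact h1.symm

theorem bki_swap : ∀ (k : ℕ) (p : Set (V × W)), Bk n M N k p → Bk n N M k (Prod.swap '' p) := by
  intro k
  induction k with
  | zero => intro p h; exact bki_pi_swap h
  | succ k ih =>
    intro p h
    refine ⟨bki_pi_swap h.1, fun y => ?_, fun x => ?_⟩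
    · obtain ⟨x, hx⟩ := h.2.2 y
      refine ⟨x, ?_⟩
      have h1 := ih _ hx
      rwa [Set.image_insert_eq] at h1
    · obtain ⟨y, hy⟩ := h.2.1 x
      refine ⟨y, ?_⟩
      have h1 := ih _ hy
      rwa [Set.image_insert_eq] at h1

theorem bki_map (τ : Equiv.Perm W) (hτ : IsoN n N N τ) : ∀ (k : ℕ) (p : Set (V × W)),
    Bk n M N k p → Bk n M N k ((fun u : V × W => (u.1, τ u.2)) '' p) := by
  have hpi : ∀ p : Set (V × W), PI n M N p → PI n M N ((fun u : V × W => (u.1, τ u.2)) '' p) := by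
    intro p h
    refine ⟨?_, ?_⟩
    · rintro _ ⟨u, hu, rfl⟩ _ ⟨v, hv, rfl⟩
      simp only [τ.injective.eq_iff]
      exact h.1 u hu v hv
    · intro i hi t ht
      choose s hs1 hs2 using ht
      have h1 := h.2 i hi s hs1
      have h2 : (fun k => (t k).1) = (fun k => (s k).1) := by
        funext k; rw [← hs2 k]
      have h3 : (fun k => (t k).2) = τ ∘ (fun k => (s k).2) := by
        funext k; rw [← hs2 k]; rfl
      rw [h2, h3, h1]
      exact (hτ i hi _).symm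
  intro k
  induction k with
  | zero => intro p h; exact hpi p h
  | succ k ih =>
    intro p h
    refine ⟨hpi p h.1, fun x => ?_, fun y => ?_⟩
    · obtain ⟨y, hy⟩ := h.2.1 x
      refine ⟨τ y, ?_⟩
      have h1 := ih _ hy
      rwa [Set.image_insert_eq] at h1
    · obtain ⟨x, hx⟩ := h.2.2 (τ.symm y)
      refine ⟨x, ?_⟩
      have h1 := ih _ hx
      rw [Set.image_insert_eq] at h1
      simpa using h1

/-- finitely many orbits over a finite set -/
theorem bki_orbits (h : S_IND) (hN : Cell N n) (A : Set W) (hA : A.Finite) :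
    ∃ Y : Set W, Y.Finite ∧ ∀ y, ∃ τ, Gr N n τ ∧ (∀ z ∈ A, τ z = z) ∧ τ y ∈ Y := by
  classical
  obtain ⟨T, hT, hT'⟩ := hN.orb
  by_cases hne : Nonempty W
  · obtain ⟨w0⟩ := hne
    let c : W → W := fun t => if hc : ∃ y, Ob N n t y ∧ ¬ Ac N n A y then hc.choose else w0
    refine ⟨{y | Ac N n A y} ∪ c '' T, (hN.fin A hA).union (hT.image _), fun y => ?_⟩
    by_cases hy : Ac N n A y
    · exact ⟨1, Gr.one, fun z _ => rfl, Or.inl hy⟩
    · obtain ⟨t, ht, hty⟩ := hT' y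
      have hc : ∃ y, Ob N n t y ∧ ¬ Ac N n A y := ⟨y, hty.symm, hy⟩
      have h1 : c t = hc.choose := dif_pos hc
      have h2 := hc.choose_spec
      rw [← h1] at h2
      obtain ⟨σ, hσ1, hσ2, hσ3⟩ := h a W N n hN A y (c t) hA (hty.trans h2.1) hy h2.2
      exact ⟨σ, hσ1, hσ2, Or.inr ⟨t, ht, hσ3.symm⟩⟩
  · exact ⟨∅, Set.finite_empty, fun y => absurd ⟨y⟩ hne⟩

theorem bki_forth (h : S_IND) (hN : Cell N n) (hp : p.Finite) (hB : ∀ k, Bk n M N k p) (x : V) :
    ∃ y, ∀ k, Bk n M N k (insert (x, y) p) := by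
  obtain ⟨Y, hY, hY'⟩ := bki_orbits h hN (Prod.snd '' p) (hp.image _)
  have h1 : ∀ k, ∃ y : Y, Bk n M N k (insert (x, y.1) p) := by
    intro k
    obtain ⟨y, hy⟩ := (hB (k + 1)).2.1 x
    obtain ⟨τ, hτ, hτ1, hτ2⟩ := hY' y
    refine ⟨⟨τ y, hτ2⟩, ?_⟩
    have h2 := bki_map (M := M) τ hτ.2 k _ hy
    rw [Set.image_insert_eq] at h2
    have h3 : (fun u : V × W => (u.1, τ u.2)) '' p = p := by
      ext u
      constructor
      · rintro ⟨v, hv, rfl⟩
        have h4 := hτ1 v.2 ⟨v, hv, rfl⟩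
        simp only [h4]
        exact hv
      · intro hu
        refine ⟨u, hu, ?_⟩
        have h4 := hτ1 u.2 ⟨u, hu, rfl⟩
        simp only [h4]
    rw [h3] at h2
    exact h2
  choose f hf using h1
  have : Finite Y := hY
  obtain ⟨y, hy⟩ := Finite.exists_infinite_fiber f
  refine ⟨y.1, fun k => ?_⟩
  have hinf : (f ⁻¹' {y}).Infinite := Set.infinite_coe_iff.1 hy
  obtain ⟨k', hk', hkk⟩ := hinf.exists_gt k
  have h2 := hf k'
  have h3 : f k' = y := hk'
  rw [h3] at h2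
  exact bki_anti hkk.le h2

theorem bki_back (h : S_IND) (hM : Cell M n) (hp : p.Finite) (hB : ∀ k, Bk n M N k p) (y : W) :
    ∃ x, ∀ k, Bk n M N k (insert (x, y) p) := by
  obtain ⟨x, hx⟩ := bki_forth h hM (hp.image Prod.swap) (fun k => bki_swap k p (hB k)) y
  refine ⟨x, fun k => ?_⟩
  have h1 := bki_swap k _ (hx k)
  rw [Set.image_insert_eq, Set.image_image] at h1
  simpa using h1

end

/-- **BKI** -/
theorem t_BKI (h : S_IND) : S_BKI := by
  intro a M N n hM hN p hp hB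
  -- the chain
  let T : Type := {q : Set (ℕ × ℕ) // q.Finite ∧ ∀ k, Bk n M N k q}
  have hstep : ∀ (q : T) (j : ℕ), ∃ r : T, q.1 ⊆ r.1 ∧ (∃ y, (j, y) ∈ r.1) ∧ ∃ x, (x, j) ∈ r.1 := by
    rintro ⟨q, hq, hqB⟩ j
    obtain ⟨y, hy⟩ := bki_forth h hN hq hqB j
    obtain ⟨x, hx⟩ := bki_back h hM (hq.insert (j, y)) hy j
    refine ⟨⟨insert (x, j) (insert (j, y) q), (hq.insert _).insert _, hx⟩, ?_, ⟨y, ?_⟩, ⟨x, ?_⟩⟩
    · exact (Set.subset_insert _ _).trans (Set.subset_insert _ _)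
    · exact Set.mem_insert_of_mem _ (Set.mem_insert _ _)
    · exact Set.mem_insert _ _
  choose S hS1 hS2 hS3 using hstep
  let P : ℕ → T := fun j => Nat.rec ⟨p, hp, hB⟩ (fun j q => S q j) j
  have hP0 : (P 0).1 = p := rfl
  have hPs : ∀ j, P (j + 1) = S (P j) j := fun j => rfl
  have hmono : Monotone (fun j => (P j).1) := monotone_nat_of_le_succ (fun j => by
    rw [hPs]; exact hS1 _ _)
  set U : Set (ℕ × ℕ) := ⋃ j, (P j).1 with hU
  have hmem : ∀ u, u ∈ U ↔ ∃ j, u ∈ (P j).1 := fun u => by rw [hU, Set.mem_iUnion]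
  have hUx : ∀ x, ∃ y, (x, y) ∈ U := by
    intro x
    obtain ⟨y, hy⟩ := hS2 (P x) x
    exact ⟨y, (hmem _).2 ⟨x + 1, by rw [hPs]; exact hy⟩⟩
  have hUy : ∀ y, ∃ x, (x, y) ∈ U := by
    intro y
    obtain ⟨x, hx⟩ := hS3 (P y) y
    exact ⟨x, (hmem _).2 ⟨y + 1, by rw [hPs]; exact hx⟩⟩
  have hPI : PI n M N U := by
    refine ⟨?_, ?_⟩
    · intro u hu v hv
      obtain ⟨j, hj⟩ := (hmem u).1 hu
      obtain ⟨k, hk⟩ := (hmem v).1 hv
      exact (bki_pi ((P (max j k)).2.2 0)).1 u (hmono (le_max_left j k) hj) v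
        (hmono (le_max_right j k) hk)
    · intro i hi t ht
      choose j hj using fun k => (hmem (t k)).1 (ht k)
      exact (bki_pi ((P (Finset.univ.sup j)).2.2 0)).2 i hi t
        (fun k => hmono (Finset.le_sup (Finset.mem_univ k)) (hj k))
  choose f hf using hUx
  have hinj : Function.Injective f := by
    intro x x' hxx
    exact (hPI.1 _ (hf x) _ (hf x')).2 hxx
  have hsurj : Function.Surjective f := by
    intro y
    obtain ⟨x, hx⟩ := hUy y
    exact ⟨x, (hPI.1 _ (hf x) _ hx).1 rfl⟩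
  refine ⟨Equiv.ofBijective f ⟨hinj, hsurj⟩, ?_, ?_⟩
  · intro i hi t
    have h1 := hPI.2 i hi (fun k => (t k, f (t k))) (fun k => hf (t k))
    exact h1.symm
  · intro u hu
    have h1 : u ∈ U := (hmem u).2 ⟨0, hu⟩
    exact (hPI.1 _ (hf u.1) _ h1).1 rfl

end Pool.Agent.H566X
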