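import Pool.Agent.H566X.Spec

/-! TASK C0 of project H566X (helper566); proof by helper439. -/

set_option autoImplicit false

namespace Pool.Agent.H566X

open Set

theorem t_C0 (h : S_TH) : S_C0 := by
  intro a M hM
  have h1 : ∀ k : ℕ, ∃ θ, Gr M k θ ∧ (∀ v ∈ {v : ℕ | v ≤ k}, Ac M k ∅ v → θ v = v) ∧
      ∀ v ∈ {v : ℕ | v ≤ k}, ¬ Ac M k ∅ v → θ v ∉ {v : ℕ | v ≤ k} := fun k =>
    h a ℕ M k (hM k) {v | v ≤ k} (Set.finite_le_nat k)
  choose θ hθ using h1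
  exact ⟨θ, fun k => (hθ k).1, fun k v hv hA => (hθ k).2.1 v hv hA,
    fun k v hv hA => not_le.1 ((hθ k).2.2 v hv hA)⟩

end Pool.Agent.H566X
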