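import Pool.Agent.H566X.Spec
import Pool.Agent.H566V.Ext

/-! C1: different elements of the extension have different values almost everywhere. -/

set_option autoImplicit false

namespace Pool.Agent.H566X

open Set

theorem c1_ne {a : ℕ → ℕ} {M : RS a ℕ} {θ : ℕ → Equiv.Perm ℕ} (h : THs M θ) {v : ℕ}
    (hv : ¬ AcI M ∅ v) (b : ℕ) : ∀ᶠ n in (hyp : Filter ℕ), θ n v ≠ b := by
  refine Nat.hyperfilter_le_atTop ?_
  show ∀ᶠ n in (Filter.atTop : Filter ℕ), θ n v ≠ b
  filter_upwards [Filter.eventually_ge_atTop (max v b)] with n hn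
  have h1 : v ≤ n := (le_max_left _ _).trans hn
  have h2 : b ≤ n := (le_max_right _ _).trans hn
  have h3 := h.mv n v h1 (fun hac => hv ⟨n, hac⟩)
  omega

theorem t_C1 : S_C1 := by
  intro a M θ _ hθ x y hxy
  have hex : ∀ v : {v : ℕ // ¬ AcI M ∅ v}, ∃ g : Pool.Agent.H566V.Gm hyp ℕ,
      ∀ᶠ n in (hyp : Filter ℕ), g.fn n = θ n v.1 := fun v =>
    Pool.Agent.H566V.exists_gm (fun n => θ n v.1) (fun b => c1_ne hθ v.2 b)
  choose g hg using hex
  have hinj : Function.Injective g := by
    intro v w e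
    obtain ⟨n, h1, h2⟩ := ((hg v).and (hg w)).exists
    rw [e, h2] at h1
    exact Subtype.ext ((θ n).injective h1).symm
  let φ : XT M → Pool.Agent.H566V.E hyp ℕ := Sum.map id (Prod.map id g)
  have hφ : Function.Injective φ :=
    Sum.map_injective.mpr ⟨Function.injective_id,
      Function.Injective.prodMap Function.injective_id hinj⟩
  have hev : ∀ z : XT M, ∀ᶠ ω in (Pool.Agent.H566V.W hyp : Filter (ℚ → ℕ)),
      Pool.Agent.H566V.ev ω (φ z) = evx θ ω z := by
    rintro (z | ⟨q, v⟩)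
    · exact Filter.Eventually.of_forall fun _ => rfl
    · exact (Pool.Agent.H566V.ev_W_single q (fun n => (g v).fn n = θ n v.1)).2 (hg v)
  filter_upwards [hev x, hev y, Pool.Agent.H566V.ev_ne (fun e => hxy (hφ e))] with ω h1 h2 h3
  rw [← h1, ← h2]
  exact h3

end Pool.Agent.H566X
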