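import Pool.Agent.H566X.Spec

set_option autoImplicit false

namespace Pool.Agent.H566X

open Set

theorem t_C2 (h1 : S_C1) (h2 : S_LOC) : S_C2 := by
  intro a C hcl hinv M hM θ hAC hθ
  refine h2 a C hcl hinv M hM (XT M) (NX M θ) ?_
  intro n F
  classical
  have hinj : ∀ᶠ ω in (Pool.Agent.H566V.W hyp : Filter (ℚ → ℕ)),
      ∀ x ∈ F, ∀ y ∈ F, x ≠ y → evx θ ω x ≠ evx θ ω y := by
    rw [Filter.eventually_all_finset]
    intro x _
    rw [Filter.eventually_all_finset]
    intro y _
    by_cases hxy : x = y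
    · exact Filter.Eventually.of_forall (fun _ h => absurd hxy h)
    · exact (h1 a M θ hAC hθ x y hxy).mono (fun _ h _ => h)
  have hrel : ∀ i, ∀ᶠ ω in (Pool.Agent.H566V.W hyp : Filter (ℚ → ℕ)),
      ∀ t : Fin (a i) → F, M i (evx θ ω ∘ fun k => (t k).1) = NX M θ i (fun k => (t k).1) := by
    intro i
    rw [Filter.eventually_all]
    intro t
    by_cases hP : ∀ᶠ ω in (Pool.Agent.H566V.W hyp : Filter (ℚ → ℕ)),
        M i (evx θ ω ∘ fun k => (t k).1) = true
    · have hN : NX M θ i (fun k => (t k).1) = true := by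
        show decide _ = true
        exact decide_eq_true hP
      rw [hN]
      exact hP
    · have hN : NX M θ i (fun k => (t k).1) = false := by
        show decide _ = false
        exact decide_eq_false hP
      rw [hN]
      have := Ultrafilter.eventually_not.2 hP
      exact this.mono (fun ω hω => by simpa using hω)
  have hrel' : ∀ᶠ ω in (Pool.Agent.H566V.W hyp : Filter (ℚ → ℕ)), ∀ i ∈ Finset.range n,
      ∀ t : Fin (a i) → F, M i (evx θ ω ∘ fun k => (t k).1) = NX M θ i (fun k => (t k).1) := by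
    rw [Filter.eventually_all_finset]
    intro i _
    exact hrel i
  obtain ⟨ω, hω1, hω2⟩ := (hinj.and hrel').exists
  refine ⟨evx θ ω, ?_, ?_⟩
  · intro x hx y hy hxy
    by_contra hne
    exact hω1 x hx y hy hne hxy
  · intro i hi t ht
    exact hω2 i (Finset.mem_range.2 hi) (fun k => ⟨t k, ht k⟩)

end Pool.Agent.H566X
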