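import Pool.Agent.H566X.Spec

set_option autoImplicit false

namespace Pool.Agent.H566X

open Set

theorem c3_ev {a : ℕ → ℕ} (M : RS a ℕ) (θ : ℕ → Equiv.Perm ℕ) (hθ : THs M θ)
    (n : ℕ) (σ : Equiv.Perm ℕ) (hσ : Gr M n σ) (x : XT M) :
    ∀ᶠ ω in (Pool.Agent.H566V.W hyp : Filter (ℚ → ℕ)),
      evx θ ω (Equiv.sumCongr σ (Equiv.refl _) x) = σ (evx θ ω x) := by
  rcases x with v | ⟨q, v⟩
  · exact Filter.Eventually.of_forall fun ω => rfl
  · have h1 : ∀ᶠ k in (hyp : Filter ℕ), σ (θ k v.1) = θ k v.1 := by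
      obtain ⟨B, hB⟩ := hσ.1.bddAbove
      refine Nat.hyperfilter_le_atTop ?_
      filter_upwards [Filter.eventually_ge_atTop (max v.1 B)] with k hk
      have h2 : ¬ Ac M k ∅ v.1 := fun h => v.2 ⟨k, h⟩
      have h3 := hθ.mv k v.1 ((le_max_left _ _).trans hk) h2
      by_contra hne
      have h4 : θ k v.1 ≤ B := hB hne
      have h5 : B ≤ k := (le_max_right _ _).trans hk
      omega
    have h2 := (Pool.Agent.H566V.ev_W_single (p := hyp) q
      (fun k => σ (θ k v.1) = θ k v.1)).2 h1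
    filter_upwards [h2] with ω hω
    exact hω.symm

theorem t_C3 : S_C3 := by
  intro a M θ _ hθ n σ hσ
  refine ⟨?_, ?_⟩
  · refine (hσ.1.image (Sum.inl : ℕ → XT M)).subset ?_
    intro x hx
    rcases x with v | ⟨q, v⟩
    · refine ⟨v, ?_, rfl⟩
      intro h
      apply hx
      show Sum.inl (σ v) = Sum.inl v
      rw [h]
    · exact absurd rfl hx
  · intro i hi t
    have h1 : ∀ᶠ ω in (Pool.Agent.H566V.W hyp : Filter (ℚ → ℕ)), ∀ k,
        evx θ ω (Equiv.sumCongr σ (Equiv.refl _) (t k)) = σ (evx θ ω (t k)) :=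
      Filter.eventually_all.2 fun k => c3_ev M θ hθ n σ hσ (t k)
    have h2 : (∀ᶠ ω in (Pool.Agent.H566V.W hyp : Filter (ℚ → ℕ)),
        M i (evx θ ω ∘ (Equiv.sumCongr σ (Equiv.refl _) ∘ t)) = true) ↔
        ∀ᶠ ω in (Pool.Agent.H566V.W hyp : Filter (ℚ → ℕ)), M i (evx θ ω ∘ t) = true := by
      refine Filter.eventually_congr ?_
      filter_upwards [h1] with ω hω
      have h3 : evx θ ω ∘ (Equiv.sumCongr σ (Equiv.refl _) ∘ t) = σ ∘ (evx θ ω ∘ t) := by
        funext k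
        exact hω k
      rw [h3, hσ.2 i hi]
    unfold NX
    exact decide_eq_decide.2 h2

end Pool.Agent.H566X
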