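import Pool.Agent.H566X.Spec

/-! C4: exchanging a block with its copy in the extension. -/

set_option autoImplicit false

namespace Pool.Agent.H566X

open Set Filter

variable {a : ℕ → ℕ} {M : RS a ℕ} {θ : ℕ → Equiv.Perm ℕ} {n : ℕ}

private theorem c4_not_aci (hM : AC M) {v : ℕ} (hv : ¬ AcI M ∅ v) {y : ℕ} (h : Bl M n v y) :
    ¬ AcI M ∅ y := by
  intro hc
  exact hv (AcI.trans hc ⟨n, (Bl.symm (hM n) h).1⟩)

/-- the conclusion of SWP for `θ k` -/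
private def C4P (M : RS a ℕ) (θ : ℕ → Equiv.Perm ℕ) (n v k : ℕ) : Prop :=
  ∃ w : Equiv.Perm ℕ, Gr M n w ∧ (∀ y, w (w y) = y) ∧ (∀ y, Bl M n v y → w y = θ k y) ∧
    ∀ y, ¬ Bl M n v y → ¬ Bl M n v (w y) → w y = y

private theorem c4_ev (h : S_SWP) (hM : AC M) (hθ : THs M θ) {v : ℕ} (hv : ¬ AcI M ∅ v) :
    ∀ᶠ k in (hyp : Filter ℕ), C4P M θ n v k := by
  have hfin : {y | Bl M n v y}.Finite := bl_finite (hM n) v
  obtain ⟨b, hb⟩ := hfin.bddAbove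
  have h1 : ∀ᶠ k in (hyp : Filter ℕ), max n b ≤ k := by
    have h2 : ∀ᶠ k in (atTop : Filter ℕ), max n b ≤ k := eventually_ge_atTop _
    rw [← Nat.cofinite_eq_atTop] at h2
    exact h2.filter_mono (Filter.hyperfilter_le_cofinite)
  filter_upwards [h1] with k hk
  have hnk : n ≤ k := le_trans (le_max_left _ _) hk
  have hbk : b ≤ k := le_trans (le_max_right _ _) hk
  have hle : ∀ y, Bl M n v y → y ≤ k := fun y hy => le_trans (hb hy) hbk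
  refine h a ℕ M n (hM n) v (θ k) (fun hc => hv ⟨n, hc⟩) (Gr.mono (hθ.gr k) hnk) ?_
  intro y hy hc
  have h3 : ¬ Ac M k ∅ y := fun hc' => c4_not_aci hM hv hy ⟨k, hc'⟩
  have h4 := hθ.mv k y (hle y hy) h3
  exact absurd (hle _ hc) (not_le.2 h4)

open Classical in
/-- the exchange -/
private noncomputable def c4f (hM : AC M) (n : ℕ) (v : {v : ℕ // ¬ AcI M ∅ v}) (q : ℚ) :
    XT M → XT M
  | Sum.inl y => if hy : Bl M n v.1 y then Sum.inr (q, ⟨y, c4_not_aci hM v.2 hy⟩) else Sum.inl y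
  | Sum.inr (r, y) => if r = q ∧ Bl M n v.1 y.1 then Sum.inl y.1 else Sum.inr (r, y)

private theorem c4f_inl (hM : AC M) (v : {v : ℕ // ¬ AcI M ∅ v}) (q : ℚ)
    (y : {v : ℕ // ¬ AcI M ∅ v}) (hy : Bl M n v.1 y.1) :
    c4f hM n v q (Sum.inl y.1) = Sum.inr (q, y) := by
  simp only [c4f]
  rw [dif_pos hy]

private theorem c4f_inr (hM : AC M) (v : {v : ℕ // ¬ AcI M ∅ v}) (q : ℚ)
    (y : {v : ℕ // ¬ AcI M ∅ v}) (hy : Bl M n v.1 y.1) :
    c4f hM n v q (Sum.inr (q, y)) = Sum.inl y.1 := by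
  simp only [c4f]
  rw [if_pos ⟨rfl, hy⟩]

private theorem c4f_other (hM : AC M) (v : {v : ℕ // ¬ AcI M ∅ v}) (q : ℚ) (z : XT M)
    (hz : ∀ y : {v : ℕ // ¬ AcI M ∅ v}, Bl M n v.1 y.1 → z ≠ Sum.inl y.1 ∧ z ≠ Sum.inr (q, y)) :
    c4f hM n v q z = z := by
  rcases z with y | ⟨r, y⟩
  · simp only [c4f]
    rw [dif_neg]
    intro hy
    exact (hz ⟨y, c4_not_aci hM v.2 hy⟩ hy).1 rfl
  · simp only [c4f]
    rw [if_neg]
    rintro ⟨rfl, hy⟩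
    exact (hz y hy).2 rfl

private theorem c4_cases (M : RS a ℕ) (n : ℕ) (v : {v : ℕ // ¬ AcI M ∅ v}) (q : ℚ) (z : XT M) :
    (∃ y : {v : ℕ // ¬ AcI M ∅ v}, Bl M n v.1 y.1 ∧ z = Sum.inl y.1) ∨
    (∃ y : {v : ℕ // ¬ AcI M ∅ v}, Bl M n v.1 y.1 ∧ z = Sum.inr (q, y)) ∨
    ∀ y : {v : ℕ // ¬ AcI M ∅ v}, Bl M n v.1 y.1 → z ≠ Sum.inl y.1 ∧ z ≠ Sum.inr (q, y) := by
  by_cases h1 : ∃ y : {v : ℕ // ¬ AcI M ∅ v}, Bl M n v.1 y.1 ∧ z = Sum.inl y.1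
  · exact Or.inl h1
  · by_cases h2 : ∃ y : {v : ℕ // ¬ AcI M ∅ v}, Bl M n v.1 y.1 ∧ z = Sum.inr (q, y)
    · exact Or.inr (Or.inl h2)
    · exact Or.inr (Or.inr fun y hy => ⟨fun h => h1 ⟨y, hy, h⟩, fun h => h2 ⟨y, hy, h⟩⟩)

private theorem c4f_invol (hM : AC M) (v : {v : ℕ // ¬ AcI M ∅ v}) (q : ℚ) :
    Function.Involutive (c4f hM n v q) := by
  intro z
  rcases c4_cases M n v q z with ⟨y, hy, rfl⟩ | ⟨y, hy, rfl⟩ | hz
  · rw [c4f_inl hM v q y hy, c4f_inr hM v q y hy]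
  · rw [c4f_inr hM v q y hy, c4f_inl hM v q y hy]
  · rw [c4f_other hM v q z hz, c4f_other hM v q z hz]

private theorem c4_finite (hM : AC M) (v : {v : ℕ // ¬ AcI M ∅ v}) (q : ℚ) :
    {x | c4f hM n v q x ≠ x}.Finite := by
  have hfin : {y | Bl M n v.1 y}.Finite := bl_finite (hM n) v.1
  have hfin' : {y : {v : ℕ // ¬ AcI M ∅ v} | Bl M n v.1 y.1}.Finite :=
    hfin.preimage Subtype.val_injective.injOn
  refine ((hfin'.image fun y => (Sum.inl y.1 : XT M)).union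
    (hfin'.image fun y => (Sum.inr (q, y) : XT M))).subset ?_
  intro z hz
  rcases c4_cases M n v q z with ⟨y, hy, rfl⟩ | ⟨y, hy, rfl⟩ | hz'
  · exact Or.inl ⟨y, hy, rfl⟩
  · exact Or.inr ⟨y, hy, rfl⟩
  · exact absurd (c4f_other hM v q z hz') hz

private theorem c4_ne (h1 : S_C1) (hM : AC M) (hθ : THs M θ) (v : {v : ℕ // ¬ AcI M ∅ v}) (q : ℚ)
    (z : XT M) : ∀ᶠ ω in (Pool.Agent.H566V.W hyp : Filter (ℚ → ℕ)),
      ∀ y : {v : ℕ // ¬ AcI M ∅ v}, Bl M n v.1 y.1 →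
        (z ≠ Sum.inl y.1 → evx θ ω z ≠ y.1) ∧ (z ≠ Sum.inr (q, y) → evx θ ω z ≠ θ (ω q) y.1) := by
  have hfin : {y | Bl M n v.1 y}.Finite := bl_finite (hM n) v.1
  have hfin' : {y : {v : ℕ // ¬ AcI M ∅ v} | Bl M n v.1 y.1}.Finite :=
    hfin.preimage Subtype.val_injective.injOn
  have h2 : ∀ᶠ ω in (Pool.Agent.H566V.W hyp : Filter (ℚ → ℕ)),
      ∀ y ∈ {y : {v : ℕ // ¬ AcI M ∅ v} | Bl M n v.1 y.1},
        (z ≠ Sum.inl y.1 → evx θ ω z ≠ y.1) ∧ (z ≠ Sum.inr (q, y) → evx θ ω z ≠ θ (ω q) y.1) := by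
    rw [Filter.eventually_all_finite hfin']
    intro y _
    refine Filter.Eventually.and ?_ ?_
    · by_cases hz : z = Sum.inl y.1
      · exact Filter.Eventually.of_forall fun ω h => absurd hz h
      · filter_upwards [h1 a M θ hM hθ z (Sum.inl y.1) hz] with ω hω _
        exact hω
    · by_cases hz : z = Sum.inr (q, y)
      · exact Filter.Eventually.of_forall fun ω h => absurd hz h
      · filter_upwards [h1 a M θ hM hθ z (Sum.inr (q, y)) hz] with ω hω _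
        exact hω
  exact h2

private theorem c4_iso (h : S_SWP) (h1 : S_C1) (hM : AC M) (hθ : THs M θ)
    (v : {v : ℕ // ¬ AcI M ∅ v}) (q : ℚ) (i : ℕ) (hi : i < n) (t : Fin (a i) → XT M) :
    NX M θ i (c4f hM n v q ∘ t) = NX M θ i t := by
  classical
  unfold NX
  rw [decide_eq_decide]
  have hP := (Pool.Agent.H566V.ev_W_single (p := hyp) q (fun k => C4P M θ n v.1 k)).2
    (c4_ev h hM hθ v.2)
  have hQ : ∀ᶠ ω in (Pool.Agent.H566V.W hyp : Filter (ℚ → ℕ)), ∀ k : Fin (a i),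
      ∀ y : {v : ℕ // ¬ AcI M ∅ v}, Bl M n v.1 y.1 →
        (t k ≠ Sum.inl y.1 → evx θ ω (t k) ≠ y.1) ∧
        (t k ≠ Sum.inr (q, y) → evx θ ω (t k) ≠ θ (ω q) y.1) :=
    Filter.eventually_all.2 fun k => c4_ne h1 hM hθ v q (t k)
  refine Filter.eventually_congr ?_
  filter_upwards [hP, hQ] with ω hω hω'
  obtain ⟨w, hw, hw1, hw2, hw3⟩ := hω
  have key : evx θ ω ∘ (c4f hM n v q ∘ t) = w ∘ (evx θ ω ∘ t) := by
    funext k
    simp only [Function.comp]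
    rcases c4_cases M n v q (t k) with ⟨y, hy, hz⟩ | ⟨y, hy, hz⟩ | hz
    · rw [hz, c4f_inl hM v q y hy]
      have e1 : evx θ ω (Sum.inr (q, y) : XT M) = θ (ω q) y.1 := rfl
      have e2 : evx θ ω (Sum.inl y.1 : XT M) = y.1 := rfl
      rw [e1, e2, hw2 _ hy]
    · rw [hz, c4f_inr hM v q y hy]
      have e1 : evx θ ω (Sum.inr (q, y) : XT M) = θ (ω q) y.1 := rfl
      have e2 : evx θ ω (Sum.inl y.1 : XT M) = y.1 := rfl
      rw [e1, e2, ← hw2 _ hy, hw1]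
    · rw [c4f_other hM v q _ hz]
      symm
      apply hw3
      · intro hb
        have hna := c4_not_aci hM v.2 hb
        exact ((hω' k ⟨_, hna⟩ hb).1 (hz ⟨_, hna⟩ hb).1) rfl
      · intro hb
        have hna := c4_not_aci hM v.2 hb
        refine ((hω' k ⟨_, hna⟩ hb).2 (hz ⟨_, hna⟩ hb).2) ?_
        rw [← hw2 _ hb, hw1]
  rw [key, hw.2 i hi]

theorem t_C4 (h : S_SWP) (h1 : S_C1) : S_C4 := by
  intro a M θ hM hθ n v q
  refine ⟨(c4f_invol (n := n) hM v q).toPerm, ⟨c4_finite hM v q, ?_⟩, ?_, ?_⟩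
  · intro i hi t
    exact c4_iso h h1 hM hθ v q i hi t
  · intro y hy
    exact ⟨c4f_inl hM v q y hy, c4f_inr hM v q y hy⟩
  · intro z hz
    exact c4f_other hM v q z hz

end Pool.Agent.H566X
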