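import Pool.Agent.H566X.Spec
set_option autoImplicit false
namespace Pool.Agent.H566X
open Set

theorem c5_key (h2 : S_C3) (h3 : S_C4) (a : ℕ → ℕ) (M : RS a ℕ) (θ : ℕ → Equiv.Perm ℕ)
    (hM : AC M) (hθ : THs M θ) (n : ℕ) (v : {v : ℕ // ¬ AcI M ∅ v}) (q : ℚ)
    (F : Set (XT M)) (hF : F.Finite) (G : Set ℕ) (hG : G.Finite) :
    ∃ τ : Equiv.Perm (XT M), Gr (NX M θ) n τ ∧
      (∃ b : ℕ, b ∉ G ∧ τ (Sum.inr (q, v)) = Sum.inl b) ∧
      (∀ x ∈ F, (∀ y, x ≠ Sum.inr (q, y)) → τ x = x) ∧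
      ∀ x : XT M, x ∉ range Sum.inl → τ x = x ∨ τ x ∈ range Sum.inl := by
  have hv : ¬ Ac M n ∅ v.1 := fun h => v.2 ⟨n, h⟩
  have hA : (G ∪ {w : ℕ | (Sum.inl w : XT M) ∈ F}).Finite :=
    hG.union (hF.preimage (Sum.inl_injective.injOn))
  obtain ⟨s1, hs1, hinv, hb1, hb2⟩ := (hM n).far _ v.1 hA hv
  obtain ⟨S, hS, hSb, hSf⟩ := h3 a M θ hM hθ n v q
  have hsh : Gr (NX M θ) n (Equiv.sumCongr s1 (Equiv.refl _)) := h2 a M θ hM hθ n s1 hs1
  set sh : Equiv.Perm (XT M) := Equiv.sumCongr s1 (Equiv.refl _) with hshdef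
  have shl : ∀ w : ℕ, sh (Sum.inl w) = Sum.inl (s1 w) := fun w => rfl
  have shr : ∀ p, sh (Sum.inr p) = Sum.inr p := fun p => rfl
  -- `S` fixes `inl w` for `w` outside the block
  have hSl : ∀ w : ℕ, ¬ Bl M n v.1 w → S (Sum.inl w) = Sum.inl w := by
    intro w hw
    refine hSf _ fun y hy => ⟨?_, ?_⟩
    · intro e
      have : w = y.1 := Sum.inl_injective e
      exact hw (this ▸ hy)
    · intro e
      cases e
  refine ⟨sh * S * sh, (hsh.mul hS).mul hsh, ⟨s1 v.1, ?_, ?_⟩, ?_, ?_⟩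
  · have := (hb1 v.1 (Bl.refl hv)).1
    intro h
    exact this (Or.inl h)
  · change sh (S (sh (Sum.inr (q, v)))) = _
    rw [shr, (hSb v (Bl.refl hv)).2, shl]
  · intro x hx hxq
    change sh (S (sh x)) = x
    rcases x with w | ⟨q', y⟩
    · rw [shl]
      by_cases hw : Bl M n v.1 w
      · rw [hSl _ (hb1 w hw).2, shl, hinv]
      · have h1 : ¬ Bl M n v.1 (s1 w) := by
          intro h
          have := (hb1 _ h).1
          rw [hinv] at this
          exact this (Or.inr hx)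
        have h2 : s1 w = w := hb2 w hw h1
        rw [h2, hSl _ hw, shl, h2]
    · have hq : q' ≠ q := by
        rintro rfl
        exact hxq y rfl
      rw [shr, hSf, shr]
      intro y' _
      refine ⟨fun e => (by cases e), fun e => ?_⟩
      have := Sum.inr_injective e
      exact hq (congrArg Prod.fst this)
  · intro x hx
    change sh (S (sh x)) = x ∨ sh (S (sh x)) ∈ range Sum.inl
    rcases x with w | ⟨q', y⟩
    · exact absurd ⟨w, rfl⟩ hx
    · rw [shr]
      by_cases hq : q' = q ∧ Bl M n v.1 y.1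
      · obtain ⟨rfl, hy⟩ := hq
        right
        rw [(hSb y hy).2, shl]
        exact ⟨_, rfl⟩
      · left
        rw [hSf, shr]
        intro y' hy'
        refine ⟨fun e => (by cases e), fun e => ?_⟩
        have e' := Sum.inr_injective e
        apply hq
        have e1 : q' = q := congrArg Prod.fst e'
        have e2 : y = y' := congrArg Prod.snd e'
        exact ⟨e1, e2 ▸ hy'⟩

theorem t_C5 (h1 : S_FU1) (h2 : S_C3) (h3 : S_C4) : S_C5 := by
  intro a M θ hM hθ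
  constructor
  · apply h1
    intro n F hF z hz
    rcases z with w | ⟨q, v⟩
    · exact absurd ⟨w, rfl⟩ hz
    · obtain ⟨τ, hτ, ⟨b, -, hb⟩, hfix, hrest⟩ :=
        c5_key h2 h3 a M θ hM hθ n v q F hF ∅ finite_empty
      refine ⟨τ, hτ, ?_, ?_, hrest⟩
      · rintro x hx ⟨w, rfl⟩
        exact hfix _ hx fun y e => by cases e
      · rw [hb]
        exact ⟨b, rfl⟩
  · intro n v q F hF hFq hAc
    obtain ⟨τ, hτ, ⟨b, hbG, hb⟩, hfix, -⟩ :=
      c5_key h2 h3 a M θ hM hθ n v q F hF _ (Set.Finite.preimage Sum.inl_injective.injOn hAc)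
    apply hbG
    refine ⟨τ, hτ, ?_, hb⟩
    intro z hz
    exact hfix z hz fun y e => hFq y (e ▸ hz)

end Pool.Agent.H566X
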