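import Pool.Agent.H566X.Spec

/-! Task C6 (helper19): orbits and algebraicity in `M` and in the extension. -/

set_option autoImplicit false

namespace Pool.Agent.H566X

open Set

/-- `ℕ` as the subset `range inl` of the extension -/
noncomputable def c6_e {a : ℕ → ℕ} (M : RS a ℕ) : ℕ ≃ (range (Sum.inl : ℕ → XT M)) :=
  Equiv.ofInjective (Sum.inl : ℕ → XT M) Sum.inl_injective

theorem c6_e_val {a : ℕ → ℕ} (M : RS a ℕ) (x : ℕ) : ((c6_e M x) : XT M) = Sum.inl x := rfl

theorem c6_iso {a : ℕ → ℕ} (M : RS a ℕ) (θ : ℕ → Equiv.Perm ℕ) :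
    Iso M (res (NX M θ) (range (Sum.inl : ℕ → XT M))) (c6_e M) := by
  classical
  intro i t
  have h2 : (∀ᶠ _ω : ℚ → ℕ in (Pool.Agent.H566V.W hyp : Filter (ℚ → ℕ)), M i t = true) ↔
      M i t = true := Filter.eventually_const
  rw [Bool.eq_iff_iff]
  refine Iff.trans ?_ h2
  unfold res NX
  exact @decide_eq_true_iff _ _

theorem c6_image {a : ℕ → ℕ} (M : RS a ℕ) (A : Set ℕ) :
    Subtype.val '' (c6_e M '' A) = (Sum.inl '' A : Set (XT M)) := by
  rw [Set.image_image]
  rfl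

theorem t_C6 (h1 : S_C5) (h2 : S_FUL) : S_C6 := by
  intro a M θ hM hθ
  have hfull := (h1 a M θ hM hθ).1
  obtain ⟨k1, k2, k3⟩ := h2 a (XT M) (NX M θ) (range Sum.inl) hfull
  have hiso := c6_iso M θ
  refine ⟨?_, ?_, ?_⟩
  · intro n x y
    have e1 := k1 n (c6_e M x) (c6_e M y)
    rw [c6_e_val, c6_e_val] at e1
    rw [← e1]
    exact (Iso.ob hiso).symm
  · intro n A x hA
    have e1 := k2 n (c6_e M '' A) (c6_e M x) (hA.image _)
    rw [c6_image, c6_e_val] at e1
    rw [← e1]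
    exact (ac_iff (Iso.isoN hiso) le_rfl).symm
  · intro n A z hA hz
    exact k3 n (Sum.inl '' A) z (hA.image _) (Set.image_subset_range _ _) hz

end Pool.Agent.H566X
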