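import Pool.Agent.H566X.Spec

/-! Task C7: all multiplicities in the extension are infinite. -/

set_option autoImplicit false

namespace Pool.Agent.H566X

open Set

theorem t_C7 (h1 : S_C4) (h2 : S_C5) (h3 : S_C6) : S_C7 := by
  intro a M θ hM hθ _ z hz
  -- mates in every row
  have hmate : ∀ (v : {v : ℕ // ¬ AcI M ∅ v}) (q : ℚ),
      Eqv (NX M θ) (Sum.inl v.1) (Sum.inr (q, v)) := by
    intro v q n
    obtain ⟨s, hs, hsw, -⟩ := h1 a M θ hM hθ n v q
    have hv : ¬ Ac M n ∅ v.1 := fun h => v.2 ⟨n, h⟩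
    exact ⟨s, hs, (hsw v (Bl.refl hv)).1⟩
  have hinf : ∀ v : {v : ℕ // ¬ AcI M ∅ v}, InfM (NX M θ) (Sum.inl v.1) := by
    intro v A hA
    let f : XT M → ℚ := Sum.elim (fun _ => 0) (fun x => x.1)
    have hfA : (f '' A).Finite := hA.image f
    obtain ⟨q, hq⟩ := hfA.exists_notMem
    refine ⟨Sum.inr (q, v), hmate v q, ?_⟩
    rintro ⟨n, hn⟩
    refine (h2 a M θ hM hθ).2 n v q A hA ?_ hn
    intro y hy
    exact hq ⟨Sum.inr (q, y), hy, rfl⟩
  rcases z with v | ⟨q, v⟩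
  · have hv : ¬ AcI M ∅ v := by
      rintro ⟨n, hn⟩
      apply hz
      refine ⟨n, ?_⟩
      have := ((h3 a M θ hM hθ).2.1 n ∅ v Set.finite_empty).2 hn
      rwa [Set.image_empty] at this
    exact hinf ⟨v, hv⟩
  · exact (hinf v).congr (hmate v q)

end Pool.Agent.H566X
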