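import Pool.Agent.H566X.Spec

/-!
# Bad sequences stay bad
-/

set_option autoImplicit false

namespace Pool.Agent.H566X

open Set

theorem t_C8 (h : S_C6) : S_C8 := by
  intro a M θ hM hθ x hx
  obtain ⟨hOb, hAc, hn⟩ := h a M θ hM hθ
  have hE : ∀ v : ℕ, AcI (NX M θ) ∅ (Sum.inl v) ↔ AcI M ∅ v := by
    intro v
    constructor
    · rintro ⟨n, hv⟩
      refine ⟨n, (hAc n ∅ v finite_empty).1 ?_⟩
      rwa [image_empty]
    · rintro ⟨n, hv⟩
      refine ⟨n, ?_⟩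
      have := (hAc n ∅ v finite_empty).2 hv
      rwa [image_empty] at this
  have hS : ∀ u v : ℕ, AcI (NX M θ) {Sum.inl u} (Sum.inl v) ↔ AcI M {u} v := by
    intro u v
    constructor
    · rintro ⟨n, hv⟩
      refine ⟨n, (hAc n {u} v (finite_singleton u)).1 ?_⟩
      rwa [image_singleton]
    · rintro ⟨n, hv⟩
      refine ⟨n, ?_⟩
      have := (hAc n {u} v (finite_singleton u)).2 hv
      rwa [image_singleton] at this
  have hQ : ∀ u v : ℕ, Eqv (NX M θ) (Sum.inl u) (Sum.inl v) ↔ Eqv M u v := fun u v =>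
    ⟨fun h n => (hOb n u v).1 (h n), fun h n => (hOb n u v).2 (h n)⟩
  refine ⟨fun i => ⟨fun h1 => (hx.1 i).1 ((hE _).1 h1), fun h1 => (hx.1 i).2 ?_⟩, ?_⟩
  · obtain ⟨m, h2, h3⟩ := h1
    refine ⟨m, fun y hy => (hQ _ _).1 (h2 _ ((hOb m _ _).2 hy)), ?_⟩
    refine (h3.preimage (Sum.inl_injective.injOn)).subset ?_
    rintro y ⟨hy1, hy2⟩
    exact ⟨(hOb m _ _).2 hy1, (hS _ _).2 hy2⟩
  · rintro i j hij ⟨c, hc1, hc2⟩
    by_cases hc : c ∈ range (Sum.inl : ℕ → XT M)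
    · obtain ⟨c', rfl⟩ := hc
      exact hx.2 i j hij ⟨c', (hS _ _).1 hc1, (hQ _ _).1 hc2⟩
    · obtain ⟨n, hc1⟩ := hc1
      refine hn n {x j} c (finite_singleton _) hc ?_
      rwa [image_singleton]

end Pool.Agent.H566X
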