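import Pool.Agent.H566X.Spec

set_option autoImplicit false

namespace Pool.Agent.H566X

open Set

open Pool.Agent.H566V (Aut Fam Blk Ind HInj swp swp_left swp_right swp_other swp_invol IsDec Dec)

section cel

variable {a : ℕ → ℕ} {M : RS a ℕ} {n : ℕ}

theorem cel_aut {s : Equiv.Perm ℕ} : Aut (lev n M) s ↔ IsoN n M M s := by
  constructor
  · intro h i hi t
    have hle : a i ≤ (Finset.range n).sup a := Finset.le_sup (Finset.mem_range.2 hi)
    have h1 := congrFun (h (fun k => if hk : k.1 < a i then t ⟨k.1, hk⟩ else 0)) ⟨i, hi⟩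
    unfold lev at h1
    have e1 : (fun k : Fin (a i) => (s ∘ fun k : Fin ((Finset.range n).sup a) =>
        if hk : k.1 < a i then t ⟨k.1, hk⟩ else 0) ⟨k.1, lt_of_lt_of_le k.2 hle⟩) = s ∘ t := by
      funext k
      simp [Function.comp, k.2]
    have e2 : (fun k : Fin (a i) => (fun k : Fin ((Finset.range n).sup a) =>
        if hk : k.1 < a i then t ⟨k.1, hk⟩ else 0) ⟨k.1, lt_of_lt_of_le k.2 hle⟩) = t := by
      funext k
      simp [k.2]
    have h2 : M i (fun k : Fin (a i) => (s ∘ fun k : Fin ((Finset.range n).sup a) =>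
        if hk : k.1 < a i then t ⟨k.1, hk⟩ else 0) ⟨k.1, lt_of_lt_of_le k.2 hle⟩) =
        M i (fun k : Fin (a i) => (fun k : Fin ((Finset.range n).sup a) =>
        if hk : k.1 < a i then t ⟨k.1, hk⟩ else 0) ⟨k.1, lt_of_lt_of_le k.2 hle⟩) := h1
    rw [e1, e2] at h2
    exact h2
  · intro h t
    funext i
    exact h i.1 i.2 _

/-- exchange as a permutation -/
private noncomputable def celE {X : Finset ℕ} {h : ℕ → ℕ → ℕ} (H : HInj X h) (i j : ℕ) :
    Equiv.Perm ℕ :=
  ⟨swp X h i j, swp X h i j, swp_invol H i j, swp_invol H i j⟩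

private theorem celE_gr {X : Finset ℕ} {h : ℕ → ℕ → ℕ} (H : Fam (lev n M) X h) (i j : ℕ) :
    Gr M n (celE H.inj i j) := by
  classical
  refine ⟨?_, cel_aut.1 (H.aut i j)⟩
  refine (((X.image (h i)) ∪ (X.image (h j))).finite_toSet).subset ?_
  intro x hx
  by_contra hcon
  apply hx
  simp only [Finset.coe_union, Finset.coe_image, mem_union, mem_image, Finset.mem_coe,
    not_or, not_exists, not_and] at hcon
  exact swp_other (fun b hb => hcon.1 b hb) (fun b hb => hcon.2 b hb)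

private theorem cel_map {B : Finset ℕ} (hB : Ind (lev n M) B) {σ : Equiv.Perm ℕ}
    (hσ : Gr M n σ) : Ind (lev n M) (B.map σ.toEmbedding) :=
  hB.map σ (cel_aut.2 hσ.2)

/-- being in an indecomposable block -/
private def CIn (M : RS a ℕ) (n : ℕ) (v : ℕ) : Prop := ∃ B, Ind (lev n M) B ∧ v ∈ B

private theorem cin_map {v : ℕ} {σ : Equiv.Perm ℕ} (hσ : Gr M n σ) (h : CIn M n v) :
    CIn M n (σ v) := by
  obtain ⟨B, hB, hv⟩ := h
  exact ⟨_, cel_map hB hσ, by simpa using hv⟩

private theorem cel_blk {X : Finset ℕ} {h : ℕ → ℕ → ℕ} (H : Fam (lev n M) X h) (i : ℕ) :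
    Blk (lev n M) (X.image (h i)) := by
  classical
  have h1 : Blk (lev n M) X := ⟨h, H⟩
  have h2 := h1.map (celE H.inj 0 i) (H.aut 0 i)
  have h3 : X.map (celE H.inj 0 i).toEmbedding = X.image (h i) := by
    rw [Finset.map_eq_image]
    apply Finset.image_congr
    intro b hb
    have := swp_left H.inj 0 i hb
    rwa [H.zero b hb] at this
  rwa [h3] at h2

private theorem cin_of {N₀ : Finset ℕ} {F : ℕ} {X : Fin F → Finset ℕ} {h : Fin F → ℕ → ℕ → ℕ}
    (hD : Dec (lev n M) N₀ F X h) {v : ℕ} (hv : v ∉ N₀) : CIn M n v := by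
  classical
  obtain ⟨f, i, b, hb, rfl⟩ := hD.cov v hv
  obtain ⟨Y, -, hY1, hY2⟩ := (cel_blk (hD.fam f) i).exists_ind (Finset.mem_image_of_mem _ hb)
  exact ⟨Y, hY2, hY1⟩

private theorem cout_finite (hdec : IsDec (lev n M)) : {v | ¬ CIn M n v}.Finite := by
  obtain ⟨N₀, F, X, h, hD⟩ := hdec
  refine (N₀.finite_toSet).subset ?_
  intro v hv
  by_contra hcon
  exact hv (cin_of hD hcon)

private theorem cel_a (hdec : IsDec (lev n M)) {v : ℕ} (hv : ¬ CIn M n v) (A : Set ℕ) :
    Ac M n A v := by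
  refine (cout_finite hdec).subset ?_
  rintro y ⟨σ, hσ, -, rfl⟩ hy
  apply hv
  obtain ⟨B, hB, hyB⟩ := hy
  refine ⟨_, cel_map hB (Gr.symm hσ), ?_⟩
  rw [Finset.mem_map_equiv]
  simpa using hyB

private theorem cel_b {B : Finset ℕ} (hB : Ind (lev n M) B) {v : ℕ} (hv : v ∈ B) {A : Set ℕ}
    (hA : A.Finite) (hAB : ∀ z ∈ A, z ∉ B) : ¬ Ac M n A v := by
  classical
  intro hac
  obtain ⟨g, hg⟩ := hB.2.1
  have h1 := hg.inj.fresh hA.toFinset
  rw [Filter.eventually_atTop] at h1
  obtain ⟨i₀, hi₀⟩ := h1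
  have hinj : Function.Injective (fun i : ℕ => g (i₀ + i) v) := by
    intro i j hij
    have := (hg.inj (i₀ + i) (i₀ + j) v hv v hv hij).1
    omega
  refine (Set.infinite_range_of_injective hinj) (hac.subset ?_)
  rintro _ ⟨i, rfl⟩
  refine ⟨celE hg.inj 0 (i₀ + i), celE_gr hg _ _, ?_, ?_⟩
  · intro z hz
    refine swp_other ?_ ?_
    · intro b hb hbz
      rw [hg.zero b hb] at hbz
      exact hAB z hz (hbz ▸ hb)
    · intro b hb hbz
      exact hi₀ (i₀ + i) (Nat.le_add_right _ _) b hb (by rw [hbz]; simpa using hz)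
  · have := swp_left hg.inj 0 (i₀ + i) hv
    rw [hg.zero v hv] at this
    exact this

private theorem cel_c {B : Finset ℕ} (hB : Ind (lev n M) B) {v z : ℕ} (hv : v ∈ B) {A : Set ℕ}
    (hz : z ∈ A) (hzB : z ∈ B) : Ac M n A v := by
  refine (B.finite_toSet).subset ?_
  rintro y ⟨σ, hσ, hσA, rfl⟩
  have h1 := cel_map hB hσ
  have h2 : z ∈ B.map σ.toEmbedding := by
    rw [Finset.mem_map_equiv, (Equiv.symm_apply_eq σ).2 (hσA z hz).symm]
    exact hzB
  have h3 := hB.eq_of_mem h1 hzB h2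
  show σ v ∈ (B : Set ℕ)
  rw [Finset.mem_coe, h3, Finset.mem_map_equiv]
  simpa using hv

private theorem cel_iff (hdec : IsDec (lev n M)) {A : Set ℕ} (hA : A.Finite) {x : ℕ} :
    Ac M n A x ↔ ¬ CIn M n x ∨ ∃ B, Ind (lev n M) B ∧ x ∈ B ∧ ∃ z ∈ A, z ∈ B := by
  constructor
  · intro h
    by_cases hx : CIn M n x
    · right
      obtain ⟨B, hB, hxB⟩ := hx
      refine ⟨B, hB, hxB, ?_⟩
      by_contra hcon
      push Not at hcon
      exact cel_b hB hxB hA hcon h
    · exact Or.inl hx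
  · rintro (h | ⟨B, hB, hxB, z, hz, hzB⟩)
    · exact cel_a hdec h A
    · exact cel_c hB hxB hz hzB

private theorem cel_empty (hdec : IsDec (lev n M)) {x : ℕ} : Ac M n ∅ x ↔ ¬ CIn M n x := by
  rw [cel_iff hdec Set.finite_empty]
  simp

private theorem cel_bl (hdec : IsDec (lev n M)) {B : Finset ℕ} (hB : Ind (lev n M) B) {x : ℕ}
    (hx : x ∈ B) {y : ℕ} : Bl M n x y ↔ y ∈ B := by
  constructor
  · rintro ⟨h1, h2⟩
    rw [cel_empty hdec, not_not] at h2
    rcases (cel_iff hdec (Set.finite_singleton x)).1 h1 with h3 | ⟨B', hB', hyB', z, hz, hzB'⟩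
    · exact absurd h2 h3
    · rw [Set.mem_singleton_iff] at hz
      subst hz
      rw [hB.eq_of_mem hB' hx hzB']
      exact hyB'
  · intro hy
    refine ⟨cel_c hB hy (Set.mem_singleton x) hx, ?_⟩
    rw [cel_empty hdec, not_not]
    exact ⟨B, hB, hy⟩

end cel

theorem t_CEL : S_CEL := by
  classical
  intro a M n hdec
  constructor
  · -- fin
    intro A hA
    have h1 : {x | Ac M n A x} ⊆ {v | ¬ CIn M n v} ∪
        ⋃ z ∈ A, {x | ∃ B, Ind (lev n M) B ∧ z ∈ B ∧ x ∈ B} := by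
      intro x hx
      rcases (cel_iff hdec hA).1 hx with h | ⟨B, hB, hxB, z, hz, hzB⟩
      · exact Or.inl h
      · exact Or.inr (mem_biUnion hz ⟨B, hB, hzB, hxB⟩)
    refine ((cout_finite hdec).union (hA.biUnion fun z _ => ?_)).subset h1
    by_cases hz : ∃ B, Ind (lev n M) B ∧ z ∈ B
    · obtain ⟨B, hB, hzB⟩ := hz
      refine (B.finite_toSet).subset ?_
      rintro x ⟨B', hB', hzB', hxB'⟩
      rw [Finset.mem_coe, hB.eq_of_mem hB' hzB hzB']
      exact hxB'
    · have : {x | ∃ B, Ind (lev n M) B ∧ z ∈ B ∧ x ∈ B} = ∅ := by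
        rw [Set.eq_empty_iff_forall_notMem]
        rintro x ⟨B, hB, hzB, -⟩
        exact hz ⟨B, hB, hzB⟩
      rw [this]
      exact Set.finite_empty
  · -- orb
    obtain ⟨N₀, F, X, h, hD⟩ := hdec
    refine ⟨(N₀ ∪ Finset.univ.biUnion X : Finset ℕ), Finset.finite_toSet _, fun x => ?_⟩
    by_cases hx : x ∈ N₀
    · exact ⟨x, by simp [hx], Ob.refl x⟩
    · obtain ⟨f, i, b, hb, rfl⟩ := hD.cov x hx
      refine ⟨b, ?_, celE (hD.fam f).inj 0 i, celE_gr (hD.fam f) 0 i, ?_⟩
      · rw [Finset.mem_coe, Finset.mem_union]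
        right
        rw [Finset.mem_biUnion]
        exact ⟨f, Finset.mem_univ f, hb⟩
      · have := swp_right (hD.fam f).inj 0 i hb
        rw [(hD.fam f).zero b hb] at this
        exact this
  · -- uni
    intro A x hA h
    rcases (cel_iff hdec hA).1 h with h | ⟨B, hB, hxB, z, hz, hzB⟩
    · exact Or.inl (cel_a hdec h ∅)
    · exact Or.inr ⟨z, hz, cel_c hB hxB (Set.mem_singleton z) hzB⟩
  · -- exc
    intro x z h h0
    rw [cel_empty hdec, not_not] at h0
    rcases (cel_iff hdec (Set.finite_singleton z)).1 h with h | ⟨B, hB, hxB, z', hz', hzB⟩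
    · exact absurd h0 h
    · rw [Set.mem_singleton_iff] at hz'
      subst hz'
      exact cel_c hB hzB (Set.mem_singleton x) hxB
  · -- far
    intro A x hA h0
    rw [cel_empty hdec, not_not] at h0
    obtain ⟨B, hB, hxB⟩ := h0
    obtain ⟨g, hg⟩ := hB.2.1
    obtain ⟨i, hi⟩ := (hg.inj.fresh (hA.toFinset ∪ B)).exists
    refine ⟨celE hg.inj 0 i, celE_gr hg 0 i, swp_invol hg.inj 0 i, ?_, ?_⟩
    · intro y hy
      rw [cel_bl hdec hB hxB] at hy
      have h1 : celE hg.inj 0 i y = g i y := by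
        have := swp_left hg.inj 0 i hy
        rw [hg.zero y hy] at this
        exact this
      have h2 := hi y hy
      rw [Finset.mem_union, not_or] at h2
      rw [h1, cel_bl hdec hB hxB]
      exact ⟨fun h3 => h2.1 (by simpa using h3), h2.2⟩
    · intro y hy hsy
      rw [cel_bl hdec hB hxB] at hy hsy
      refine swp_other ?_ ?_
      · intro b hb hby
        rw [hg.zero b hb] at hby
        exact hy (hby ▸ hb)
      · intro b hb hby
        apply hsy
        have := swp_right hg.inj 0 i hb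
        rw [hg.zero b hb, hby] at this
        show swp B g 0 i y ∈ B
        rw [this]
        exact hb

end Pool.Agent.H566X
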