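import Pool.Agent.H566X.Spec
import Pool.Agent.H899R2.VP.Dst

set_option autoImplicit false

namespace Pool.Agent.H566X

open Set

theorem clo_meas {a : ℕ → ℕ} (C : Set (RS a ℕ)) (hC : IsClosed C) :
    MeasurableSet {s : Pool.Agent.H899R2.VP.St a | s.1 = (fun _ _ => false) ∧ s.2 ∈ C} := by
  have h1 : MeasurableSet {s : Pool.Agent.H899R2.VP.St a | s.1 = (fun _ _ => false)} :=
    measurable_fst (measurableSet_singleton _)
  have h2 : MeasurableSet {s : Pool.Agent.H899R2.VP.St a | s.2 ∈ C} :=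
    measurable_snd hC.measurableSet
  exact h1.inter h2

theorem clo_isoOn {a : ℕ → ℕ} {s t : Pool.Agent.H899R2.VP.St a}
    (hs : s.1 = (fun _ _ => false)) (ht : t.1 = (fun _ _ => false)) (e : ℕ ≃ ℕ)
    (h : Iso s.2 t.2 e) : Pool.Agent.H899R2.VP.IsoOn s t univ univ ∅ := by
  refine ⟨{u | e u.1 = u.2}, empty_subset _, fun u _ => ⟨mem_univ _, mem_univ _⟩, ⟨?_, ?_, ?_⟩,
    ?_, ?_⟩
  · intro u hu v hv
    have hu' : e u.1 = u.2 := hu
    have hv' : e v.1 = v.2 := hv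
    rw [← hu', ← hv']
    exact e.injective.eq_iff.symm
  · intro u _ v _
    rw [hs, ht]
  · intro i w hw
    have h2 : (fun k => (w k).2) = e ∘ (fun k => (w k).1) := by
      funext k
      exact (hw k).symm
    rw [h2]
    exact (h i (fun k => (w k).1)).symm
  · intro x _
    exact ⟨e x, rfl⟩
  · intro y _
    exact ⟨e.symm y, e.apply_symm_apply y⟩

theorem clo_ord : (Ordinal.omega0 * 3 : Ordinal.{0}) < Ordinal.omega 1 := by
  rw [← Cardinal.ord_aleph, Cardinal.lt_ord, ← Cardinal.succ_aleph0, Order.lt_succ_iff,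
    Ordinal.card_mul]
  have h3 : (3 : Ordinal.{0}).card = 3 := Ordinal.card_ofNat 3
  rw [Ordinal.card_omega0, h3]
  exact (Cardinal.mul_le_max_of_aleph0_le_left le_rfl).trans
    (max_le le_rfl (by exact_mod_cast (Cardinal.natCast_lt_aleph0 (n := 3)).le))

theorem t_CLO (h1 : S_T1) (h2 : S_CEL) (h3 : S_DIC) (h4 : S_EXT) (h5 : S_DEL) (h6 : S_BFW)
    (h7 : S_THB) : S_CLO := by
  intro a C hC hI hF
  have hAC : ∀ M ∈ C, AC M := fun M hM n => h2 a M n (h1 a C hC hI hF M hM n)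
  have hN : ∀ M ∈ C, ∃ u : Set ℕ, u.Finite ∧ Nice M u := by
    intro M hM
    rcases h3 a ℕ M (hAC M hM) with h | ⟨x, hx⟩
    · exact h
    · obtain ⟨N, hN, hz, hy⟩ := h4 a C hC hI hAC M hM x hx
      exact absurd hF (h5 a C hC hI N hN (hAC N hN) hz hy)
  obtain ⟨c, hc⟩ := Pool.Agent.H899R2.VP.labels (clo_meas C hC) (by
    rintro ⟨g, hg, hgK, hgi⟩
    refine hF ⟨fun A => (g A).2, continuous_snd.comp hg, fun A => (hgK A).2, ?_⟩
    rintro A B ⟨e, he⟩
    exact hgi A B (clo_isoOn (hgK A).1 (hgK B).1 e he)) (Ordinal.omega0 * 3) clo_ord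
  classical
  let f : ℕ → RS a ℕ := fun n =>
    if h : ∃ M ∈ C, c (stOf M) [] = n then h.choose else fun _ _ => false
  refine ⟨range f, countable_range f, ?_⟩
  intro M hM
  have hex : ∃ M' ∈ C, c (stOf M') [] = c (stOf M) [] := ⟨M, hM, rfl⟩
  refine ⟨f (c (stOf M) []), ⟨_, rfl⟩, ?_⟩
  have hf : f (c (stOf M) []) = hex.choose := by
    simp only [f]
    rw [dif_pos hex]
  rw [hf]
  obtain ⟨hNC, hlab⟩ := hex.choose_spec
  obtain ⟨u, hu, hnice⟩ := hN M hM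
  have hbf := hc (stOf M) ⟨rfl, hM⟩ (stOf hex.choose) ⟨rfl, hNC⟩ [] [] rfl hlab.symm
  rw [Pool.Agent.H899R2.VP.zipSet_nil_left] at hbf
  obtain ⟨p, hp, hpu, hWH⟩ := h6 a M hex.choose (hAC M hM) (hAC _ hNC) hbf u hu
  exact h7 a M hex.choose (hAC M hM) (hAC _ hNC) p hp hWH (by rw [hpu]; exact hnice)

end Pool.Agent.H566X
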