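import Pool.Agent.H566X.Spec

set_option autoImplicit false

namespace Pool.Agent.H566X

open Set

theorem t_D1 : S_D1 := by
  classical
  intro a V N hN x hx ht m
  by_contra hcon
  rw [not_or, not_or] at hcon
  obtain ⟨h1, h2, h3⟩ := hcon
  rw [Set.not_infinite] at h1
  have h3' : ∀ w, Ob N m x w → {c | AcI N {w} c ∧ Ob N m x c}.Finite := by
    intro w hw
    by_contra hinf
    exact h3 ⟨w, hw, hinf⟩
  -- (b)
  have hb : ∃ L : Finset V, (∀ w ∈ L, Ob N m x w ∧ ¬ AcI N ∅ w) ∧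
      ∀ y, Ob N m x y → ¬ AcI N ∅ y → ∃ w ∈ L, Tri N y w := by
    by_contra hno
    push Not at hno
    obtain ⟨f, hf1, hf2⟩ := exists_seq_of_forall_finset_exists
      (fun w => Ob N m x w ∧ ¬ AcI N ∅ w) (fun w y => ¬ Tri N y w)
      (by
        intro s hs
        obtain ⟨y, hy1, hy2, hy3⟩ := hno s hs
        exact ⟨y, ⟨hy1, hy2⟩, hy3⟩)
    apply h2
    refine ⟨f, fun j => (hf1 j).1, ?_⟩
    intro j j' hjj htri
    rcases lt_or_gt_of_ne hjj with hlt | hgt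
    · exact hf2 j j' hlt (tri_symm hN (hf1 j).2 htri)
    · exact hf2 j' j hgt htri
  obtain ⟨L, hL1, hL2⟩ := hb
  -- (c)
  let T : Set V := ⋃ w ∈ L, {c | AcI N {w} c ∧ Ob N m x c}
  have hT : T.Finite := by
    apply Set.Finite.biUnion (Finset.finite_toSet L)
    intro w hw
    exact h3' w (hL1 w hw).1
  have hc : ∀ y, Ob N m x y → ¬ AcI N ∅ y → ∃ w ∈ L, ∃ c, AcI N {w} c ∧ Ob N m x c ∧
      Eqv N c y := by
    intro y hy1 hy2
    obtain ⟨w, hw, c, hc1, hc2⟩ := hL2 y hy1 hy2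
    exact ⟨w, hw, c, hc1, hy1.trans (hc2 m).symm, hc2⟩
  -- (d)
  have hfin : (T ∪ {y | Ob N m x y ∧ AcI N ∅ y}).Finite := hT.union h1
  have hd : ∀ c : V, ∃ k, ¬ Eqv N x c → ¬ Ob N k x c := by
    intro c
    by_cases h : Eqv N x c
    · exact ⟨0, fun h' => absurd h h'⟩
    · have h' : ∃ k, ¬ Ob N k x c := by
        by_contra hh
        push Not at hh
        exact h hh
      obtain ⟨k, hk⟩ := h'
      exact ⟨k, fun _ => hk⟩
  choose k hk using hd
  obtain ⟨m', hmm', hm'⟩ : ∃ m', m ≤ m' ∧ ∀ c ∈ T ∪ {y | Ob N m x y ∧ AcI N ∅ y}, k c ≤ m' := by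
    refine ⟨max m (hfin.toFinset.sup k), le_max_left _ _, ?_⟩
    intro c hc
    exact le_trans (Finset.le_sup (f := k) (hfin.mem_toFinset.2 hc)) (le_max_right _ _)
  have hE : ∀ y, Ob N m' x y → Eqv N x y := by
    intro y hy
    have hym : Ob N m x y := hy.mono hmm'
    by_cases hya : AcI N ∅ y
    · by_contra hne
      have hmem : y ∈ T ∪ {y | Ob N m x y ∧ AcI N ∅ y} := Or.inr ⟨hym, hya⟩
      exact hk y hne (hy.mono (hm' y hmem))
    · obtain ⟨w, hw, c, hc1, hc2, hc3⟩ := hc y hym hya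
      have hmem : c ∈ T ∪ {y | Ob N m x y ∧ AcI N ∅ y} := by
        left
        simp only [T, Set.mem_iUnion]
        exact ⟨w, hw, hc1, hc2⟩
      have hxc : Eqv N x c := by
        by_contra hne
        exact hk c hne ((hy.trans (hc3 m').symm).mono (hm' c hmem))
      exact hxc.trans hc3
  -- (e)
  apply ht
  refine ⟨m', hE, ?_⟩
  by_contra hinf
  have hinf' : {c | AcI N {x} c ∧ Ob N m' x c}.Infinite := by
    intro hf
    apply hinf
    apply hf.subset
    rintro c ⟨hc1, hc2⟩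
    exact ⟨hc2, hc1⟩
  obtain ⟨w, hw, c0, hc1, hc2, hc3⟩ := hc x (Ob.refl x) hx
  have h5 := inf_transfer hN hc3.symm hinf'
  apply h5
  apply (h3' w (hL1 w hw).1).subset
  rintro c ⟨hc4, hc5⟩
  exact ⟨hc1.trans hc4, hc5.mono hmm'⟩

end Pool.Agent.H566X
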