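import Pool.Agent.H566X.Spec

/-! D2: orbits of deleted elements contain infinitely many kept elements. -/

set_option autoImplicit false

namespace Pool.Agent.H566X

open Set

theorem d2_unfold {a : ℕ → ℕ} {N : RS a ℕ} {x : ℕ → ℕ} {y : ℕ → ℕ → ℕ} {A : ℕ → Bool} {w : ℕ}
    (hw : w ∉ Keep N x y A) : ¬ AcI N ∅ w ∧ ∃ i, A i = true ∧ Tri N w (x i) := by
  have h1 : ¬ AcI N ∅ w := fun hh => hw (Or.inl hh)
  refine ⟨h1, ?_⟩
  by_contra hcon
  exact hw (Or.inr (fun i hi ht => absurd ⟨i, hi, ht⟩ hcon))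

/-- every deleted element has a mate that is kept -/
theorem d2_mate {a : ℕ → ℕ} {N : RS a ℕ} {x : ℕ → ℕ} {y : ℕ → ℕ → ℕ} (h : DD N x y)
    {A : ℕ → Bool} {w : ℕ} (hw : w ∉ Keep N x y A) :
    ∃ w', Eqv N w w' ∧ w' ∈ Keep N x y A := by
  obtain ⟨hw0, i, _, c, hc, hcw⟩ := d2_unfold hw
  obtain ⟨c', hc', hE⟩ := bt h.ac hc (h.mate i 0)
  have hwc : Eqv N w c' := hcw.symm.trans hE.right
  have hc'0 : ¬ AcI N ∅ c' := fun hh => hw0 (hwc.aci_empty.2 hh)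
  refine ⟨c', hwc, Or.inr ?_⟩
  intro i2 _ ht
  have h1 : Tri N (x i) c' := ⟨y i 0, aci_exc h.ac hc' hc'0, (h.mate i 0).symm⟩
  have h2 : Tri N (x i) (x i2) := tri_trans h.ac h1 ht
  have h4 : i = i2 := by
    by_contra hne
    exact h.bad.2 i i2 hne h2
  subst h4
  exact ⟨0, Nat.zero_le _, hc'⟩

/-- every orbit of a bad element contains infinitely many kept elements -/
theorem d2_rich {a : ℕ → ℕ} {N : RS a ℕ} {x : ℕ → ℕ} {y : ℕ → ℕ → ℕ} (h : DD N x y)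
    (h1 : S_D1) (h3 : S_D3) (A : ℕ → Bool) (i m : ℕ) :
    {y' | Ob N m (x i) y' ∧ y' ∈ Keep N x y A}.Infinite := by
  have hk : ∀ w, ∃ w', Eqv N w w' ∧ w' ∈ Keep N x y A := by
    intro w
    by_cases hw : w ∈ Keep N x y A
    · exact ⟨w, Eqv.refl w, hw⟩
    · exact d2_mate h hw
  rcases h1 a ℕ N h.ac (x i) (h.bad.1 i).1 (h.bad.1 i).2 m with h0 | ⟨w, hw, hne⟩ | ⟨w, hw, hinf⟩
  · exact h0.mono (fun y' hy => ⟨hy.1, Or.inl hy.2⟩)
  · choose w' hw' hkw using fun j => hk (w j)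
    have hinj : Function.Injective w' := by
      intro j j' hjj
      by_contra hne'
      apply hne j j' hne'
      have h5 : Eqv N (w' j) (w j') := by
        rw [hjj]
        exact (hw' j').symm
      exact tri_of_eqv ((hw' j).trans h5)
    refine (infinite_range_of_injective hinj).mono ?_
    rintro _ ⟨j, rfl⟩
    exact ⟨(hw j).trans (hw' j m), hkw j⟩
  · obtain ⟨w', hww, hkw⟩ := hk w
    exact (inf_transfer h.ac hww hinf).mono
      (fun c hc => ⟨hc.2, h3 a N x y h A w' c hkw hc.1⟩)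

theorem t_D2 (h1 : S_D1) (h3 : S_D3) : S_D2 := by
  intro a N x y h A n z hz
  obtain ⟨hz0, i, _, c, ⟨m0, hm0⟩, hcz⟩ := d2_unfold hz
  have hcm : Ac N (max n m0) {x i} c := hm0.mono (le_max_right _ _)
  have hc0 : ¬ AcI N ∅ c := fun hh => hz0 (hcz.aci_empty.1 hh)
  have hY := d2_rich h h1 h3 A i (max n m0)
  by_contra hfin
  rw [Set.not_infinite] at hfin
  apply hY
  refine (hfin.biUnion (fun z' _ =>
    (h.ac (max n m0)).fin {z'} (finite_singleton z'))).subset ?_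
  rintro y' ⟨⟨s, hs, hsy⟩, hyk⟩
  have hyc : Ac N (max n m0) {y'} (s c) := by
    rw [← hsy]
    exact (hs.ac_iff_singleton le_rfl).1 hcm
  have hcx : Ac N (max n m0) {c} (x i) :=
    (h.ac (max n m0)).exc c (x i) hcm (fun hh => hc0 ⟨_, hh⟩)
  have hcy : Ac N (max n m0) {s c} y' := by
    rw [← hsy]
    exact (hs.ac_iff_singleton le_rfl).1 hcx
  refine mem_iUnion₂.2 ⟨s c, ⟨?_, h3 a N x y h A y' (s c) hyk ⟨_, hyc⟩⟩, hcy⟩
  exact ((hcz n).symm).trans ⟨s, hs.mono (le_max_left _ _), rfl⟩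

end Pool.Agent.H566X
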