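import Pool.Agent.H566X.Spec

/-! Task D3 (helper409): closure of the kept set. -/

set_option autoImplicit false

namespace Pool.Agent.H566X

open Set

theorem t_D3 : S_D3 := by
  intro a N x y hD A z z' hz hzz'
  by_cases h0 : AcI N ∅ z'
  · exact Or.inl h0
  rcases hz with hz | hz
  · exact Or.inl (AcI.trans hz hzz')
  · right
    intro i hi htri
    have h1 : AcI N {z'} z := aci_exc hD.ac hzz' h0
    obtain ⟨l, hl, h2⟩ := hz i hi (tri_trans hD.ac (tri_of_aci h1) htri)
    exact ⟨l, hl, AcI.trans h2 hzz'⟩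

end Pool.Agent.H566X
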