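import Pool.Agent.H566X.Spec

/-! Task D4: the kept set is full. -/

set_option autoImplicit false

namespace Pool.Agent.H566X

open Set

theorem t_D4 (h1 : S_FU1) (h2 : S_SWP) (h3 : S_D2) (h4 : S_D3) : S_D4 := by
  intro a N x y hD A
  refine h1 a ℕ N (Keep N x y A) ?_
  intro n F hF z hz
  have hN : Cell N n := hD.ac n
  have hzI : ¬ AcI N ∅ z := fun h => hz (Or.inl h)
  have hzn : ¬ Ac N n ∅ z := fun h => hzI ⟨n, h⟩
  have hfin : {u | Ac N n (F ∪ {z}) u}.Finite := hN.fin _ (hF.union (Set.finite_singleton z))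
  obtain ⟨z', ⟨hob, hzK⟩, hzG⟩ := (h3 a N x y hD A n z hz).exists_notMem_finite hfin
  obtain ⟨s, hs, hsz⟩ := hob
  have hG : ¬ Ac N n (F ∪ {z}) z' := hzG
  -- the image block
  have himg : ∀ b, Bl N n z b → Bl N n z' (s b) := by
    intro b hb
    have := (hs.bl_iff (le_refl n)).1 hb
    rwa [hsz] at this
  have hdis : ∀ b, Bl N n z b → ¬ Bl N n z (s b) := by
    intro b hb hb'
    have e1 : Bl N n (s b) z' := (himg b hb).symm hN
    have e2 : Ac N n {z} z' := hb'.1.trans e1.1
    exact hG (e2.mono_set subset_union_right)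
  obtain ⟨w, hw, hww, hwb, hwn⟩ := h2 a ℕ N n hN z s hzn hs hdis
  have hzz : Bl N n z z := Bl.refl hzn
  -- if `w u` is in the block of `z` then `u` is in the block of `z'`
  have hback : ∀ u, Bl N n z (w u) → Bl N n z' u := by
    intro u hu
    have e1 := hwb (w u) hu
    rw [hww] at e1
    have e2 := himg (w u) hu
    rwa [← e1] at e2
  refine ⟨w, hw, ?_, ?_, ?_⟩
  · intro u huF huK
    refine hwn u ?_ ?_
    · intro hb
      have e1 : Bl N n u z := hb.symm hN
      exact hz (h4 a N x y hD A u z huK ⟨n, e1.1⟩)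
    · intro hb
      have e1 : Bl N n u z' := (hback u hb).symm hN
      exact hG (e1.1.mono_set (singleton_subset_iff.2 (Or.inl huF)))
  · rw [hwb z hzz, hsz]
    exact hzK
  · intro u hu
    by_cases hb : Bl N n z u
    · right
      rw [hwb u hb]
      exact h4 a N x y hD A z' (s u) hzK ⟨n, (himg u hb).1⟩
    · by_cases hb' : Bl N n z (w u)
      · exact absurd (h4 a N x y hD A z' u hzK ⟨n, (hback u hb').1⟩) hu
      · exact Or.inl (hwn u hb hb')

end Pool.Agent.H566X
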