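import Pool.Agent.H566X.Spec

set_option autoImplicit false

namespace Pool.Agent.H566X

open Set

section

variable {a : ℕ → ℕ} {N : RS a ℕ} {x : ℕ → ℕ} {y : ℕ → ℕ → ℕ} {A : ℕ → Bool}

private theorem d5_eqv (h1 : S_D4) (h2 : S_FUL) (hd : DD N x y) (u v : Keep N x y A) :
    Eqv (res N (Keep N x y A)) u v ↔ Eqv N u.1 v.1 := by
  have hf := (h2 a ℕ N (Keep N x y A) (h1 a N x y hd A)).1
  constructor
  · intro h n
    exact (hf n u v).1 (h n)
  · intro h n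
    exact (hf n u v).2 (h n)

private theorem d5_aci (h1 : S_D4) (h2 : S_FUL) (hd : DD N x y) (u v : Keep N x y A) :
    AcI (res N (Keep N x y A)) {u} v ↔ AcI N {u.1} v.1 := by
  have hf := (h2 a ℕ N (Keep N x y A) (h1 a N x y hd A)).2.1
  have key : ∀ n, Ac (res N (Keep N x y A)) n {u} v ↔ Ac N n {u.1} v.1 := by
    intro n
    have := hf n {u} v (Set.finite_singleton u)
    rwa [Set.image_singleton] at this
  constructor
  · rintro ⟨n, hn⟩
    exact ⟨n, (key n).1 hn⟩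
  · rintro ⟨n, hn⟩
    exact ⟨n, (key n).2 hn⟩

private theorem d5_aci0 (h1 : S_D4) (h2 : S_FUL) (hd : DD N x y) (v : Keep N x y A) :
    AcI (res N (Keep N x y A)) ∅ v ↔ AcI N ∅ v.1 := by
  have hf := (h2 a ℕ N (Keep N x y A) (h1 a N x y hd A)).2.1
  have key : ∀ n, Ac (res N (Keep N x y A)) n ∅ v ↔ Ac N n ∅ v.1 := by
    intro n
    have := hf n ∅ v Set.finite_empty
    rwa [Set.image_empty] at this
  constructor
  · rintro ⟨n, hn⟩
    exact ⟨n, (key n).1 hn⟩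
  · rintro ⟨n, hn⟩
    exact ⟨n, (key n).2 hn⟩

private theorem d5_mult (h1 : S_D4) (h2 : S_FUL) (hd : DD N x y) (z : Keep N x y A) (k : ℕ) :
    MultGe (res N (Keep N x y A)) z k ↔ ∃ f : Fin k → ℕ, (∀ j, f j ∈ Keep N x y A) ∧
      (∀ j, Eqv N z.1 (f j)) ∧ ∀ j j', j ≠ j' → ¬ AcI N {f j'} (f j) := by
  constructor
  · rintro ⟨f, hf1, hf2⟩
    refine ⟨fun j => (f j).1, fun j => (f j).2, fun j => (d5_eqv h1 h2 hd _ _).1 (hf1 j),
      fun j j' hj h => hf2 j j' hj ((d5_aci h1 h2 hd _ _).2 h)⟩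
  · rintro ⟨f, hf0, hf1, hf2⟩
    refine ⟨fun j => ⟨f j, hf0 j⟩, fun j => (d5_eqv h1 h2 hd _ _).2 (hf1 j),
      fun j j' hj h => hf2 j j' hj ((d5_aci h1 h2 hd _ _).1 h)⟩

private theorem d5_mono {V : Type} {M : RS a V} {z : V} {k k' : ℕ} (hk : k ≤ k')
    (h : MultGe M z k') : MultGe M z k := by
  obtain ⟨f, h1, h2⟩ := h
  exact ⟨fun j => f (Fin.castLE hk j), fun j => h1 _,
    fun j j' hj => h2 _ _ (fun he => hj (Fin.castLE_injective hk he))⟩

private theorem d5_na (hd : DD N x y) (i l : ℕ) : ¬ AcI N ∅ (y i l) := fun h =>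
  (hd.bad.1 i).1 ((hd.mate i l).aci_empty.2 h)

private theorem d5_keep (hd : DD N x y) {i l : ℕ} (hl : l ≤ i) : y i l ∈ Keep N x y A := by
  right
  intro i2 _ ht
  have h3 : Tri N (x i) (x i2) := tri_trans hd.ac (tri_of_eqv (hd.mate i l)) ht
  have h4 : i = i2 := by
    by_contra hne
    exact hd.bad.2 i i2 hne h3
  subst h4
  exact ⟨l, hl, aci_self (Set.mem_singleton _)⟩

private theorem d5_case1 (h1 : S_D4) (h2 : S_FUL) (h3 : S_D3) (hd : DD N x y)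
    (z : Keep N x y A) (hz : ¬ AcI N ∅ z.1) {i : ℕ} (hi : A i = true) (ht : Tri N z.1 (x i)) :
    MultGe (res N (Keep N x y A)) z (i + 1) ∧ ¬ MultGe (res N (Keep N x y A)) z (i + 2) := by
  constructor
  · rw [d5_mult h1 h2 hd]
    obtain ⟨l0, hl0, hc⟩ : ∃ l ≤ i, AcI N {y i l} z.1 := by
      rcases z.2 with h | h
      · exact absurd h hz
      · exact h i hi ht
    have key : ∀ l, ∃ w, AcI N {y i l} w ∧ Eqv N z.1 w := by
      intro l
      obtain ⟨w, hw1, hw2⟩ := bt hd.ac hc ((hd.mate i l0).symm.trans (hd.mate i l))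
      exact ⟨w, hw1, hw2.right⟩
    choose w hw1 hw2 using key
    have hwn : ∀ l, ¬ AcI N ∅ (w l) := fun l h => hz ((hw2 l).aci_empty.2 h)
    refine ⟨fun j => w j.1, fun j => h3 a N x y hd A (y i j.1) (w j.1)
      (d5_keep hd (Nat.lt_succ_iff.1 j.2)) (hw1 _), fun j => hw2 _, ?_⟩
    intro j j' hj hcon
    have e1 : AcI N {y i j'.1} (w j.1) := (hw1 j'.1).trans hcon
    have e2 : AcI N {w j.1} (y i j.1) := aci_exc hd.ac (hw1 j.1) (hwn _)
    have e3 : AcI N {y i j'.1} (y i j.1) := e1.trans e2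
    exact hd.indep i j.1 j'.1 (fun he => hj (Fin.ext he)) e3
  · rw [d5_mult h1 h2 hd]
    rintro ⟨f, hf0, hf1, hf2⟩
    have hfn : ∀ j, ¬ AcI N ∅ (f j) := fun j h => hz ((hf1 j).aci_empty.2 h)
    have key : ∀ j, ∃ l ≤ i, AcI N {y i l} (f j) := by
      intro j
      rcases hf0 j with h | h
      · exact absurd h (hfn j)
      · exact h i hi (tri_trans hd.ac (tri_of_eqv (hf1 j).symm) ht)
    choose l hl hl2 using key
    obtain ⟨j, j', hne, he⟩ := Fintype.exists_ne_map_eq_of_card_lt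
      (fun j : Fin (i + 2) => (⟨l j, Nat.lt_succ_of_le (hl j)⟩ : Fin (i + 1))) (by simp)
    have he' : l j = l j' := by simpa using he
    have e1 : AcI N {f j'} (y i (l j')) := aci_exc hd.ac (hl2 j') (hfn j')
    have e2 : AcI N {y i (l j')} (f j) := he' ▸ hl2 j
    exact hf2 j j' hne (e1.trans e2)

end

theorem t_D5 (h1 : S_D4) (h2 : S_FUL) (h3 : S_D3) : S_D5 := by
  intro a N x y hd A
  ext k
  constructor
  · rintro ⟨z, hz, hk1, hk2⟩
    have hz' : ¬ AcI N ∅ z.1 := fun h => hz ((d5_aci0 h1 h2 hd z).2 h)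
    by_cases hc : ∃ i, A i = true ∧ Tri N z.1 (x i)
    · obtain ⟨i, hi, ht⟩ := hc
      obtain ⟨m1, m2⟩ := d5_case1 h1 h2 h3 hd z hz' hi ht
      refine ⟨i, hi, ?_⟩
      have e1 : ¬ i + 2 ≤ k := fun h => m2 (d5_mono h hk1)
      have e2 : ¬ k + 1 ≤ i + 1 := fun h => hk2 (d5_mono h m1)
      omega
    · exfalso
      apply hk2
      rw [d5_mult h1 h2 hd]
      obtain ⟨f, hf1, _, hf3⟩ := inf_seq hd.ac (hd.inf z.1 hz')
      refine ⟨fun j => f j.1, fun j => Or.inr ?_, fun j => hf1 _,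
        fun j j' hj => hf3 _ _ (fun he => hj (Fin.ext he))⟩
      intro i hi ht
      exact absurd ⟨i, hi, tri_trans hd.ac (tri_of_eqv (hf1 j.1)) ht⟩ hc
  · rintro ⟨i, hi, rfl⟩
    have hk : y i 0 ∈ Keep N x y A := d5_keep hd (Nat.zero_le _)
    have hn : ¬ AcI N ∅ (y i 0) := d5_na hd i 0
    obtain ⟨m1, m2⟩ := d5_case1 h1 h2 h3 hd ⟨y i 0, hk⟩ hn hi (tri_of_eqv (hd.mate i 0).symm)
    exact ⟨⟨y i 0, hk⟩, fun h => hn ((d5_aci0 h1 h2 hd _).1 h), m1, m2⟩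

end Pool.Agent.H566X
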