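import Pool.Agent.H566X.Spec

set_option autoImplicit false

namespace Pool.Agent.H566X

open Set

theorem t_D6 : S_D6 := by
  intro a N x y hD
  have hM := hD.ac
  -- kinds of the mates
  have hEq : ∀ i l, Eqv N (x i) (y i l) := hD.mate
  have hx0 : ∀ i, ¬ AcI N ∅ (x i) := fun i => (hD.bad.1 i).1
  have huniq : ∀ z, ¬ AcI N ∅ z → ∀ i j, Tri N z (x i) → Tri N z (x j) → i = j := by
    intro z hz i j hi hj
    by_contra hne
    exact hD.bad.2 i j hne (tri_trans hM (tri_symm hM hz hi) hj)
  have hyx : ∀ i l, Tri N (y i l) (x i) := fun i l => tri_of_eqv (hEq i l).symm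
  have hy0 : ∀ i l, ¬ AcI N ∅ (y i l) := fun i l h => hx0 i ((hEq i l).aci_empty.2 h)
  refine ⟨fun A => ?_, fun z => ?_⟩
  · have hmem : ∀ i, y i 0 ∈ Keep N x y A := by
      intro i
      refine Or.inr fun j _ hj => ?_
      have hij : i = j := huniq (y i 0) (hy0 i 0) i j (hyx i 0) hj
      subst hij
      exact ⟨0, Nat.zero_le _, aci_self rfl⟩
    have hinj : Function.Injective fun i => y i 0 := by
      intro i j hij
      have hij' : y i 0 = y j 0 := hij
      have h2 : Tri N (y i 0) (x j) := by rw [hij']; exact hyx j 0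
      exact huniq (y i 0) (hy0 i 0) i j (hyx i 0) h2
    exact (infinite_range_of_injective hinj).mono (by rintro _ ⟨i, rfl⟩; exact hmem i)
  · by_cases hz : AcI N ∅ z
    · exact ⟨0, fun A B _ => ⟨fun _ => Or.inl hz, fun _ => Or.inl hz⟩⟩
    · by_cases hi : ∃ i, Tri N z (x i)
      · obtain ⟨i, hi⟩ := hi
        have key : ∀ A B : ℕ → Bool, A i = B i → z ∈ Keep N x y A → z ∈ Keep N x y B := by
          intro A B hAB h
          rcases h with h | h
          · exact absurd h hz
          · refine Or.inr fun j hj hj2 => ?_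
            have hij : i = j := huniq z hz i j hi hj2
            subst hij
            exact h i (hAB.trans hj) hj2
        exact ⟨i, fun A B hAB => ⟨key A B hAB, key B A hAB.symm⟩⟩
      · push Not at hi
        have key : ∀ A : ℕ → Bool, z ∈ Keep N x y A := fun A => Or.inr fun i _ h => absurd h (hi i)
        exact ⟨0, fun A B _ => ⟨fun _ => key B, fun _ => key A⟩⟩

end Pool.Agent.H566X
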