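import Pool.Agent.H566X.Spec
import Pool.Agent.H566W.Fam

/-! Task D7: a locally constant family of substructures which are pairwise non-isomorphic. -/

set_option autoImplicit false

namespace Pool.Agent.H566X

open Set Filter Topology

theorem t_D7 (h : S_LOC) : S_D7 := by
  classical
  intro a C hC hInv N hN D hinf hloc hiso hfew
  apply hfew
  have hloc' : ∀ (x : ℕ) (A : ℕ → Bool), ∃ L : ℕ, ∀ B : ℕ → Bool, (∀ i < L, B i = A i) →
      (x ∈ D B ↔ x ∈ D A) := by
    intro x A
    obtain ⟨i, hi⟩ := hloc x
    exact ⟨i + 1, fun B hB => hi B A (hB i (Nat.lt_succ_self i))⟩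
  let g : (ℕ → Bool) → RS a ℕ := fun A i t => N i (fun k => Nat.nth (· ∈ D A) (t k))
  have hnth : ∀ A i, Nat.nth (· ∈ D A) i ∈ D A := fun A i =>
    Nat.nth_mem_of_infinite (p := (· ∈ D A)) (hinf A) i
  have hninj : ∀ A, Function.Injective (Nat.nth (· ∈ D A)) := fun A =>
    Nat.nth_injective (p := (· ∈ D A)) (hinf A)
  let f : ∀ A, ℕ → D A := fun A i => ⟨Nat.nth (· ∈ D A) i, hnth A i⟩
  have hf : ∀ A, Function.Bijective (f A) := by
    intro A
    constructor
    · intro i j hij
      exact hninj A (congrArg Subtype.val hij)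
    · rintro ⟨x, hx⟩
      have h1 : x ∈ Set.range (Nat.nth (· ∈ D A)) := by
        rw [Nat.range_nth_of_infinite (p := (· ∈ D A)) (hinf A)]
        exact hx
      obtain ⟨i, hi⟩ := h1
      exact ⟨i, Subtype.ext hi⟩
  refine ⟨g, ?_, ?_, ?_⟩
  · refine continuous_pi fun i => continuous_pi fun t => ?_
    rw [continuous_iff_continuousAt]
    intro A
    choose L hL using fun j => Pool.Agent.H566W.nth_loc hloc' hinf A (t j)
    have hev : ∀ᶠ B in 𝓝 A, ∀ i ∈ Finset.range (Finset.univ.sup L), B i = A i := by
      rw [Filter.eventually_all_finset]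
      intro i _
      have hc : ContinuousAt (fun B : ℕ → Bool => B i) A := (continuous_apply i).continuousAt
      have : {A i} ∈ 𝓝 (A i) := by simp
      filter_upwards [hc this] with B hB
      simpa using hB
    have : (fun B => g B i t) =ᶠ[𝓝 A] fun _ => g A i t := by
      filter_upwards [hev] with B hB
      show N i _ = N i _
      congr 1
      funext j
      exact hL j B (fun k hk => hB k (Finset.mem_range.2 (lt_of_lt_of_le hk
        (Finset.le_sup (f := L) (Finset.mem_univ j)))))
    exact continuousAt_const.congr this.symm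
  · intro A
    obtain ⟨e, he⟩ := h a C hC hInv N hN ℕ (g A) (fun n F =>
      ⟨Nat.nth (· ∈ D A), (hninj A).injOn, fun i _ t _ => rfl⟩)
    exact hInv _ he (g A) ⟨e, fun i t => rfl⟩
  · rintro A B ⟨e, he⟩
    apply hiso A B
    let fA : ℕ ≃ D A := Equiv.ofBijective (f A) (hf A)
    let fB : ℕ ≃ D B := Equiv.ofBijective (f B) (hf B)
    refine ⟨(fA.symm.trans e).trans fB, fun i t => ?_⟩
    have h1 := he i (fun k => fA.symm (t k))
    have h2 : g A i (fun k => fA.symm (t k)) = res N (D A) i t := by
      show N i _ = N i _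
      congr 1
      funext k
      exact congrArg Subtype.val (fA.apply_symm_apply (t k))
    rw [← h2, ← h1]
    rfl

end Pool.Agent.H566X
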