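import Pool.Agent.H566X.Spec

/-! DEL (helper418): the deletion lemma, assembly. -/

set_option autoImplicit false

namespace Pool.Agent.H566X

open Set

theorem t_DEL (h5 : S_D5) (h6 : S_D6) (h7 : S_D7) : S_DEL := by
  intro a C hC hI N hN hAC hinf hbad
  obtain ⟨x, hx⟩ := hbad
  have h1 : ∀ i, InfM N (x i) := fun i => hinf _ (hx.1 i).1
  choose y hy1 hy2 hy3 using fun i => inf_seq hAC (h1 i)
  have hD : DD N x y := ⟨hAC, hinf, hx, hy1, fun i l l' hl => hy3 i l l' hl⟩
  refine h7 a C hC hI N hN (fun A => Keep N x y A) (h6 a N x y hD).1 (h6 a N x y hD).2 ?_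
  rintro A B ⟨e, he⟩
  have h8 := he.fms
  rw [h5 a N x y hD A, h5 a N x y hD B] at h8
  have key : ∀ A : ℕ → Bool, ∀ i, i + 1 ∈ {k | ∃ i, A i = true ∧ k = i + 1} ↔ A i = true := by
    intro A i
    constructor
    · rintro ⟨j, hj, hij⟩
      have : i = j := by omega
      rwa [this]
    · intro h
      exact ⟨i, h, rfl⟩
  funext i
  have h9 : A i = true ↔ B i = true := by
    rw [← key A i, ← key B i, h8]
  exact Bool.eq_iff_iff.2 h9

end Pool.Agent.H566X
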