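import Pool.Agent.H566X.Spec

/-! DIC: a structure is nice or bad. -/

set_option autoImplicit false

namespace Pool.Agent.H566X

open Set

theorem t_DIC : S_DIC := by
  classical
  intro a V M hM
  by_cases hB : ∀ s : Finset V, (∀ x ∈ s, ¬ AcI M ∅ x ∧ ¬ Tight M x) →
      ∃ y, (¬ AcI M ∅ y ∧ ¬ Tight M y) ∧ ∀ x ∈ s, ¬ Tri M y x
  · right
    obtain ⟨f, hf1, hf2⟩ := exists_seq_of_forall_finset_exists
      (fun x => ¬ AcI M ∅ x ∧ ¬ Tight M x) (fun x y => ¬ Tri M y x) hB
    refine ⟨f, hf1, fun i j hij => ?_⟩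
    rcases lt_or_gt_of_ne hij with h | h
    · exact fun ht => hf2 i j h (tri_symm hM (hf1 i).1 ht)
    · exact hf2 j i h
  · left
    push Not at hB
    obtain ⟨s, hs, hs'⟩ := hB
    have hA : ∀ w : V, ∃ A : Set V, A.Finite ∧ (¬ InfM M w → ∀ y, Eqv M w y → AcI M A y) := by
      intro w
      by_cases hw : InfM M w
      · exact ⟨∅, finite_empty, fun h => absurd hw h⟩
      · unfold InfM at hw
        push Not at hw
        obtain ⟨A, hA, hA'⟩ := hw
        exact ⟨A, hA, fun _ => hA'⟩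
    choose A hA1 hA2 using hA
    refine ⟨↑s ∪ ⋃ w ∈ s, A w, ?_, ?_⟩
    · refine s.finite_toSet.union ?_
      exact Set.Finite.biUnion s.finite_toSet (fun w _ => hA1 w)
    · intro x hx hxT
      have hx0 : ¬ AcI M ∅ x := fun h => hx h.of_empty
      obtain ⟨w, hws, hTri⟩ := hs' x ⟨hx0, hxT⟩
      refine ⟨w, Or.inl hws, ?_, hTri⟩
      by_contra hw
      obtain ⟨c, hc1, hc2⟩ := hTri
      have hc0 : ¬ AcI M ∅ c := fun h => hx0 (hc2.aci_empty.1 h)
      have h1 : AcI M {c} w := aci_exc hM hc1 hc0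
      obtain ⟨y, hy1, hy2⟩ := bt hM h1 hc2
      have hwy : Eqv M w y := hy2.right
      have hy3 : AcI M (A w) y := hA2 w hw y hwy
      have hy0 : ¬ AcI M ∅ y := fun h => (hs w hws).1 (hwy.aci_empty.2 h)
      have h2 : AcI M {y} x := aci_exc hM hy1 hy0
      have h3 : AcI M (A w) x := hy3.trans h2
      refine hx (h3.mono ?_)
      intro z hz
      right
      rw [mem_iUnion₂]
      exact ⟨w, hws, hz⟩

end Pool.Agent.H566X
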