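import Pool.Agent.H566V.Count

/-!
Vaught's conjecture for `F_σ` classes in arbitrary countable relational languages: definitions.

`RS a V`: structures with carrier `V` and a relation of arity `a i` for every `i : ℕ`.
Everything is expressed through the groups `Gr M n` of finitary (finite support) automorphisms of
the reduct of `M` to the first `n` symbols.
-/

set_option autoImplicit false

namespace Pool.Agent.H566X

open Set

variable {a : ℕ → ℕ} {V W : Type}

/-- structures with carrier `V` -/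
abbrev RS (a : ℕ → ℕ) (V : Type) : Type := (i : ℕ) → (Fin (a i) → V) → Bool

/-- `e` is an isomorphism -/
def Iso (M : RS a V) (N : RS a W) (e : V ≃ W) : Prop :=
  ∀ (i : ℕ) (t : Fin (a i) → V), N i (e ∘ t) = M i t

/-- `e` is an isomorphism of the reducts to the first `n` symbols -/
def IsoN (n : ℕ) (M : RS a V) (N : RS a W) (e : V ≃ W) : Prop :=
  ∀ i < n, ∀ t : Fin (a i) → V, N i (e ∘ t) = M i t

/-- finitary automorphisms of the `n`-reduct -/
def Gr (M : RS a V) (n : ℕ) (σ : Equiv.Perm V) : Prop :=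
  {x | σ x ≠ x}.Finite ∧ IsoN n M M σ

/-- same orbit under `Gr M n` -/
def Ob (M : RS a V) (n : ℕ) (x y : V) : Prop := ∃ σ : Equiv.Perm V, Gr M n σ ∧ σ x = y

/-- `x` is algebraic over `A` at level `n`: finite orbit under the elements of `Gr M n` fixing `A` -/
def Ac (M : RS a V) (n : ℕ) (A : Set V) (x : V) : Prop :=
  {y | ∃ σ : Equiv.Perm V, Gr M n σ ∧ (∀ z ∈ A, σ z = z) ∧ σ x = y}.Finite

/-- algebraic at some level -/
def AcI (M : RS a V) (A : Set V) (x : V) : Prop := ∃ n, Ac M n A x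

/-- `y` is in the block of `x` at level `n` -/
def Bl (M : RS a V) (n : ℕ) (x y : V) : Prop := Ac M n {x} y ∧ ¬ Ac M n ∅ y

/-- same orbit at all levels -/
def Eqv (M : RS a V) (x y : V) : Prop := ∀ n, Ob M n x y

/-- the pairs `(x, x')` and `(y, y')` are in the same orbit at all levels -/
def Eqv2 (M : RS a V) (x x' y y' : V) : Prop :=
  ∀ n, ∃ σ : Equiv.Perm V, Gr M n σ ∧ σ x = y ∧ σ x' = y'

/-- `x` is a mate of an element which is algebraic over `y` -/
def Tri (M : RS a V) (x y : V) : Prop := ∃ c, AcI M {y} c ∧ Eqv M c x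

/-- the `n`-reduct is cellular -/
structure Cell (M : RS a V) (n : ℕ) : Prop where
  fin : ∀ A : Set V, A.Finite → {x | Ac M n A x}.Finite
  orb : ∃ T : Set V, T.Finite ∧ ∀ x, ∃ y ∈ T, Ob M n x y
  uni : ∀ (A : Set V) (x : V), A.Finite → Ac M n A x → Ac M n ∅ x ∨ ∃ z ∈ A, Ac M n {z} x
  exc : ∀ x z : V, Ac M n {z} x → ¬ Ac M n ∅ x → Ac M n {x} z
  far : ∀ (A : Set V) (x : V), A.Finite → ¬ Ac M n ∅ x → ∃ s : Equiv.Perm V, Gr M n s ∧
    (∀ y, s (s y) = y) ∧ (∀ y, Bl M n x y → s y ∉ A ∧ ¬ Bl M n x (s y)) ∧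
    (∀ y, ¬ Bl M n x y → ¬ Bl M n x (s y) → s y = y)

/-- all reducts are cellular -/
def AC (M : RS a V) : Prop := ∀ n, Cell M n

/-- tight elements: at some level the orbit consists of mates, and only finitely many elements of
this orbit are algebraic over `x` -/
def Tight (M : RS a V) (x : V) : Prop :=
  ∃ m, (∀ y, Ob M m x y → Eqv M x y) ∧ {y | Ob M m x y ∧ AcI M {x} y}.Finite

/-- infinitely many independent mates -/
def InfM (M : RS a V) (x : V) : Prop := ∀ A : Set V, A.Finite → ∃ y, Eqv M x y ∧ ¬ AcI M A y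

/-- the finite set `u` controls the elements which are not tight -/
def Nice (M : RS a V) (u : Set V) : Prop :=
  ∀ x, ¬ AcI M u x → ¬ Tight M x → ∃ w ∈ u, InfM M w ∧ Tri M x w

/-- infinitely many kinds of non-tight elements -/
def Bad (M : RS a V) (x : ℕ → V) : Prop :=
  (∀ i, ¬ AcI M ∅ (x i) ∧ ¬ Tight M (x i)) ∧ ∀ i j, i ≠ j → ¬ Tri M (x i) (x j)

/-- the restriction to a set -/
def res (M : RS a V) (D : Set V) : RS a D := fun i t => M i (fun k => (t k).1)

/-- every finite set can be moved into `D` by a finitary automorphism of the `n`-reduct fixing the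
elements which are already in `D` -/
def Full (M : RS a V) (D : Set V) : Prop :=
  ∀ (n : ℕ) (F : Set V), F.Finite → ∃ τ : Equiv.Perm V, Gr M n τ ∧
    (∀ x ∈ F, x ∈ D → τ x = x) ∧ ∀ x ∈ F, τ x ∈ D

/-- at least `k` independent mates -/
def MultGe (M : RS a V) (x : V) (k : ℕ) : Prop :=
  ∃ f : Fin k → V, (∀ j, Eqv M x (f j)) ∧ ∀ j j', j ≠ j' → ¬ AcI M {f j'} (f j)

/-- the finite multiplicities -/
def FMS (M : RS a V) : Set ℕ := {k | ∃ x, ¬ AcI M ∅ x ∧ MultGe M x k ∧ ¬ MultGe M x (k + 1)}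

/-! ### Back-and-forth -/

/-- isomorphic at all levels by isomorphisms extending `p` -/
def W0 (M : RS a V) (N : RS a W) (p : Set (V × W)) : Prop :=
  ∀ n, ∃ e : V ≃ W, IsoN n M N e ∧ ∀ u ∈ p, e u.1 = u.2

/-- `k` further rounds -/
def Wk (M : RS a V) (N : RS a W) : ℕ → Set (V × W) → Prop
  | 0, p => W0 M N p
  | k + 1, p => W0 M N p ∧ (∀ x, ∃ y, Wk M N k (insert (x, y) p)) ∧
      (∀ y, ∃ x, Wk M N k (insert (x, y) p))

/-- all finite numbers of rounds -/
def WW (M : RS a V) (N : RS a W) (p : Set (V × W)) : Prop := ∀ k, Wk M N k p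

/-- one round followed by all finite numbers of rounds -/
def WH (M : RS a V) (N : RS a W) (p : Set (V × W)) : Prop :=
  WW M N p ∧ (∀ x, ∃ y, WW M N (insert (x, y) p)) ∧ (∀ y, ∃ x, WW M N (insert (x, y) p))

/-- partial isomorphisms of the `n`-reducts -/
def PI (n : ℕ) (M : RS a V) (N : RS a W) (p : Set (V × W)) : Prop :=
  (∀ u ∈ p, ∀ v ∈ p, (u.1 = v.1 ↔ u.2 = v.2)) ∧
  ∀ i < n, ∀ t : Fin (a i) → V × W, (∀ k, t k ∈ p) →
    M i (fun k => (t k).1) = N i (fun k => (t k).2)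

/-- finite back-and-forth for the `n`-reducts -/
def Bk (n : ℕ) (M : RS a V) (N : RS a W) : ℕ → Set (V × W) → Prop
  | 0, p => PI n M N p
  | k + 1, p => PI n M N p ∧ (∀ x, ∃ y, Bk n M N k (insert (x, y) p)) ∧
      (∀ y, ∃ x, Bk n M N k (insert (x, y) p))

/-! ### Classes -/

/-- no perfect family of pairwise non-isomorphic members -/
def Few (C : Set (RS a ℕ)) : Prop :=
  ¬ ∃ g : (ℕ → Bool) → RS a ℕ, Continuous g ∧ (∀ A, g A ∈ C) ∧
    ∀ A B, (∃ e : ℕ ≃ ℕ, Iso (g A) (g B) e) → A = B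

/-- closed under isomorphism -/
def Inv (C : Set (RS a ℕ)) : Prop :=
  ∀ M ∈ C, ∀ N : RS a ℕ, (∃ e : ℕ ≃ ℕ, Iso M N e) → N ∈ C

/-- countably many isomorphism types -/
def CT (C : Set (RS a ℕ)) : Prop :=
  ∃ D : Set (RS a ℕ), D.Countable ∧ ∀ M ∈ C, ∃ N ∈ D, ∃ e : ℕ ≃ ℕ, Iso M N e

/-- membership for structures with other carriers -/
def Mem (C : Set (RS a ℕ)) (N : RS a W) : Prop :=
  ∃ e : ℕ ≃ W, (fun i (t : Fin (a i) → ℕ) => N i (e ∘ t)) ∈ C

/-- the colouring of tuples given by the first `n` relations -/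
def lev (n : ℕ) (M : RS a V) :
    Pool.Agent.H566V.Str ((Finset.range n).sup a) (Fin n → Bool) V :=
  fun t i => M i (fun k => t ⟨k.1, lt_of_lt_of_le k.2 (Finset.le_sup (Finset.mem_range.2 i.2))⟩)

end Pool.Agent.H566X
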