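import Pool.Agent.H566X.Spec

/-! EXT (helper51): the extension, assembly. -/

set_option autoImplicit false

namespace Pool.Agent.H566X

open Set

theorem t_EXT (h0 : S_C0) (h2 : S_C2) (h7 : S_C7) (h8 : S_C8) : S_EXT := by
  intro a C hC hI hAC M hM x hx
  obtain ⟨θ, hθ⟩ := h0 a M (hAC M hM)
  obtain ⟨e, he⟩ := h2 a C hC hI M hM θ (hAC M hM) hθ
  have hiso : Iso (fun i (t : Fin (a i) → ℕ) => NX M θ i (e ∘ t)) (NX M θ) e := fun i t => rfl
  have hac : AC (NX M θ) := hiso.ac (hAC _ he)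
  refine ⟨_, he, ?_, ?_⟩
  · intro z hz
    have h3 : ¬ AcI (NX M θ) ∅ (e z) := fun h => hz (hiso.aci_empty.2 h)
    exact hiso.infM.2 (h7 a M θ (hAC M hM) hθ hac _ h3)
  · have hb := h8 a M θ (hAC M hM) hθ x hx
    have hiso' : Iso (NX M θ) (fun i (t : Fin (a i) → ℕ) => NX M θ i (e ∘ t)) e.symm := by
      intro i t
      show NX M θ i (e ∘ (e.symm ∘ t)) = NX M θ i t
      rw [← Function.comp_assoc, Equiv.self_comp_symm, Function.id_comp]
    exact ⟨_, hiso'.bad hb⟩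

end Pool.Agent.H566X
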