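import Pool.Agent.H566X.Spec
import Pool.Agent.H899R2.VP.Few

/-! Task FB: a continuous family of reducts of members, pairwise non-isomorphic, is impossible. -/

set_option autoImplicit false

namespace Pool.Agent.H566X

open Set Pool.Agent.H899R2.VP

variable {a : ℕ → ℕ}

private def fb_st (M : Pool.Agent.H566X.RS a ℕ) : St a := (fun _ _ => false, M)

private theorem fb_isoOn {M N : St a} (h1 : M.1 = fun _ _ => false) (h2 : N.1 = fun _ _ => false)
    (e : ℕ ≃ ℕ) (he : Iso (a := a) M.2 N.2 e) : IsoOn M N univ univ ∅ := by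
  refine ⟨{u | u.2 = e u.1}, empty_subset _, ?_, ⟨?_, ?_, ?_⟩, ?_, ?_⟩
  · intro u _; exact ⟨mem_univ _, mem_univ _⟩
  · rintro ⟨u, u'⟩ hu ⟨v, v'⟩ hv
    have hu : u' = e u := hu
    have hv : v' = e v := hv
    subst hu hv
    simp
  · intro u _ v _
    rw [h1, h2]
  · intro i t ht
    have : (fun k => (t k).2) = ⇑e ∘ (fun k => (t k).1) := funext fun k => ht k
    rw [this]
    exact (he i _).symm
  · intro x _; exact ⟨e x, rfl⟩
  · intro y _; exact ⟨e.symm y, by
      show y = e (e.symm y)
      simp⟩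

private theorem fb_perm {M N : St a} (h : IsoOn M N univ univ ∅) :
    ∃ e : ℕ ≃ ℕ, Iso (a := a) M.2 N.2 e := by
  obtain ⟨q, -, -, h3, h4, h5⟩ := h
  choose f hf using fun x => h4 x (mem_univ x)
  choose g hg using fun x => h5 x (mem_univ x)
  refine ⟨⟨f, g, fun x => ?_, fun y => ?_⟩, ?_⟩
  · exact h3.fst_eq (hg (f x)) (hf x) rfl
  · exact h3.snd_eq (hf (g y)) (hg y) rfl
  · intro i v
    exact (h3.2.2 i (fun k => (v k, f (v k))) (fun k => hf (v k))).symm

private theorem fb_red {n : ℕ} {M N M' N' : Pool.Agent.H566X.RS a ℕ}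
    (hM : ∀ i < n, ∀ t, M i t = M' i t) (hN : ∀ i < n, ∀ t, N i t = N' i t)
    (hM0 : ∀ i, n ≤ i → ∀ t, M' i t = false) (hN0 : ∀ i, n ≤ i → ∀ t, N' i t = false)
    {X Y : Set ℕ} (o : Ordinal.{0}) : ∀ p : Set (ℕ × ℕ),
    BF (fb_st M) (fb_st N) X Y o p → BF (fb_st M') (fb_st N') X Y o p := by
  induction o using WellFoundedLT.induction with
  | ind o ih =>
    intro p h
    rw [BF_iff] at h ⊢
    obtain ⟨⟨h1, h2, h3⟩, h4⟩ := h
    refine ⟨⟨h1, fun u _ v _ => rfl, ?_⟩, ?_⟩
    · intro i t ht
      have h5 := h3 i t ht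
      by_cases hi : i < n
      · have e1 := hM i hi (fun k => (t k).1)
        have e2 := hN i hi (fun k => (t k).2)
        show M' i _ = N' i _
        rw [← e1, ← e2]
        exact h5
      · show M' i _ = N' i _
        rw [hM0 i (not_lt.1 hi), hN0 i (not_lt.1 hi)]
    · intro o' ho'
      obtain ⟨h5, h6⟩ := h4 o' ho'
      refine ⟨fun x hx => ?_, fun y hy => ?_⟩
      · obtain ⟨y, hy, h7⟩ := h5 x hx
        exact ⟨y, hy, ih o' ho' _ h7⟩
      · obtain ⟨x, hx, h7⟩ := h6 y hy
        exact ⟨x, hx, ih o' ho' _ h7⟩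

theorem t_FB : S_FB := by
  classical
  intro a C' hC' few n g hgc hgM hg0 hiso
  -- the class of structures
  set K : Set (St a) := {s | s.1 = (fun _ _ => false) ∧ s.2 ∈ C'} with hK
  have hKm : MeasurableSet K := by
    have h1 : MeasurableSet {s : St a | s.1 = (fun _ _ => false)} :=
      measurable_fst (measurableSet_singleton (fun _ _ => false : ℕ → ℕ → Bool))
    have h2 : MeasurableSet {s : St a | s.2 ∈ C'} := measurable_snd hC'
    exact h1.inter h2
  have hfew : ¬ ∃ g : (ℕ → Bool) → St a, Continuous g ∧ (∀ c, g c ∈ K) ∧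
      ∀ c d, IsoOn (g c) (g d) univ univ ∅ → c = d := by
    rintro ⟨g, h1, h2, h3⟩
    refine few ⟨fun c => (g c).2, continuous_snd.comp h1, fun c => (h2 c).2, ?_⟩
    rintro A B ⟨e, he⟩
    exact h3 A B (fb_isoOn (h2 A).1 (h2 B).1 e he)
  choose Mm hMm1 hMm2 using hgM
  -- parametrisation of the pairs of branches which differ at `i`
  set C : ℕ × Bool → (ℕ → ℕ) → (ℕ → Bool) := fun κ z =>
    Function.update (fun j => z (2 * j) == 0) κ.1 κ.2 with hC
  set D : ℕ × Bool → (ℕ → ℕ) → (ℕ → Bool) := fun κ z =>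
    Function.update (fun j => z (2 * j + 1) == 0) κ.1 (!κ.2) with hD
  have hCc : ∀ κ, Continuous (C κ) := by
    intro κ
    refine Continuous.update ?_ κ.1 continuous_const
    exact continuous_pi fun j => (continuous_of_discreteTopology (f := fun n : ℕ => n == 0)).comp
      (continuous_apply (2 * j))
  have hDc : ∀ κ, Continuous (D κ) := by
    intro κ
    refine Continuous.update ?_ κ.1 continuous_const
    exact continuous_pi fun j => (continuous_of_discreteTopology (f := fun n : ℕ => n == 0)).comp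
      (continuous_apply (2 * j + 1))
  have hgs : Continuous fun c => fb_st (g c) := continuous_const.prodMk hgc
  have hb : ∀ κ : ℕ × Bool, ∃ β : Ordinal.{0}, β < Ordinal.omega 1 ∧
      ∀ z, ¬ BF (fb_st (g (C κ z))) (fb_st (g (D κ z))) univ univ β ∅ := by
    intro κ
    by_contra hcon
    push Not at hcon
    obtain ⟨z, hz⟩ := bounding (fun z => (fb_st (g (C κ z)), fb_st (g (D κ z))))
      ((hgs.comp (hCc κ)).prodMk (hgs.comp (hDc κ))) ∅ hcon
    have := congrFun (hiso _ _ (fb_perm hz)) κ.1
    simp only [hC, hD, Function.update_self] at this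
    cases hκ : κ.2 <;> simp [hκ] at this
  choose b hb1 hb2 using hb
  have hs : iSup b < Ordinal.omega 1 := Ordinal.iSup_lt_omega_one hb1
  obtain ⟨c, hc⟩ := labels hKm hfew (iSup b) hs
  have hinj : Function.Injective fun e : ℕ → Bool => c (fb_st (Mm e)) [] := by
    intro e e' hee
    by_contra hne
    obtain ⟨i, hi⟩ := Function.ne_iff.1 hne
    have hBF := hc (fb_st (Mm e)) ⟨rfl, hMm1 e⟩ (fb_st (Mm e')) ⟨rfl, hMm1 e'⟩ [] [] rfl hee
    have hBF1 : BF (fb_st (Mm e)) (fb_st (Mm e')) univ univ (iSup b) ∅ :=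
      hBF.subset (empty_subset _)
    have hBF2 : BF (fb_st (g e)) (fb_st (g e')) univ univ (iSup b) ∅ :=
      fb_red (hMm2 e) (hMm2 e') (hg0 e) (hg0 e') _ _ hBF1
    set z : ℕ → ℕ := fun j => if j % 2 = 0 then (if e (j / 2) = true then 0 else 1)
      else (if e' (j / 2) = true then 0 else 1) with hz
    have h1 : C (i, e i) z = e := by
      funext j
      by_cases hj : j = i
      · subst hj; simp [hC]
      · simp only [hC, Function.update_of_ne hj, hz]
        have e1 : 2 * j % 2 = 0 := by omega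
        have e2 : 2 * j / 2 = j := by omega
        rw [if_pos e1, e2]
        cases e j <;> simp
    have h2 : D (i, e i) z = e' := by
      funext j
      by_cases hj : j = i
      · subst hj
        simp only [hD, Function.update_self]
        cases h3 : e j <;> cases h4 : e' j <;> simp_all
      · simp only [hD, Function.update_of_ne hj, hz]
        have e1 : ¬ (2 * j + 1) % 2 = 0 := by omega
        have e2 : (2 * j + 1) / 2 = j := by omega
        rw [if_neg e1, e2]
        cases e' j <;> simp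
    refine hb2 (i, e i) z ?_
    rw [h1, h2]
    exact hBF2.mono (Ordinal.le_iSup b _)
  exact not_countable_cantor hinj.countable

end Pool.Agent.H566X
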