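import Pool.Agent.H566X.Spec

set_option autoImplicit false

namespace Pool.Agent.H566X

open Set Pool.Agent.H899R2.VP

theorem fewf_exists_equiv {a : ℕ → ℕ} {N N' : St a} {p : Set (ℕ × ℕ)}
    (h : IsoOn N N' univ univ p) :
    ∃ e : ℕ ≃ ℕ, (∀ u ∈ p, e u.1 = u.2) ∧ PIso N N' {u | u.2 = e u.1} := by
  obtain ⟨q, hpq, -, hq, h1, h2⟩ := h
  choose f hf using fun x => h1 x (mem_univ x)
  choose g hg using fun y => h2 y (mem_univ y)
  refine ⟨⟨f, g, fun x => ?_, fun y => ?_⟩, fun u hu => ?_, ?_⟩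
  · exact (hq.1 _ (hg (f x)) _ (hf x)).2 rfl
  · exact (hq.1 _ (hf (g y)) _ (hg y)).1 rfl
  · exact (hq.1 _ (hf u.1) _ (hpq hu)).1 rfl
  · have hsub : {u : ℕ × ℕ | u.2 = f u.1} ⊆ q := by
      rintro ⟨u, v⟩ (rfl : v = f u)
      exact hf u
    exact ⟨fun u hu v hv => hq.1 u (hsub hu) v (hsub hv),
      fun u hu v hv => hq.2.1 u (hsub hu) v (hsub hv),
      fun i t ht => hq.2.2 i t fun k => hsub (ht k)⟩

theorem fewf_iso {a : ℕ → ℕ} {M N : RS a ℕ} {e : ℕ ≃ ℕ}
    (h : PIso (stOf M) (stOf N) {u | u.2 = e u.1}) : Iso M N e := by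
  intro i t
  have := h.2.2 i (fun k => (t k, e (t k))) (fun k => rfl)
  exact this.symm

theorem fewf_cont {a : ℕ → ℕ} : Continuous (stOf (a := a)) := by
  unfold stOf
  exact continuous_const.prodMk continuous_id

theorem t_FEWF : S_FEWF := by
  intro a B hB few m g hgc hg h
  set K : Set (St a) := {s | s.1 = (fun _ _ => false) ∧ s.2 ∈ B} with hK
  have hKm : MeasurableSet K := by
    have h1 : MeasurableSet {s : St a | s.1 = (fun _ _ => false)} :=
      measurable_fst (measurableSet_singleton _)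
    have h2 : MeasurableSet {s : St a | s.2 ∈ B} := measurable_snd hB
    exact h1.inter h2
  refine few_base (K := K) hKm ?_ (F := {i | i < m}) (Set.finite_lt_nat m) (fun c => stOf (g c))
    (fewf_cont.comp hgc) (fun c => ⟨rfl, hg c⟩) ?_
  · rintro ⟨f, hfc, hf, hff⟩
    refine few ⟨fun c => (f c).2, continuous_snd.comp hfc, fun c => (hf c).2, ?_⟩
    rintro c d ⟨e, he⟩
    refine hff c d ⟨{u | u.2 = e u.1}, by simp, by simp, ⟨?_, ?_, ?_⟩, ?_, ?_⟩
    · rintro ⟨u, u'⟩ (rfl : u' = e u) ⟨v, v'⟩ (rfl : v' = e v)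
      simp
    · rintro u - v -
      rw [(hf c).1, (hf d).1]
    · intro i t ht
      have ht' : (fun k => (t k).2) = e ∘ fun k => (t k).1 := by
        funext k
        exact ht k
      rw [ht']
      exact (he i _).symm
    · intro x _
      exact ⟨e x, rfl⟩
    · intro y _
      exact ⟨e.symm y, by simp⟩
  · intro c d hcd
    obtain ⟨e, he1, he2⟩ := fewf_exists_equiv hcd
    refine h c d ⟨e, fewf_iso he2, fun i hi => ?_⟩
    exact he1 (i, i) ⟨rfl, hi⟩

end Pool.Agent.H566X
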