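import Pool.Agent.H566X.Spec2
import Pool.Agent.H623R2.VE.PerfSet

set_option autoImplicit false

namespace Pool.Agent.H566X

open Set

/-- The strong Vaught dichotomy for `F_σ` classes, arbitrary countable relational languages. -/
theorem t_FIN (h : S_FSI) :
    ∀ (a : ℕ → ℕ) (B : Set (∀ n : ℕ, (Fin (a n) → ℕ) → Bool)),
      (∃ F : ℕ → Set (∀ n : ℕ, (Fin (a n) → ℕ) → Bool), (∀ k, IsClosed (F k)) ∧ B = ⋃ k, F k) →
      (∀ x y : (∀ n : ℕ, (Fin (a n) → ℕ) → Bool),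
        (∃ σ : Equiv.Perm ℕ, ∀ (n : ℕ) (t : Fin (a n) → ℕ),
          y n (fun i => σ (t i)) = x n t) → x ∈ B → y ∈ B) →
      (∃ C : Set (∀ n : ℕ, (Fin (a n) → ℕ) → Bool), C.Countable ∧
        ∀ x ∈ B, ∃ c ∈ C, ∃ σ : Equiv.Perm ℕ, ∀ (n : ℕ) (t : Fin (a n) → ℕ),
          c n (fun i => σ (t i)) = x n t) ∨
      (∃ P : Set (∀ n : ℕ, (Fin (a n) → ℕ) → Bool), P.Nonempty ∧ Perfect P ∧ P ⊆ B ∧
        ∀ x ∈ P, ∀ y ∈ P,
          (∃ σ : Equiv.Perm ℕ, ∀ (n : ℕ) (t : Fin (a n) → ℕ),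
            y n (fun i => σ (t i)) = x n t) → x = y) := by
  rintro a B ⟨F, hF, hBF⟩ hB
  by_cases hfew : Few B
  · left
    exact h a B F hF hBF (fun M hM N ⟨e, he⟩ => hB M N ⟨e, he⟩ hM) hfew
  · right
    unfold Few at hfew
    push Not at hfew
    obtain ⟨g, hg0, hg1, hg2⟩ := hfew
    have hinj : Function.Injective g := fun A A' hA => hg2 A A' ⟨Equiv.refl ℕ, fun i t => by
      rw [hA]; rfl⟩
    obtain ⟨h3, h4⟩ := Pool.Agent.H623R2.VE.perfect_range g hg0 hinj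
    refine ⟨range g, h3, h4, ?_, ?_⟩
    · rintro _ ⟨A, rfl⟩
      exact hg1 A
    · rintro _ ⟨A, rfl⟩ _ ⟨A', rfl⟩ ⟨e, he⟩
      rw [hg2 A A' ⟨e, he⟩]

end Pool.Agent.H566X
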