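import Pool.Agent.H566X.Spec

/-! Task FRE: extending by an element of a kind with infinitely many independent members. -/

set_option autoImplicit false

namespace Pool.Agent.H566X

open Set

theorem t_FRE (h : S_IND) (h' : S_ALG) : S_FRE := by
  intro a V W M N hM hN p hp hW w w' hww hinf x hx1 hx
  obtain ⟨c, hc, hcx⟩ := hx1
  have hx0 : ¬ AcI M ∅ x := fun h0 => hx h0.of_empty
  have hc0 : ¬ AcI M ∅ c := fun h0 => hx0 (hcx.aci_empty.1 h0)
  have hcA : AcI M (Prod.fst '' p) c := by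
    refine hc.mono ?_
    intro z hz
    rw [mem_singleton_iff] at hz
    exact ⟨(w, w'), hww, hz.symm⟩
  obtain ⟨c', hc'⟩ := h' a V W M N hM hN p hp hW c hcA
  set q : Set (V × W) := insert (c, c') p with hq
  have hqf : q.Finite := hp.insert _
  have hcq : (c, c') ∈ q := mem_insert _ _
  have hwq : (w, w') ∈ q := mem_insert_of_mem _ hww
  have h1 : AcI N {w'} c' := (hc'.aci hwq hcq).1 hc
  have h2 : ¬ AcI N ∅ c' := fun h0 => hc0 ((hc'.aci_empty hcq).2 h0)
  obtain ⟨y', hy1, hy2⟩ := hinf (Prod.snd '' q) (hqf.image _)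
  obtain ⟨x', hx'1, hx'2⟩ := bt hN h1 hy1
  have h3 : Eqv N c' x' := hx'2.right
  have h4 : AcI N {c'} w' := aci_exc hN h1 h2
  have h5 : AcI N {x'} y' := hx'2.swap.aci.1 h4
  have h6 : ¬ AcI N (Prod.snd '' q) x' := fun h0 => hy2 (h0.trans h5)
  have h7 : ∀ n, ¬ Ac M n (Prod.fst '' q) x := by
    intro n h0
    rcases aci_uni hM (hqf.image _) ⟨n, h0⟩ with h8 | ⟨z, hz, h8⟩
    · exact hx0 h8
    · obtain ⟨u, hu, rfl⟩ := hz
      rcases mem_insert_iff.1 hu with rfl | hu
      · exact hx (hcA.trans h8)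
      · refine hx (h8.mono ?_)
        intro v hv
        rw [mem_singleton_iff] at hv
        exact ⟨u, hu, hv.symm⟩
  refine ⟨x', W0.mono (q := insert (x, x') q) ?_ ?_⟩
  · intro n
    obtain ⟨e, he, heq⟩ := hc' n
    have hec : e c = c' := heq _ hcq
    have h8 : Ob N n (e x) x' := by
      have h9 : Ob N n (e c) (e x) := (ob_iff he le_rfl).1 (hcx n)
      rw [hec] at h9
      exact h9.symm.trans (h3 n)
    have himg : e '' (Prod.fst '' q) = Prod.snd '' q := by
      ext v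
      constructor
      · rintro ⟨_, ⟨u, hu, rfl⟩, rfl⟩
        exact ⟨u, hu, (heq u hu).symm⟩
      · rintro ⟨u, hu, rfl⟩
        exact ⟨u.1, ⟨u, hu, rfl⟩, heq u hu⟩
    have h9 : ¬ Ac N n (Prod.snd '' q) (e x) := by
      rw [← himg]
      exact fun h0 => h7 n ((ac_iff he le_rfl).2 h0)
    have h10 : ¬ Ac N n (Prod.snd '' q) x' := fun h0 => h6 ⟨n, h0⟩
    obtain ⟨τ, hτ1, hτ2, hτ3⟩ := h a W N n (hN n) (Prod.snd '' q) (e x) x' (hqf.image _) h8 h9 h10
    refine ⟨e.trans τ, he.trans hτ1.2, ?_⟩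
    intro u hu
    rcases mem_insert_iff.1 hu with rfl | hu
    · exact hτ3
    · simp only [Equiv.trans_apply]
      rw [heq u hu]
      exact hτ2 _ ⟨u, hu, rfl⟩
  · exact insert_subset_insert (subset_insert _ _)

end Pool.Agent.H566X
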