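import Pool.Agent.H566X.Spec2

/-! FS1: the Baire category argument. -/

set_option autoImplicit false

namespace Pool.Agent.H566X

open Set

theorem fs1_nhds {a : ℕ → ℕ} {U : Set (RS a ℕ)} (hU : IsOpen U) {x : RS a ℕ}
    {π' : Equiv.Perm ℕ} (h2 : (fun i (t : Fin (a i) → ℕ) => x i (π' ∘ t)) ∈ U) :
    ∃ M : ℕ, ∀ τ : Equiv.Perm ℕ, (∀ i < M, τ i = π' i) →
      (fun i (t : Fin (a i) → ℕ) => x i (τ ∘ t)) ∈ U := by
  classical
  obtain ⟨I, u, hu1, hu2⟩ := isOpen_pi_iff.1 hU _ h2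
  have h3 : ∀ i : ℕ, ∃ N : ℕ, i ∈ I → ∀ τ : Equiv.Perm ℕ, (∀ j < N, τ j = π' j) →
      (fun (t : Fin (a i) → ℕ) => x i (τ ∘ t)) ∈ u i := by
    intro i
    by_cases hi : i ∈ I
    · obtain ⟨J, v, hv1, hv2⟩ := isOpen_pi_iff.1 (hu1 i hi).1 _ (hu1 i hi).2
      refine ⟨J.sup (fun t => Finset.univ.sup t) + 1, fun _ τ hτ => hv2 ?_⟩
      intro t ht
      have h4 : τ ∘ t = π' ∘ t := by
        funext j
        apply hτ
        have h5 : t j ≤ J.sup (fun t => Finset.univ.sup t) := by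
          refine (Finset.le_sup (f := t) (Finset.mem_univ j)).trans ?_
          exact Finset.le_sup (f := fun t : Fin (a i) → ℕ => Finset.univ.sup t) ht
        exact Nat.lt_succ_of_le h5
      show x i (τ ∘ t) ∈ v t
      rw [h4]
      exact (hv1 t ht).2
    · exact ⟨0, fun h => absurd h hi⟩
  choose N hN using h3
  refine ⟨I.sup N, fun τ hτ => hu2 ?_⟩
  intro i hi
  exact hN i hi τ (fun j hj => hτ j (lt_of_lt_of_le hj (Finset.le_sup (f := N) hi)))

theorem t_FS1 : S_FS1 := by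
  classical
  intro a F hF x hx
  by_contra hcon
  push Not at hcon
  have hstep : ∀ (n : ℕ) (s : Equiv.Perm ℕ × ℕ), ∃ s' : Equiv.Perm ℕ × ℕ, s.2 ≤ s'.2 ∧
      (∀ i < s.2, s'.1 i = s.1 i) ∧ n < s'.2 ∧ s'.1.symm n < s'.2 ∧
      ∀ τ : Equiv.Perm ℕ, (∀ i < s'.2, τ i = s'.1 i) →
        (fun i (t : Fin (a i) → ℕ) => x i (τ ∘ t)) ∉ F n := by
    intro n s
    have h1 := hcon n s.2 s.1
    unfold EEx at h1
    simp only [Set.mem_ofPred_eq] at h1
    push Not at h1
    obtain ⟨ρ, hρ, hρ2⟩ := h1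
    set π' : Equiv.Perm ℕ := ρ.trans s.1 with hπ'
    have h2 : (fun i (t : Fin (a i) → ℕ) => x i (π' ∘ t)) ∈ (F n)ᶜ := hρ2
    obtain ⟨M, hM⟩ := fs1_nhds (hF n).isOpen_compl h2
    refine ⟨(π', max (max s.2 M) (max (n + 1) (π'.symm n + 1))), ?_, ?_, ?_, ?_, ?_⟩
    · exact (le_max_left _ _).trans (le_max_left _ _)
    · intro i hi
      show s.1 (ρ i) = s.1 i
      rw [hρ i hi]
    · exact lt_of_lt_of_le (Nat.lt_succ_self n) ((le_max_left _ _).trans (le_max_right _ _))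
    · exact lt_of_lt_of_le (Nat.lt_succ_self _) ((le_max_right _ _).trans (le_max_right _ _))
    · intro τ hτ
      exact hM τ (fun i hi => hτ i (lt_of_lt_of_le hi ((le_max_right _ _).trans (le_max_left _ _))))
  choose nxt h1 h2 h3 h4 h5 using hstep
  obtain ⟨s, hs0, hss⟩ : ∃ s : ℕ → Equiv.Perm ℕ × ℕ, s 0 = (Equiv.refl ℕ, 0) ∧
      ∀ n, s (n + 1) = nxt n (s n) :=
    ⟨fun n => Nat.rec (Equiv.refl ℕ, 0) (fun n s => nxt n s) n, rfl, fun _ => rfl⟩
  have hmono : ∀ n k, n ≤ k → (s n).2 ≤ (s k).2 := by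
    intro n k hnk
    induction k, hnk using Nat.le_induction with
    | base => exact le_rfl
    | succ k _ ih => rw [hss]; exact ih.trans (h1 _ _)
  have hagree : ∀ n k, n ≤ k → ∀ i < (s n).2, (s k).1 i = (s n).1 i := by
    intro n k hnk
    induction k, hnk using Nat.le_induction with
    | base => intro i _; rfl
    | succ k hk ih =>
      intro i hi
      rw [hss, h2 k (s k) i (lt_of_lt_of_le hi (hmono n k hk)), ih i hi]
  have hlt : ∀ n, n < (s (n + 1)).2 := fun n => by rw [hss]; exact h3 _ _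
  have hinv : ∀ n, (s (n + 1)).1.symm n < (s (n + 1)).2 := fun n => by rw [hss]; exact h4 _ _
  let τ : ℕ → ℕ := fun i => (s (i + 1)).1 i
  have hτ : ∀ n i, i < (s n).2 → τ i = (s n).1 i := by
    intro n i hi
    show (s (i + 1)).1 i = (s n).1 i
    rcases le_total n (i + 1) with h | h
    · exact hagree n (i + 1) h i hi
    · exact (hagree (i + 1) n h i (hlt i)).symm
  have hbij : Function.Bijective τ := by
    constructor
    · intro i j hij
      have e1 := hτ (max i j + 1) i (lt_of_le_of_lt (le_max_left i j) (hlt (max i j)))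
      have e2 := hτ (max i j + 1) j (lt_of_le_of_lt (le_max_right i j) (hlt (max i j)))
      rw [e1, e2] at hij
      exact (s (max i j + 1)).1.injective hij
    · intro n
      refine ⟨(s (n + 1)).1.symm n, ?_⟩
      rw [hτ (n + 1) _ (hinv n), Equiv.apply_symm_apply]
  obtain ⟨n, hn⟩ := hx (Equiv.ofBijective τ hbij)
  refine h5 n (s n) (Equiv.ofBijective τ hbij) (fun i hi => ?_) hn
  rw [← hss] at hi ⊢
  exact hτ (n + 1) i hi

end Pool.Agent.H566X
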