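import Pool.Agent.H566X.Spec2

/-!
Task FS2: coding finitely many constants by enlarging the language.
-/

set_option autoImplicit false

namespace Pool.Agent.H566X

open Set

section
variable {a : ℕ → ℕ} (m : ℕ)

/-- symbols of the new language -/
abbrev FS2Ix (a : ℕ → ℕ) (m : ℕ) : Type := Σ i : ℕ, (Fin (a i) → Option (Fin m))

/-- the tuple given by a pattern -/
def fs2par {r : ℕ} (p : Fin r → Option (Fin m)) (t : Fin r → ℕ) : Fin r → ℕ :=
  fun k => match p k with
    | some c => (c : ℕ)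
    | none => m + t k

/-- the pattern of a tuple -/
def fs2patt {r : ℕ} (s : Fin r → ℕ) : Fin r → Option (Fin m) :=
  fun k => if h : s k < m then some ⟨s k, h⟩ else none

theorem fs2par_patt {r : ℕ} (s : Fin r → ℕ) :
    fs2par m (fs2patt m s) (fun k => s k - m) = s := by
  funext k
  unfold fs2par fs2patt
  by_cases h : s k < m
  · simp [h]
  · simp only [h, dif_neg, not_false_eq_true]
    omega

theorem fs2lift_par {r : ℕ} (e : Equiv.Perm ℕ) (p : Fin r → Option (Fin m)) (t : Fin r → ℕ) :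
    H566V.lift m e ∘ fs2par m p t = fs2par m p (e ∘ t) := by
  funext k
  simp only [Function.comp, fs2par]
  rcases p k with _ | c
  · simp only
    exact H566V.lift_add m e (t k)
  · simp only
    exact H566V.lift_lt e c.2

/-- adding the constants to the language -/
def fs2hat' (x : RS a ℕ) : (p : FS2Ix a m) → (Fin (a p.1) → ℕ) → Bool :=
  fun p t => x p.1 (fs2par m p.2 t)

/-- recovering the structure -/
def fs2un' (z : (p : FS2Ix a m) → (Fin (a p.1) → ℕ) → Bool) : RS a ℕ :=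
  fun i s => z ⟨i, fs2patt m s⟩ (fun k => s k - m)

theorem fs2un_hat' (x : RS a ℕ) : fs2un' m (fs2hat' m x) = x := by
  funext i s
  show x i (fs2par m (fs2patt m s) (fun k => s k - m)) = x i s
  rw [fs2par_patt]

variable (E : ℕ ≃ FS2Ix a m)

/-- the new arities -/
def fs2ar : ℕ → ℕ := fun j => a (E j).1

/-- the coded structure -/
def fs2hat (x : RS a ℕ) : RS (fs2ar m E) ℕ := fun j => fs2hat' m x (E j)

/-- decoding -/
def fs2un (y : RS (fs2ar m E) ℕ) : RS a ℕ :=
  fs2un' m (Equiv.piCongrLeft (fun p : FS2Ix a m => (Fin (a p.1) → ℕ) → Bool) E y)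

theorem fs2un_hat (x : RS a ℕ) : fs2un m E (fs2hat m E x) = x := by
  have h : Equiv.piCongrLeft (fun p : FS2Ix a m => (Fin (a p.1) → ℕ) → Bool) E (fs2hat m E x) =
      fs2hat' m x := by
    funext p
    obtain ⟨j, rfl⟩ := E.surjective p
    rw [Equiv.piCongrLeft_apply_apply]
    rfl
  unfold fs2un
  rw [h, fs2un_hat']

theorem fs2hat_cont : Continuous (fs2hat (a := a) m E) :=
  continuous_pi fun j => continuous_pi fun t =>
    (continuous_apply (fs2par m (E j).2 t)).comp (continuous_apply (E j).1)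

theorem fs2un_cont : Continuous (fs2un (a := a) m E) := by
  have h1 : Continuous (Equiv.piCongrLeft (fun p : FS2Ix a m => (Fin (a p.1) → ℕ) → Bool) E) :=
    (Homeomorph.piCongrLeft (Y := fun p : FS2Ix a m => (Fin (a p.1) → ℕ) → Bool) E).continuous
  have h2 : Continuous (fs2un' (a := a) m) :=
    continuous_pi fun i => continuous_pi fun s =>
      (continuous_apply (fun k => s k - m)).comp (continuous_apply (⟨i, fs2patt m s⟩ : FS2Ix a m))
  exact h2.comp h1

theorem fs2iso (x x' : RS a ℕ) (e : ℕ ≃ ℕ) :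
    Iso (fs2hat m E x) (fs2hat m E x') e ↔ Iso x x' (H566V.lift m e) := by
  constructor
  · intro h i s
    obtain ⟨j, hj⟩ := E.surjective ⟨i, fs2patt m s⟩
    have h1 : ∀ p : FS2Ix a m, E j = p → ∀ t : Fin (a p.1) → ℕ,
        fs2hat' m x' p (e ∘ t) = fs2hat' m x p t := by
      rintro p rfl t
      exact h j t
    have h2 := h1 _ hj (fun k => s k - m)
    have h3 : fs2hat' m x ⟨i, fs2patt m s⟩ (fun k => s k - m) = x i s := by
      show x i (fs2par m (fs2patt m s) (fun k => s k - m)) = x i s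
      rw [fs2par_patt]
    rw [h3] at h2
    rw [← h2]
    show x' i (H566V.lift m e ∘ s) = x' i (fs2par m (fs2patt m s) (e ∘ fun k => s k - m))
    rw [← fs2lift_par, fs2par_patt]
  · intro h j t
    show x' (E j).1 (fs2par m (E j).2 (e ∘ t)) = x (E j).1 (fs2par m (E j).2 t)
    rw [← fs2lift_par]
    exact h _ _

theorem fs2iso_inv (x x' : RS a ℕ) (ρ : ℕ ≃ ℕ) (hρ : ∀ i < m, ρ i = i) (h : Iso x x' ρ) :
    ∃ e : ℕ ≃ ℕ, Iso (fs2hat m E x) (fs2hat m E x') e := by
  obtain ⟨e, he⟩ := H566V.exists_lower hρ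
  refine ⟨e, ?_⟩
  rw [fs2iso]
  have : H566V.lift m e = ρ := by
    ext n
    by_cases hn : n < m
    · rw [H566V.lift_lt e hn, hρ n hn]
    · obtain ⟨k, rfl⟩ := Nat.exists_eq_add_of_le (not_lt.1 hn)
      rw [H566V.lift_add, he]
  rw [this]
  exact h

theorem fs2EEx_comp {F : Set (RS a ℕ)} {x : RS a ℕ} (hx : x ∈ EEx F m) (ρ : Equiv.Perm ℕ)
    (hρ : ∀ i < m, ρ i = i) : (fun i (t : Fin (a i) → ℕ) => x i (ρ ∘ t)) ∈ EEx F m := by
  intro σ hσ
  exact hx (σ.trans ρ) (fun i hi => by rw [Equiv.trans_apply, hσ i hi, hρ i hi])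

theorem fs2EEx_closed {F : Set (RS a ℕ)} (hF : IsClosed F) : IsClosed (EEx F m) := by
  have : EEx F m = ⋂ ρ : Equiv.Perm ℕ, ⋂ _ : ∀ i < m, ρ i = i,
      (fun y : RS a ℕ => (fun i (t : Fin (a i) → ℕ) => y i (ρ ∘ t))) ⁻¹' F := by
    ext y
    simp [EEx]
  rw [this]
  refine isClosed_iInter fun ρ => isClosed_iInter fun _ => hF.preimage ?_
  exact continuous_pi fun i => continuous_pi fun t =>
    (continuous_apply (ρ ∘ t)).comp (continuous_apply i)

theorem fs2C_closed {F : Set (RS a ℕ)} (hF : IsClosed F) :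
    IsClosed (fs2hat m E '' EEx F m) := by
  have : fs2hat m E '' EEx F m =
      {y | fs2hat m E (fs2un m E y) = y} ∩ fs2un m E ⁻¹' (EEx F m) := by
    ext y
    constructor
    · rintro ⟨x, hx, rfl⟩
      exact ⟨by show fs2hat m E (fs2un m E (fs2hat m E x)) = fs2hat m E x; rw [fs2un_hat],
        by show fs2un m E (fs2hat m E x) ∈ EEx F m; rw [fs2un_hat]; exact hx⟩
    · rintro ⟨h3, h4⟩
      exact ⟨fs2un m E y, h4, h3⟩
  rw [this]
  exact (isClosed_eq ((fs2hat_cont m E).comp (fs2un_cont m E)) continuous_id).inter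
    ((fs2EEx_closed m hF).preimage (fs2un_cont m E))

theorem fs2_transfer {F : Set (RS a ℕ)} {x : RS a ℕ} (hx : x ∈ EEx F m)
    {N : RS (fs2ar m E) ℕ} {e : ℕ ≃ ℕ} (h : Iso (fs2hat m E x) N e) :
    ∃ x' ∈ EEx F m, N = fs2hat m E x' ∧ Iso x x' (H566V.lift m e) := by
  set ρ : Equiv.Perm ℕ := (H566V.lift m e).symm with hρ
  have hρi : ∀ i < m, ρ i = i := by
    intro i hi
    rw [hρ, Equiv.symm_apply_eq, H566V.lift_lt e hi]
  refine ⟨fun i t => x i (ρ ∘ t), fs2EEx_comp m hx ρ hρi, ?_, ?_⟩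
  · have hiso : Iso x (fun i t => x i (ρ ∘ t)) (H566V.lift m e) := by
      intro i t
      show x i (ρ ∘ (H566V.lift m e ∘ t)) = x i t
      congr 1
      funext k
      simp [hρ]
    have h2 := (fs2iso m E _ _ e).2 hiso
    funext j t
    have h3 := h j (e.symm ∘ t)
    have h4 := h2 j (e.symm ∘ t)
    have h5 : e ∘ (e.symm ∘ t) = t := by funext k; simp
    rw [h5] at h3 h4
    rw [h3, h4]
  · intro i t
    show x i (ρ ∘ (H566V.lift m e ∘ t)) = x i t
    congr 1
    funext k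
    simp [hρ]

end

theorem t_FS2 : S_FS2 := by
  intro hclo a F m hF hfew
  have : Infinite (FS2Ix a m) :=
    Infinite.of_injective (fun i : ℕ => (⟨i, fun _ => none⟩ : FS2Ix a m)) (fun i j h => by
      simpa using congrArg Sigma.fst h)
  obtain ⟨hE⟩ := nonempty_denumerable (FS2Ix a m)
  set E : ℕ ≃ FS2Ix a m := (Denumerable.eqv (FS2Ix a m)).symm with hEdef
  have hinv : Inv (fs2hat m E '' EEx F m) := by
    rintro _ ⟨x, hx, rfl⟩ N ⟨e, he⟩
    obtain ⟨x', hx', hN, -⟩ := fs2_transfer m E hx he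
    exact ⟨x', hx', hN.symm⟩
  have hF' : Few (fs2hat m E '' EEx F m) := by
    rintro ⟨g, hg, hgC, hgi⟩
    apply hfew
    have h1 : ∀ A, fs2un m E (g A) ∈ EEx F m ∧ fs2hat m E (fs2un m E (g A)) = g A := by
      intro A
      obtain ⟨x, hx, hxg⟩ := hgC A
      rw [← hxg, fs2un_hat]
      exact ⟨hx, rfl⟩
    refine ⟨fun A => fs2un m E (g A), (fs2un_cont m E).comp hg, fun A => (h1 A).1, ?_⟩
    rintro A A' ⟨e, he, hei⟩
    obtain ⟨e', he'⟩ := fs2iso_inv m E _ _ e hei he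
    rw [(h1 A).2, (h1 A').2] at he'
    exact hgi A A' ⟨e', he'⟩
  obtain ⟨D, hD, hDC⟩ := hclo _ _ (fs2C_closed m E hF) hinv hF'
  refine ⟨fs2un m E '' D, hD.image _, ?_⟩
  intro x hx
  obtain ⟨N, hND, e, he⟩ := hDC _ ⟨x, hx, rfl⟩
  obtain ⟨x', hx', hN, hiso⟩ := fs2_transfer m E hx he
  refine ⟨fs2un m E N, ⟨N, hND, rfl⟩, H566V.lift m e, ?_⟩
  rw [hN, fs2un_hat]
  exact hiso

end Pool.Agent.H566X
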