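import Pool.Agent.H566X.Spec2

/-! Task FSI (helper311): assembly of the theorem for `F_σ` classes. -/

set_option autoImplicit false

namespace Pool.Agent.H566X

open Set

theorem t_FSI (h0 : S_CLO) (h1 : S_FS1) (h2 : S_FS2) (h3 : S_FEWF) : S_FSI := by
  intro a B F hF hB hinv hfew
  have hmeas : MeasurableSet B := by
    rw [hB]
    exact MeasurableSet.iUnion fun k => (hF k).measurableSet
  have hsub : ∀ k m, EEx (F k) m ⊆ B := by
    intro k m x hx
    rw [hB]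
    refine Set.mem_iUnion.2 ⟨k, ?_⟩
    exact hx (Equiv.refl ℕ) (fun i _ => rfl)
  have hCT : ∀ k m, CT (EEx (F k) m) := by
    intro k m
    refine h2 h0 a (F k) m (hF k) ?_
    rintro ⟨g, hg1, hg2, hg3⟩
    exact h3 a B hmeas hfew m g hg1 (fun A => hsub k m (hg2 A)) hg3
  choose D hD1 hD2 using hCT
  refine ⟨⋃ k, ⋃ m, D k m, Set.countable_iUnion fun k => Set.countable_iUnion fun m => hD1 k m, ?_⟩
  intro x hx
  have hx' : ∀ σ : Equiv.Perm ℕ, ∃ k, (fun i (t : Fin (a i) → ℕ) => x i (σ ∘ t)) ∈ F k := by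
    intro σ
    have h4 : (fun i (t : Fin (a i) → ℕ) => x i (σ ∘ t)) ∈ B := by
      refine hinv x hx _ ⟨σ.symm, ?_⟩
      intro i t
      show x i (σ ∘ (σ.symm ∘ t)) = x i t
      congr 1
      funext j
      simp
    rw [hB] at h4
    exact Set.mem_iUnion.1 h4
  obtain ⟨k, m, π, hπ⟩ := h1 a F hF x hx'
  obtain ⟨N, hN, e, he⟩ := hD2 k m _ hπ
  refine ⟨N, Set.mem_iUnion.2 ⟨k, Set.mem_iUnion.2 ⟨m, hN⟩⟩, π.symm.trans e, ?_⟩
  intro i t
  have h5 := he i (π.symm ∘ t)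
  have h6 : (⇑(π.symm.trans e) ∘ t) = ⇑e ∘ (⇑π.symm ∘ t) := by
    funext j; simp
  rw [h6, h5]
  show x i (π ∘ (π.symm ∘ t)) = x i t
  congr 1
  funext j
  simp

end Pool.Agent.H566X
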