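import Pool.Agent.H566X.Spec

set_option autoImplicit false

namespace Pool.Agent.H566X

open Set

theorem t_FU1 : S_FU1 := by
  intro a V M D h n F hF
  classical
  -- induction on the number of elements of `F` outside of `D`
  have key : ∀ (k : ℕ) (F : Set V), F.Finite → (F \ D).ncard = k → ∃ τ : Equiv.Perm V, Gr M n τ ∧
      (∀ x ∈ F, x ∈ D → τ x = x) ∧ ∀ x ∈ F, τ x ∈ D := by
    intro k
    induction k using Nat.strong_induction_on with
    | _ k ih =>
      intro F hF hk
      by_cases hFD : F ⊆ D
      · exact ⟨1, Gr.one, fun _ _ _ => rfl, fun x hx => hFD hx⟩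
      · obtain ⟨z, hzF, hzD⟩ := Set.not_subset.1 hFD
        obtain ⟨τ₁, hg₁, hfix₁, hz₁, hout₁⟩ := h n F hF z hzD
        have hF' : (τ₁ '' F).Finite := hF.image _
        have hsub : (τ₁ '' F) \ D ⊆ (F \ D) \ {z} := by
          rintro y ⟨⟨x, hxF, rfl⟩, hyD⟩
          have hxD : x ∉ D := by
            intro hxD
            rw [hfix₁ x hxF hxD] at hyD
            exact hyD hxD
          have hfx : τ₁ x = x := by
            rcases hout₁ x hxD with h' | h'
            · exact h'
            · exact absurd h' hyD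
          refine ⟨⟨?_, hyD⟩, ?_⟩
          · rw [hfx]; exact hxF
          · rw [hfx]
            intro hxz
            have hxz' : x = z := hxz
            rw [hxz'] at hyD
            exact hyD hz₁
        have hlt : ((τ₁ '' F) \ D).ncard < k := by
          have hfin : (F \ D).Finite := hF.subset Set.sdiff_subset
          have h1 : ((τ₁ '' F) \ D).ncard ≤ ((F \ D) \ {z}).ncard :=
            Set.ncard_le_ncard hsub (hfin.subset Set.sdiff_subset)
          have h2 : ((F \ D) \ {z}).ncard < (F \ D).ncard :=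
            Set.ncard_sdiff_singleton_lt_of_mem ⟨hzF, hzD⟩ hfin
          omega
        obtain ⟨τ₂, hg₂, hfix₂, hin₂⟩ := ih _ hlt (τ₁ '' F) hF' rfl
        refine ⟨τ₂ * τ₁, hg₂.mul hg₁, ?_, ?_⟩
        · intro x hxF hxD
          have h1 : τ₁ x = x := hfix₁ x hxF hxD
          have h2 : τ₂ x = x := hfix₂ x ⟨x, hxF, h1⟩ hxD
          rw [Equiv.Perm.mul_apply, h1, h2]
        · intro x hxF
          rw [Equiv.Perm.mul_apply]
          exact hin₂ _ ⟨x, hxF, rfl⟩
  exact key _ F hF rfl

end Pool.Agent.H566X
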