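import Pool.Agent.H566X.Spec

/-! FUL: orbits and algebraicity do not change when we restrict to a full subset (helper305). -/

set_option autoImplicit false

namespace Pool.Agent.H566X

open Set

section
variable {a : ℕ → ℕ} {V : Type} {M : RS a V} {D : Set V} {n : ℕ}

open Classical in
/-- extension by the identity -/
theorem ful_ext (hD : Full M D) {s : Equiv.Perm D} (hs : Gr (res M D) n s) :
    Gr M n (Equiv.Perm.ofSubtype s) := by
  have hmem : ∀ x (hx : x ∈ D), Equiv.Perm.ofSubtype s x = (s ⟨x, hx⟩).1 := fun x hx =>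
    Equiv.Perm.ofSubtype_apply_of_mem s hx
  have hnot : ∀ x, x ∉ D → Equiv.Perm.ofSubtype s x = x := fun x hx =>
    Equiv.Perm.ofSubtype_apply_of_not_mem s hx
  have hfin : {x | Equiv.Perm.ofSubtype s x ≠ x}.Finite := by
    refine (hs.1.image Subtype.val).subset ?_
    intro x hx
    have hxD : x ∈ D := by
      by_contra h
      exact hx (hnot x h)
    refine ⟨⟨x, hxD⟩, ?_, rfl⟩
    intro h
    apply hx
    rw [hmem x hxD, h]
  have hsD : ∀ x, Equiv.Perm.ofSubtype s x ≠ x → x ∈ D := by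
    intro x hx
    by_contra h
    exact hx (hnot x h)
  refine ⟨hfin, ?_⟩
  intro i hi t
  obtain ⟨τ, hτ, hfix, hin⟩ := hD n
    (range t ∪ {x | Equiv.Perm.ofSubtype s x ≠ x} ∪ Equiv.Perm.ofSubtype s '' range t)
    (((finite_range t).union hfin).union ((finite_range t).image _))
  have hcomm : (τ ∘ (Equiv.Perm.ofSubtype s ∘ t)) = (Equiv.Perm.ofSubtype s ∘ (τ ∘ t)) := by
    funext k
    simp only [Function.comp]
    by_cases hk : t k ∈ D
    · rw [hfix (t k) (Or.inl (Or.inl ⟨k, rfl⟩)) hk]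
      refine hfix _ (Or.inr ⟨t k, ⟨k, rfl⟩, rfl⟩) ?_
      rw [hmem _ hk]
      exact (s ⟨t k, hk⟩).2
    · rw [hnot _ hk]
      by_contra hne
      have hne' : Equiv.Perm.ofSubtype s (τ (t k)) ≠ τ (t k) := fun h => hne h.symm
      have h1 := hfix (τ (t k)) (Or.inl (Or.inr hne')) (hsD _ hne')
      have h2 : τ (t k) = t k := τ.injective h1
      exact hk (h2 ▸ hsD _ hne')
  have h1 : M i (τ ∘ (Equiv.Perm.ofSubtype s ∘ t)) = M i (Equiv.Perm.ofSubtype s ∘ t) :=
    hτ.2 i hi _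
  have h2 : M i (τ ∘ t) = M i t := hτ.2 i hi _
  have hinD : ∀ k, τ (t k) ∈ D := fun k => hin (t k) (Or.inl (Or.inl ⟨k, rfl⟩))
  have h3 := hs.2 i hi (fun k => ⟨τ (t k), hinD k⟩)
  have h4 : (Equiv.Perm.ofSubtype s ∘ (τ ∘ t)) =
      fun k => ((s ∘ (fun k => (⟨τ (t k), hinD k⟩ : D))) k).1 := by
    funext k
    exact hmem _ (hinD k)
  rw [← h1, hcomm, h4]
  refine Eq.trans h3 ?_
  exact h2

/-- restriction of a permutation fixing everything outside `D` -/
theorem ful_restr {ρ : Equiv.Perm V} (hρ : Gr M n ρ) (hout : ∀ x, x ∉ D → ρ x = x) :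
    ∃ s : Equiv.Perm D, Gr (res M D) n s ∧ ∀ x : D, (s x).1 = ρ x.1 := by
  have h1 : ∀ x, x ∈ D → ρ x ∈ D := by
    intro x hx
    by_contra h
    have h2 := hout _ h
    have h3 : ρ x = x := ρ.injective h2
    exact h (by rw [h3]; exact hx)
  have h1' : ∀ x, x ∈ D → ρ.symm x ∈ D := by
    intro x hx
    by_contra h
    have h2 := hout _ h
    rw [Equiv.apply_symm_apply] at h2
    exact h (h2 ▸ hx)
  refine ⟨⟨fun x => ⟨ρ x.1, h1 x.1 x.2⟩, fun x => ⟨ρ.symm x.1, h1' x.1 x.2⟩, ?_, ?_⟩, ⟨?_, ?_⟩, ?_⟩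
  · intro x
    apply Subtype.ext
    simp
  · intro x
    apply Subtype.ext
    simp
  · refine (hρ.1.preimage (f := Subtype.val) Subtype.val_injective.injOn).subset ?_
    intro x hx h
    apply hx
    exact Subtype.ext h
  · intro i hi t
    exact hρ.2 i hi (fun k => (t k).1)
  · intro x
    rfl

/-- conjugating into `D` -/
theorem ful_conj {σ τ : Equiv.Perm V} (hσ : Gr M n σ) (hτ : Gr M n τ)
    (hin : ∀ x, σ x ≠ x → τ x ∈ D) :
    ∃ s : Equiv.Perm D, Gr (res M D) n s ∧ ∀ x : D, (s x).1 = τ (σ (τ.symm x.1)) := by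
  refine ful_restr (ρ := τ * σ * τ⁻¹) ((hτ.mul hσ).mul hτ.inv) ?_
  intro x hx
  have h : σ (τ.symm x) = τ.symm x := by
    by_contra h
    exact hx (by simpa using hin _ h)
  change τ (σ (τ.symm x)) = x
  rw [h]
  simp

end

theorem t_FUL : S_FUL := by
  classical
  intro a V M D hD
  refine ⟨?_, ?_, ?_⟩
  · intro n x y
    constructor
    · rintro ⟨s, hs, hxy⟩
      refine ⟨Equiv.Perm.ofSubtype s, ful_ext hD hs, ?_⟩
      rw [Equiv.Perm.ofSubtype_apply_coe, hxy]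
    · rintro ⟨σ, hσ, hxy⟩
      obtain ⟨τ, hτ, hfix, hin⟩ := hD n ({z | σ z ≠ z} ∪ {x.1, y.1}) (hσ.1.union (toFinite _))
      obtain ⟨s, hs, hs'⟩ := ful_conj (D := D) hσ hτ (fun z hz => hin z (Or.inl hz))
      refine ⟨s, hs, Subtype.ext ?_⟩
      have h1 : τ x.1 = x.1 := hfix _ (Or.inr (Or.inl rfl)) x.2
      have h2 : τ y.1 = y.1 := hfix _ (Or.inr (Or.inr rfl)) y.2
      have h3 : τ.symm x.1 = x.1 := by rw [Equiv.symm_apply_eq, h1]
      rw [hs', h3, hxy, h2]
  · intro n A x hA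
    constructor
    · intro h0
      have h : {y | ∃ σ : Equiv.Perm D, Gr (res M D) n σ ∧
          (∀ z ∈ A, σ z = z) ∧ σ x = y}.Finite := h0
      by_contra hinf
      have hinf' : {y | ∃ σ : Equiv.Perm V, Gr M n σ ∧
          (∀ z ∈ (Subtype.val '' A : Set V), σ z = z) ∧ σ x.1 = y}.Infinite := hinf
      obtain ⟨T, hT, hTc⟩ := hinf'.exists_subset_card_eq (h.toFinset.card + 1)
      have hT' : ∀ y ∈ T, ∃ σ : Equiv.Perm V, Gr M n σ ∧
          (∀ z ∈ (Subtype.val '' A : Set V), σ z = z) ∧ σ x.1 = y := fun y hy => hT hy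
      choose! f hf1 hf2 hf3 using hT'
      obtain ⟨τ, hτ, hfix, hin⟩ := hD n
        ((Subtype.val '' A) ∪ {x.1} ∪ (⋃ y ∈ T, {z | f y z ≠ z}) ∪ T)
        ((((hA.image _).union (toFinite _)).union
          (Finite.biUnion T.finite_toSet (fun y hy => (hf1 y hy).1))).union T.finite_toSet)
      have hmap : ∀ y ∈ T, ∃ y' ∈ h.toFinset, (y' : D).1 = τ y := by
        intro y hy
        obtain ⟨s, hs, hs'⟩ := ful_conj (D := D) (hf1 y hy) hτ
          (fun z hz => hin z (Or.inl (Or.inr (mem_biUnion hy hz))))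
        refine ⟨s x, ?_, ?_⟩
        · rw [Finite.mem_toFinset]
          refine ⟨s, hs, ?_, rfl⟩
          intro z hz
          apply Subtype.ext
          have h1 : τ z.1 = z.1 := hfix _ (Or.inl (Or.inl (Or.inl ⟨z, hz, rfl⟩))) z.2
          have h2 : τ.symm z.1 = z.1 := by rw [Equiv.symm_apply_eq, h1]
          rw [hs', h2, hf2 y hy z.1 ⟨z, hz, rfl⟩, h1]
        · have h1 : τ x.1 = x.1 := hfix _ (Or.inl (Or.inl (Or.inr rfl))) x.2
          have h2 : τ.symm x.1 = x.1 := by rw [Equiv.symm_apply_eq, h1]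
          rw [hs', h2, hf3 y hy]
      have hsub : T.image τ ⊆ h.toFinset.image Subtype.val := by
        intro w hw
        rw [Finset.mem_image] at hw
        obtain ⟨y, hy, rfl⟩ := hw
        obtain ⟨y', hy', e⟩ := hmap y hy
        exact Finset.mem_image.2 ⟨y', hy', e⟩
      have h1 := Finset.card_le_card hsub
      rw [Finset.card_image_of_injective _ τ.injective, hTc] at h1
      have h2 := Finset.card_image_le (s := h.toFinset) (f := Subtype.val)
      omega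
    · intro h
      have h' : {y | ∃ σ : Equiv.Perm V, Gr M n σ ∧
          (∀ z ∈ (Subtype.val '' A : Set V), σ z = z) ∧ σ x.1 = y}.Finite := h
      refine (h'.preimage (f := Subtype.val) Subtype.val_injective.injOn).subset ?_
      rintro y ⟨s, hs, hs1, hs2⟩
      refine ⟨Equiv.Perm.ofSubtype s, ful_ext hD hs, ?_, ?_⟩
      · rintro _ ⟨z, hz, rfl⟩
        rw [Equiv.Perm.ofSubtype_apply_coe, hs1 z hz]
      · rw [Equiv.Perm.ofSubtype_apply_coe, hs2]
  · intro n A z hA hAD hz hac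
    obtain ⟨τ, hτ, hfix, hin⟩ := hD n (A ∪ {y | ∃ σ : Equiv.Perm V, Gr M n σ ∧
      (∀ w ∈ A, σ w = w) ∧ σ z = y}) (hA.union hac)
    have hzO : z ∈ {y | ∃ σ : Equiv.Perm V, Gr M n σ ∧ (∀ w ∈ A, σ w = w) ∧ σ z = y} :=
      ⟨1, Gr.one, fun _ _ => rfl, rfl⟩
    have h1 : τ z ∈ {y | ∃ σ : Equiv.Perm V, Gr M n σ ∧ (∀ w ∈ A, σ w = w) ∧ σ z = y} :=
      ⟨τ, hτ, fun w hw => hfix w (Or.inl hw) (hAD hw), rfl⟩
    have h2 : τ z ∈ D := hin z (Or.inr hzO)
    have h3 : τ (τ z) = τ z := hfix _ (Or.inr h1) h2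
    have h4 : τ z = z := τ.injective h3
    exact hz (h4 ▸ h2)

end Pool.Agent.H566X
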