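import Pool.Agent.H566X.Spec

/-! Task IND: elements of one orbit which are independent of `A` are conjugate over `A`. -/

set_option autoImplicit false

namespace Pool.Agent.H566X

open Set

private theorem ind_notBl {a : ℕ → ℕ} {V : Type} {M : RS a V} {n : ℕ} (hM : Cell M n)
    {A : Set V} {x z : V} (hx : ¬ Ac M n A x) (hz : z ∈ A) : ¬ Bl M n x z := by
  rintro ⟨h1, h2⟩
  exact hx ((hM.exc z x h1 h2).mono_set (Set.singleton_subset_iff.2 hz))

theorem t_IND : S_IND := by
  intro a V M n hM A x y hA hob hx hy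
  obtain ⟨σ, hσ, hσx⟩ := hob
  have hx0 : ¬ Ac M n ∅ x := fun h => hx (h.mono_set (Set.empty_subset A))
  obtain ⟨s, hs, hinv, hB, hfix⟩ := hM.far (A ∪ {v | σ v ≠ v}) x (hA.union hσ.1) hx0
  refine ⟨σ * s * σ⁻¹ * s, ((hσ.mul hs).mul hσ.inv).mul hs, ?_, ?_⟩
  · intro z hz
    have h1 : s z = z := by
      apply hfix
      · exact ind_notBl hM hx hz
      · intro h
        apply (hB _ h).1
        rw [hinv]
        exact Or.inl hz
    have hw : σ (σ⁻¹ z) = z := σ.apply_symm_apply z
    have h2 : s (σ⁻¹ z) = σ⁻¹ z := by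
      apply hfix
      · intro h
        rw [hσ.bl_iff le_rfl, hw, hσx] at h
        exact ind_notBl hM hy hz h
      · intro h
        have h3 := (hB _ h).1
        rw [hinv] at h3
        have h4 : σ (σ⁻¹ z) = σ⁻¹ z := by
          by_contra hne
          exact h3 (Or.inr hne)
        apply h3
        left
        rw [← h4, hw]
        exact hz
    rw [Equiv.Perm.mul_apply, Equiv.Perm.mul_apply, Equiv.Perm.mul_apply, h1, h2, hw]
  · have hxB : Bl M n x x := Bl.refl hx0
    have h1 : σ (s x) = s x := by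
      by_contra hne
      exact (hB x hxB).1 (Or.inr hne)
    have h2 : σ⁻¹ (s x) = s x := by
      rw [Equiv.Perm.inv_eq_iff_eq]
      exact h1.symm
    rw [Equiv.Perm.mul_apply, Equiv.Perm.mul_apply, Equiv.Perm.mul_apply, h2, hinv, hσx]

end Pool.Agent.H566X
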