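import Pool.Agent.H566X.Spec

/-! Task LOC (helper8): membership in closed classes. -/

set_option autoImplicit false

namespace Pool.Agent.H566X

open Set

theorem loc_perm (S : Finset ℕ) (g : ℕ → ℕ) (hg : Set.InjOn g S) :
    ∃ π : Equiv.Perm ℕ, ∀ x ∈ S, π x = g x := by
  classical
  induction S using Finset.induction_on with
  | empty => exact ⟨1, fun x hx => absurd hx (Finset.notMem_empty x)⟩
  | insert b S hb ih =>
    obtain ⟨π, hπ⟩ := ih (hg.mono (by
      intro x hx
      exact Finset.mem_coe.2 (Finset.mem_insert_of_mem hx)))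
    refine ⟨π.trans (Equiv.swap (π b) (g b)), fun x hx => ?_⟩
    rw [Equiv.trans_apply]
    rcases Finset.mem_insert.1 hx with rfl | hx'
    · rw [Equiv.swap_apply_left]
    · have hxb : x ≠ b := fun h => hb (h ▸ hx')
      rw [Equiv.swap_apply_of_ne_of_ne, hπ x hx']
      · exact fun h => hxb (π.injective h)
      · rw [hπ x hx']
        intro h
        exact hxb (hg (Finset.mem_coe.2 hx) (Finset.mem_coe.2 (Finset.mem_insert_self b S)) h)

theorem t_LOC : S_LOC := by
  intro a C hC hI M hM W _ _ N hN
  obtain ⟨hden⟩ := nonempty_denumerable W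
  let e : ℕ ≃ W := (Denumerable.eqv W).symm
  refine ⟨e, ?_⟩
  have hk : ∀ k : ℕ, ∃ M' ∈ C, ∀ i < k, ∀ t : Fin (a i) → ℕ, (∀ j, t j < k) →
      M' i t = N i (e ∘ t) := by
    classical
    intro k
    obtain ⟨f, hf, hfN⟩ := hN k ((Finset.range k).image e)
    obtain ⟨π, hπ⟩ := loc_perm (Finset.range k) (fun x => f (e x)) (by
      intro x hx y hy hxy
      exact e.injective (hf (Finset.mem_coe.2 (Finset.mem_image_of_mem e (Finset.mem_coe.1 hx)))
        (Finset.mem_coe.2 (Finset.mem_image_of_mem e (Finset.mem_coe.1 hy))) hxy))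
    refine ⟨fun i t => M i (π ∘ t), hI M hM _ ⟨π.symm, fun i t => ?_⟩, fun i hi t ht => ?_⟩
    · change M i (π ∘ (π.symm ∘ t)) = M i t
      congr 1
      funext j
      exact π.apply_symm_apply (t j)
    · change M i (π ∘ t) = N i (e ∘ t)
      rw [← hfN i hi (e ∘ t) (fun j => Finset.mem_image_of_mem e (Finset.mem_range.2 (ht j)))]
      congr 1
      funext j
      exact hπ (t j) (Finset.mem_range.2 (ht j))
  choose M' hM' hagree using hk
  have hlim : Filter.Tendsto M' Filter.atTop
      (nhds (fun i (t : Fin (a i) → ℕ) => N i (e ∘ t))) := by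
    rw [tendsto_pi_nhds]
    intro i
    rw [tendsto_pi_nhds]
    intro t
    refine tendsto_const_nhds.congr' ?_
    rw [Filter.EventuallyEq, Filter.eventually_atTop]
    refine ⟨max (i + 1) (Finset.univ.sup (fun j => t j + 1)), fun k hk => ?_⟩
    refine (hagree k i (lt_of_lt_of_le (Nat.lt_succ_self i) ((le_max_left _ _).trans hk)) t
      (fun j => ?_)).symm
    have h1 : t j + 1 ≤ Finset.univ.sup (fun j => t j + 1) :=
      Finset.le_sup (f := fun j => t j + 1) (Finset.mem_univ j)
    have h2 := (le_max_right (i + 1) (Finset.univ.sup (fun j => t j + 1))).trans hk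
    omega
  exact hC.mem_of_tendsto hlim (Filter.Eventually.of_forall hM')

end Pool.Agent.H566X
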