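import Pool.Agent.H566X.Defs

/-! Elementary library, part A: groups of finitary automorphisms. -/

set_option autoImplicit false

namespace Pool.Agent.H566X

open Set

variable {a : ℕ → ℕ} {V W X : Type} {M : RS a V} {N : RS a W} {P : RS a X} {m n : ℕ}
  {A B : Set V} {x y z : V} {σ τ : Equiv.Perm V} {e : V ≃ W}

/-! ### Isomorphisms of reducts -/

theorem IsoN.mono (h : IsoN n M N e) (hm : m ≤ n) : IsoN m M N e :=
  fun i hi t => h i (lt_of_lt_of_le hi hm) t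

theorem IsoN.symm (h : IsoN n M N e) : IsoN n N M e.symm := by
  intro i hi t
  have h1 := h i hi (e.symm ∘ t)
  rw [← h1]
  congr 1
  funext k
  simp

theorem IsoN.trans {e' : W ≃ X} (h : IsoN n M N e) (h' : IsoN n N P e') :
    IsoN n M P (e.trans e') := by
  intro i hi t
  rw [← h i hi t, ← h' i hi (e ∘ t)]
  rfl

theorem Iso.isoN (h : Iso M N e) : IsoN n M N e := fun i _ t => h i t

theorem iso_of_isoN (h : ∀ n, IsoN n M N e) : Iso M N e :=
  fun i t => h (i + 1) i (Nat.lt_succ_self i) t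

theorem Iso.symm (h : Iso M N e) : Iso N M e.symm :=
  iso_of_isoN fun _ => (Iso.isoN h).symm

theorem Iso.trans {e' : W ≃ X} (h : Iso M N e) (h' : Iso N P e') : Iso M P (e.trans e') :=
  iso_of_isoN fun _ => (Iso.isoN h).trans (Iso.isoN h')

/-! ### The groups -/

theorem Gr.one : Gr M n 1 := by
  refine ⟨?_, fun i _ t => rfl⟩
  have h : {x : V | (1 : Equiv.Perm V) x ≠ x} = ∅ := by
    ext x
    simp
  rw [h]
  exact Set.finite_empty

theorem Gr.mul (h : Gr M n σ) (h' : Gr M n τ) : Gr M n (σ * τ) := by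
  refine ⟨(h.1.union h'.1).subset ?_, ?_⟩
  · intro x hx
    by_contra hcon
    simp only [Set.mem_union, Set.mem_ofPred_eq, not_or, not_not] at hcon
    apply hx
    rw [Equiv.Perm.mul_apply, hcon.2, hcon.1]
  · intro i hi t
    rw [← h'.2 i hi t, ← h.2 i hi (τ ∘ t)]
    rfl

theorem Gr.inv (h : Gr M n σ) : Gr M n σ⁻¹ := by
  refine ⟨h.1.subset ?_, h.2.symm⟩
  intro x hx hcon
  apply hx
  rw [Equiv.Perm.inv_eq_iff_eq]
  exact hcon.symm

theorem Gr.symm (h : Gr M n σ) : Gr M n σ.symm := h.inv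

theorem Gr.mono (h : Gr M n σ) (hm : m ≤ n) : Gr M m σ := ⟨h.1, h.2.mono hm⟩

theorem Gr.conj (h : Gr M m σ) (he : IsoN n M N e) (hm : m ≤ n) :
    Gr N m ((e.symm.trans σ).trans e) := by
  refine ⟨(h.1.image e).subset ?_, ((he.mono hm).symm.trans h.2).trans (he.mono hm)⟩
  intro y hy
  refine ⟨e.symm y, ?_, by simp⟩
  intro hcon
  apply hy
  simp only [Equiv.trans_apply]
  rw [hcon, Equiv.apply_symm_apply]

/-! ### Orbits -/

theorem Ob.refl (x : V) : Ob M n x x := ⟨1, Gr.one, rfl⟩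

theorem Ob.symm (h : Ob M n x y) : Ob M n y x := by
  obtain ⟨σ, h1, h2⟩ := h
  refine ⟨σ⁻¹, h1.inv, ?_⟩
  rw [← h2]
  simp

theorem Ob.trans (h : Ob M n x y) (h' : Ob M n y z) : Ob M n x z := by
  obtain ⟨σ, h1, h2⟩ := h
  obtain ⟨τ, h3, h4⟩ := h'
  refine ⟨τ * σ, h3.mul h1, ?_⟩
  rw [Equiv.Perm.mul_apply, h2, h4]

theorem Ob.mono (h : Ob M n x y) (hm : m ≤ n) : Ob M m x y := by
  obtain ⟨σ, h1, h2⟩ := h
  exact ⟨σ, h1.mono hm, h2⟩

theorem ob_iff (he : IsoN n M N e) (hm : m ≤ n) : Ob M m x y ↔ Ob N m (e x) (e y) := by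
  constructor
  · rintro ⟨σ, h1, h2⟩
    refine ⟨_, h1.conj he hm, ?_⟩
    simp [h2]
  · rintro ⟨σ, h1, h2⟩
    refine ⟨_, h1.conj he.symm hm, ?_⟩
    simp [h2]

/-! ### Algebraicity -/

theorem ac_self (h : x ∈ A) : Ac M n A x := by
  refine (Set.finite_singleton x).subset ?_
  rintro y ⟨σ, _, h1, h2⟩
  rw [Set.mem_singleton_iff, ← h2]
  exact h1 x h

theorem Ac.mono_set (h : Ac M n A x) (hAB : A ⊆ B) : Ac M n B x := by
  refine Set.Finite.subset h ?_
  rintro y ⟨σ, h1, h2, h3⟩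
  exact ⟨σ, h1, fun z hz => h2 z (hAB hz), h3⟩

theorem Ac.mono (h : Ac M m A x) (hm : m ≤ n) : Ac M n A x := by
  refine Set.Finite.subset h ?_
  rintro y ⟨σ, h1, h2, h3⟩
  exact ⟨σ, h1.mono hm, h2, h3⟩

/-- the orbit of `y` over `A` is finite if the orbits of `x` over `A` and of `y` over `x` are -/
theorem Ac.trans (h : Ac M n A x) (h' : Ac M n {x} y) : Ac M n A y := by
  classical
  have hO : ∀ o : V, ∃ s : Equiv.Perm V,
      (o ∈ {y | ∃ σ : Equiv.Perm V, Gr M n σ ∧ (∀ z ∈ A, σ z = z) ∧ σ x = y} →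
        Gr M n s ∧ (∀ z ∈ A, s z = z) ∧ s x = o) := by
    intro o
    by_cases ho : o ∈ {y | ∃ σ : Equiv.Perm V, Gr M n σ ∧ (∀ z ∈ A, σ z = z) ∧ σ x = y}
    · obtain ⟨s, hs⟩ := ho
      exact ⟨s, fun _ => hs⟩
    · exact ⟨1, fun h => absurd h ho⟩
  choose s hs using hO
  have hfin : (⋃ o ∈ {y | ∃ σ : Equiv.Perm V, Gr M n σ ∧ (∀ z ∈ A, σ z = z) ∧ σ x = y},
      s o '' {w | ∃ σ : Equiv.Perm V, Gr M n σ ∧ (∀ z ∈ ({x} : Set V), σ z = z) ∧ σ y = w}).Finite :=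
    Set.Finite.biUnion h fun o _ => Set.Finite.image (s o) h'
  refine hfin.subset ?_
  rintro w ⟨σ, h1, h2, h3⟩
  have ho : σ x ∈ {y | ∃ σ : Equiv.Perm V, Gr M n σ ∧ (∀ z ∈ A, σ z = z) ∧ σ x = y} :=
    ⟨σ, h1, h2, rfl⟩
  obtain ⟨h4, h5, h6⟩ := hs (σ x) ho
  refine Set.mem_biUnion ho ?_
  refine ⟨((s (σ x))⁻¹ * σ) y, ⟨(s (σ x))⁻¹ * σ, h4.inv.mul h1, ?_, rfl⟩, ?_⟩
  · intro z hz
    rw [Set.mem_singleton_iff] at hz
    subst hz
    rw [Equiv.Perm.mul_apply, Equiv.Perm.inv_eq_iff_eq]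
    exact h6.symm
  · rw [Equiv.Perm.mul_apply]
    simp [h3]

theorem ac_map (he : IsoN n M N e) (hm : m ≤ n) (h : Ac M m A x) : Ac N m (e '' A) (e x) := by
  refine (Set.Finite.image e h).subset ?_
  rintro y ⟨σ, h1, h2, h3⟩
  refine ⟨e.symm y, ⟨_, h1.conj he.symm hm, ?_, ?_⟩, by simp⟩
  · intro z hz
    have := h2 (e z) ⟨z, hz, rfl⟩
    simp [this]
  · simp [h3]

theorem ac_iff (he : IsoN n M N e) (hm : m ≤ n) : Ac M m A x ↔ Ac N m (e '' A) (e x) := by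
  constructor
  · exact ac_map he hm
  · intro h
    have h1 := ac_map he.symm hm h
    rwa [Equiv.symm_image_image, Equiv.symm_apply_apply] at h1

theorem ac_iff_singleton (he : IsoN n M N e) (hm : m ≤ n) :
    Ac M m {y} x ↔ Ac N m {e y} (e x) := by
  rw [ac_iff he hm, Set.image_singleton]

theorem ac_iff_empty (he : IsoN n M N e) (hm : m ≤ n) : Ac M m ∅ x ↔ Ac N m ∅ (e x) := by
  rw [ac_iff he hm, Set.image_empty]

theorem Gr.ac_iff (h : Gr M n σ) (hm : m ≤ n) : Ac M m A x ↔ Ac M m (σ '' A) (σ x) :=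
  Pool.Agent.H566X.ac_iff h.2 hm

theorem Gr.ac_iff_singleton (h : Gr M n σ) (hm : m ≤ n) :
    Ac M m {y} x ↔ Ac M m {σ y} (σ x) :=
  Pool.Agent.H566X.ac_iff_singleton h.2 hm

theorem Ob.ac_empty (h : Ob M n x y) (hm : m ≤ n) : Ac M m ∅ x ↔ Ac M m ∅ y := by
  obtain ⟨σ, h1, h2⟩ := h
  rw [← h2]
  exact ac_iff_empty h1.2 hm

/-- if `x` is not algebraic over `A`, its orbit over `A` contains elements outside every finite
set -/
theorem exists_of_not_ac (h : ¬ Ac M n A x) {F : Set V} (hF : F.Finite) :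
    ∃ σ, Gr M n σ ∧ (∀ z ∈ A, σ z = z) ∧ σ x ∉ F := by
  by_contra hcon
  push Not at hcon
  apply h
  refine hF.subset ?_
  rintro y ⟨σ, h1, h2, h3⟩
  rw [← h3]
  exact hcon σ h1 h2

/-! ### Blocks -/

theorem Bl.refl (h : ¬ Ac M n ∅ x) : Bl M n x x := ⟨ac_self rfl, h⟩

theorem Bl.symm (hM : Cell M n) (h : Bl M n x y) : Bl M n y x := by
  refine ⟨hM.exc y x h.1 h.2, ?_⟩
  intro hcon
  exact h.2 (hcon.trans h.1)

theorem Bl.trans (h : Bl M n x y) (h' : Bl M n y z) : Bl M n x z :=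
  ⟨h.1.trans h'.1, h'.2⟩

theorem Bl.not_ac (h : Bl M n x y) : ¬ Ac M n ∅ y := h.2

theorem bl_iff (he : IsoN n M N e) (hm : m ≤ n) : Bl M m x y ↔ Bl N m (e x) (e y) := by
  unfold Bl
  rw [ac_iff_singleton he hm, ac_iff_empty he hm]

theorem Gr.bl_iff (h : Gr M n σ) (hm : m ≤ n) : Bl M m x y ↔ Bl M m (σ x) (σ y) :=
  Pool.Agent.H566X.bl_iff h.2 hm

theorem bl_finite (hM : Cell M n) (x : V) : {y | Bl M n x y}.Finite :=
  (hM.fin {x} (Set.finite_singleton x)).subset fun _ hy => hy.1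

/-- an element is algebraic over a finite set iff it is algebraic over `∅` or in the block of an
element of the set -/
theorem ac_iff_bl (hM : Cell M n) (hA : A.Finite) :
    Ac M n A x ↔ Ac M n ∅ x ∨ ∃ z ∈ A, Bl M n z x := by
  constructor
  · intro h
    by_cases h0 : Ac M n ∅ x
    · exact Or.inl h0
    · rcases hM.uni A x hA h with h1 | ⟨z, hz, h1⟩
      · exact Or.inl h1
      · exact Or.inr ⟨z, hz, h1, h0⟩
  · rintro (h | ⟨z, hz, h⟩)
    · exact h.mono_set (Set.empty_subset A)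
    · exact h.1.mono_set (Set.singleton_subset_iff.2 hz)

theorem Cell.map (h : Cell M n) (he : IsoN n M N e) : Cell N n := by
  have h1 : ∀ (A : Set W) (x : W), Ac N n A x ↔ Ac M n (e.symm '' A) (e.symm x) :=
    fun A x => Pool.Agent.H566X.ac_iff he.symm le_rfl
  have h2 : ∀ (y x : W), Ac N n {y} x ↔ Ac M n {e.symm y} (e.symm x) :=
    fun y x => Pool.Agent.H566X.ac_iff_singleton he.symm le_rfl
  have h3 : ∀ (x : W), Ac N n ∅ x ↔ Ac M n ∅ (e.symm x) :=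
    fun x => Pool.Agent.H566X.ac_iff_empty he.symm le_rfl
  have h4 : ∀ (x y : W), Bl N n x y ↔ Bl M n (e.symm x) (e.symm y) :=
    fun x y => Pool.Agent.H566X.bl_iff he.symm le_rfl
  refine ⟨?_, ?_, ?_, ?_, ?_⟩
  · intro A hA
    have h5 : {x | Ac N n A x} = e.symm ⁻¹' {x | Ac M n (e.symm '' A) x} := by
      ext x
      exact h1 A x
    rw [h5]
    exact (h.fin _ (hA.image _)).preimage e.symm.injective.injOn
  · obtain ⟨T, hT, hT2⟩ := h.orb
    refine ⟨e '' T, hT.image e, ?_⟩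
    intro x
    obtain ⟨y, hy, hxy⟩ := hT2 (e.symm x)
    refine ⟨e y, ⟨y, hy, rfl⟩, ?_⟩
    have := (Pool.Agent.H566X.ob_iff he le_rfl).1 hxy
    rwa [Equiv.apply_symm_apply] at this
  · intro A x hA hx
    rcases h.uni (e.symm '' A) (e.symm x) (hA.image _) ((h1 A x).1 hx) with h5 | ⟨z, ⟨w, hw, rfl⟩, h5⟩
    · exact Or.inl ((h3 x).2 h5)
    · exact Or.inr ⟨w, hw, (h2 w x).2 h5⟩
  · intro x z h5 h6
    rw [h2] at h5 ⊢
    rw [h3] at h6
    exact h.exc _ _ h5 h6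
  · intro A x hA hx
    rw [h3] at hx
    obtain ⟨s, hs1, hs2, hs3, hs4⟩ := h.far (e.symm '' A) (e.symm x) (hA.image _) hx
    refine ⟨(e.symm.trans s).trans e, hs1.conj he le_rfl, ?_, ?_, ?_⟩
    · intro y
      simp only [Equiv.trans_apply, Equiv.symm_apply_apply]
      rw [hs2, Equiv.apply_symm_apply]
    · intro y hy
      rw [h4] at hy
      obtain ⟨h5, h6⟩ := hs3 _ hy
      constructor
      · intro hcon
        apply h5
        refine ⟨_, hcon, ?_⟩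
        simp
      · rw [h4]
        simpa using h6
    · intro y hy hy2
      rw [h4] at hy hy2
      have h5 := hs4 (e.symm y) hy (by simpa using hy2)
      simp [h5]

end Pool.Agent.H566X

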