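import Pool.Agent.H566X.LibA

/-! Elementary library, part B: algebraicity at some level, mates, kinds. -/

set_option autoImplicit false

namespace Pool.Agent.H566X

open Set

variable {a : ℕ → ℕ} {V W : Type} {M : RS a V} {m n : ℕ}
  {A B : Set V} {x y z u c : V} {x' y' z' : V}

/-! ### Algebraicity at some level -/

theorem aci_self (h : x ∈ A) : AcI M A x := ⟨0, ac_self h⟩

theorem AcI.mono (h : AcI M A x) (hAB : A ⊆ B) : AcI M B x := by
  obtain ⟨n, hn⟩ := h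
  exact ⟨n, hn.mono_set hAB⟩

theorem AcI.of_empty (h : AcI M ∅ x) : AcI M A x := h.mono (empty_subset A)

theorem AcI.trans (h : AcI M A x) (h' : AcI M {x} y) : AcI M A y := by
  obtain ⟨m, hm⟩ := h
  obtain ⟨n, hn⟩ := h'
  exact ⟨max m n, (hm.mono (le_max_left _ _)).trans (hn.mono (le_max_right _ _))⟩

/-- algebraic over a finite set of algebraic elements -/
theorem AcI.trans_set (hM : AC M) (h : ∀ z ∈ B, AcI M A z) (hB : B.Finite) (h' : AcI M B y) :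
    AcI M A y := by
  obtain ⟨n, hn⟩ := h'
  rcases (hM n).uni B y hB hn with h1 | ⟨z, hz, h1⟩
  · exact AcI.of_empty ⟨n, h1⟩
  · exact (h z hz).trans ⟨n, h1⟩

theorem aci_uni (hM : AC M) (hA : A.Finite) (h : AcI M A x) :
    AcI M ∅ x ∨ ∃ z ∈ A, AcI M {z} x := by
  obtain ⟨n, hn⟩ := h
  rcases (hM n).uni A x hA hn with h1 | ⟨z, hz, h1⟩
  · exact Or.inl ⟨n, h1⟩
  · exact Or.inr ⟨z, hz, n, h1⟩

theorem aci_exc (hM : AC M) (h : AcI M {z} x) (hx : ¬ AcI M ∅ x) : AcI M {x} z := by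
  obtain ⟨n, hn⟩ := h
  exact ⟨n, (hM n).exc x z hn (fun hc => hx ⟨n, hc⟩)⟩

theorem aci_exc' (h : AcI M {z} x) (hx : ¬ AcI M ∅ x) : ¬ AcI M ∅ z :=
  fun hz => hx (hz.trans h)

/-! ### Mates -/

theorem Eqv.refl (x : V) : Eqv M x x := fun _ => Ob.refl x

theorem Eqv.symm (h : Eqv M x y) : Eqv M y x := fun n => (h n).symm

theorem Eqv.trans (h : Eqv M x y) (h' : Eqv M y z) : Eqv M x z := fun n => (h n).trans (h' n)

theorem Eqv.aci_empty (h : Eqv M x y) : AcI M ∅ x ↔ AcI M ∅ y := by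
  constructor
  · rintro ⟨n, hn⟩
    exact ⟨n, ((h n).ac_empty le_rfl).1 hn⟩
  · rintro ⟨n, hn⟩
    exact ⟨n, ((h n).ac_empty le_rfl).2 hn⟩

theorem Eqv2.left (h : Eqv2 M x x' y y') : Eqv M x y := by
  intro n
  obtain ⟨σ, hσ, h1, _⟩ := h n
  exact ⟨σ, hσ, h1⟩

theorem Eqv2.right (h : Eqv2 M x x' y y') : Eqv M x' y' := by
  intro n
  obtain ⟨σ, hσ, _, h2⟩ := h n
  exact ⟨σ, hσ, h2⟩

theorem Eqv2.symm (h : Eqv2 M x x' y y') : Eqv2 M y y' x x' := by
  intro n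
  obtain ⟨σ, hσ, h1, h2⟩ := h n
  refine ⟨σ⁻¹, hσ.inv, ?_, ?_⟩
  · rw [← h1]; simp
  · rw [← h2]; simp

theorem Eqv2.swap (h : Eqv2 M x x' y y') : Eqv2 M x' x y' y := by
  intro n
  obtain ⟨σ, hσ, h1, h2⟩ := h n
  exact ⟨σ, hσ, h2, h1⟩

theorem Eqv2.aci (h : Eqv2 M x x' y y') : AcI M {x} x' ↔ AcI M {y} y' := by
  constructor
  · rintro ⟨n, hn⟩
    obtain ⟨σ, hσ, h1, h2⟩ := h n
    refine ⟨n, ?_⟩
    rw [← h1, ← h2]
    exact (hσ.ac_iff_singleton le_rfl).1 hn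
  · rintro ⟨n, hn⟩
    obtain ⟨σ, hσ, h1, h2⟩ := h n
    refine ⟨n, ?_⟩
    rw [← h1, ← h2] at hn
    exact (hσ.ac_iff_singleton le_rfl).2 hn

/-- block transfer: if `c` is algebraic over `u` and `y` is a mate of `u`, there is `x` algebraic
over `y` such that `(y, x)` is a mate of `(u, c)` (finiteness of `{x | Ac M n {y} x}` and
pigeonhole) -/
theorem bt (hM : AC M) (h : AcI M {u} c) (h' : Eqv M u y) :
    ∃ x, AcI M {y} x ∧ Eqv2 M u c y x := by
  obtain ⟨n, hn⟩ := h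
  choose s hs hsu using h'
  have hfin : {x | Ac M n {y} x}.Finite := (hM n).fin {y} (finite_singleton y)
  have hmem : ∀ m : ℕ, s (m + n) c ∈ {x | Ac M n {y} x} := by
    intro m
    have h1 := (((hs (m + n)).ac_iff_singleton (Nat.le_add_left n m)).1 hn)
    rw [hsu] at h1
    exact h1
  have : Finite {x | Ac M n {y} x} := hfin.to_subtype
  obtain ⟨⟨w, hw⟩, hw'⟩ := Finite.exists_infinite_fiber
    (fun m : ℕ => (⟨s (m + n) c, hmem m⟩ : {x | Ac M n {y} x}))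
  have hinf : (((fun m : ℕ => (⟨s (m + n) c, hmem m⟩ : {x | Ac M n {y} x})) ⁻¹'
    {⟨w, hw⟩}) : Set ℕ).Infinite := Set.infinite_coe_iff.1 hw'
  refine ⟨w, ⟨n, hw⟩, ?_⟩
  intro k
  obtain ⟨m, hm, hkm⟩ := hinf.exists_gt k
  refine ⟨s (m + n), (hs (m + n)).mono (by omega), hsu _, ?_⟩
  have h2 := congrArg Subtype.val (Set.mem_singleton_iff.1 hm)
  exact h2

/-- transfer of infinitely many algebraic elements in one orbit (no compactness: work at large
finite levels) -/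
theorem inf_transfer (hM : AC M) (h : Eqv M x y)
    (hi : {c | AcI M {x} c ∧ Ob M m z c}.Infinite) :
    {c | AcI M {y} c ∧ Ob M m z c}.Infinite := by
  intro hfin
  obtain ⟨S, hS, hcard⟩ := hi.exists_subset_card_eq
    ({c | AcI M {y} c ∧ Ob M m z c}.ncard + 1)
  have hlev : ∀ c, ∃ n : ℕ, c ∈ S → Ac M n {x} c := by
    intro c
    by_cases hc : c ∈ S
    · obtain ⟨n, hn⟩ := (hS hc).1
      exact ⟨n, fun _ => hn⟩
    · exact ⟨0, fun hc' => absurd hc' hc⟩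
  choose l hl using hlev
  set k := max m (S.sup l) with hk
  obtain ⟨s, hs, hsx⟩ := h k
  have hsub : (s '' (S : Set V)) ⊆ {c | AcI M {y} c ∧ Ob M m z c} := by
    rintro _ ⟨c, hc, rfl⟩
    have hc' : c ∈ S := hc
    have h1 : Ac M k {x} c := (hl c hc').mono ((Finset.le_sup hc').trans (le_max_right _ _))
    have h2 := (hs.ac_iff_singleton le_rfl).1 h1
    rw [hsx] at h2
    refine ⟨⟨k, h2⟩, (hS hc).2.trans ⟨s, hs.mono (le_max_left _ _), rfl⟩⟩
  have h3 : (s '' (S : Set V)).ncard ≤ {c | AcI M {y} c ∧ Ob M m z c}.ncard :=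
    Set.ncard_le_ncard hsub hfin
  rw [Set.ncard_image_of_injective _ s.injective, Set.ncard_coe_finset, hcard] at h3
  omega

/-! ### Kinds -/

theorem tri_refl (x : V) : Tri M x x := ⟨x, aci_self (mem_singleton x), Eqv.refl x⟩

theorem tri_of_eqv (h : Eqv M x y) : Tri M x y := ⟨y, aci_self (mem_singleton y), h.symm⟩

theorem tri_of_aci (h : AcI M {y} x) : Tri M x y := ⟨x, h, Eqv.refl x⟩

theorem tri_symm (hM : AC M) (hx : ¬ AcI M ∅ x) (h : Tri M x y) : Tri M y x := by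
  obtain ⟨c, hc, hcx⟩ := h
  have hc0 : ¬ AcI M ∅ c := fun h0 => hx (hcx.aci_empty.1 h0)
  obtain ⟨w, hw, hw2⟩ := bt hM (aci_exc hM hc hc0) hcx
  exact ⟨w, hw, hw2.right.symm⟩

theorem tri_trans (hM : AC M) (h : Tri M x y) (h' : Tri M y z) : Tri M x z := by
  obtain ⟨c, hc, hcx⟩ := h
  obtain ⟨d, hd, hdy⟩ := h'
  obtain ⟨w, hw, hw2⟩ := bt hM hc hdy.symm
  exact ⟨w, hd.trans hw, hw2.right.symm.trans hcx⟩

theorem Tri.aci_empty (h : Tri M x y) (hy : AcI M ∅ y) : AcI M ∅ x := by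
  obtain ⟨c, hc, hcx⟩ := h
  exact hcx.aci_empty.1 (hy.trans hc)

/-! ### Independent mates -/

theorem InfM.congr (h : InfM M x) (h' : Eqv M x y) : InfM M y := by
  intro A hA
  obtain ⟨w, hw, hw'⟩ := h A hA
  exact ⟨w, h'.symm.trans hw, hw'⟩

theorem InfM.not_aci (h : InfM M x) : ¬ AcI M ∅ x := by
  obtain ⟨w, hw, hw'⟩ := h ∅ finite_empty
  exact fun h0 => hw' (hw.aci_empty.1 h0)

theorem inf_seq (hM : AC M) (h : InfM M x) : ∃ f : ℕ → V, (∀ j, Eqv M x (f j)) ∧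
    (∀ j, ¬ AcI M ∅ (f j)) ∧ ∀ j j', j ≠ j' → ¬ AcI M {f j'} (f j) := by
  obtain ⟨f, hf1, hf2⟩ := exists_seq_of_forall_finset_exists (fun w => Eqv M x w)
    (fun u w => ¬ AcI M {u} w) (fun s _ => by
      obtain ⟨w, hw, hw'⟩ := h (s : Set V) s.finite_toSet
      exact ⟨w, hw, fun u hu hc => hw' (hc.mono (by simpa using hu))⟩)
  have h0 : ∀ j, ¬ AcI M ∅ (f j) := fun j hc => h.not_aci ((hf1 j).aci_empty.2 hc)
  refine ⟨f, hf1, h0, ?_⟩
  intro j j' hjj hc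
  rcases lt_or_gt_of_ne hjj with hlt | hgt
  · exact hf2 j j' hlt (aci_exc hM hc (h0 j))
  · exact hf2 j' j hgt hc

/-- pigeonhole: of `k + 1` pairwise independent elements one is independent of a given set with
`k` elements -/
theorem pigeon (hM : AC M) {k : ℕ} {f : Fin (k + 1) → V} (h0 : ∀ j, ¬ AcI M ∅ (f j))
    (hf : ∀ j j', j ≠ j' → ¬ AcI M {f j'} (f j)) (hA : A.Finite) (hk : A.ncard ≤ k) :
    ∃ j, ¬ AcI M A (f j) := by
  by_contra hcon
  push Not at hcon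
  have hz : ∀ j, ∃ z ∈ A, AcI M {z} (f j) := fun j =>
    (aci_uni hM hA (hcon j)).resolve_left (h0 j)
  choose z hzA hz' using hz
  have hcard : hA.toFinset.card < (Finset.univ : Finset (Fin (k + 1))).card := by
    rw [Finset.card_univ, Fintype.card_fin, ← Set.ncard_eq_toFinset_card A hA]
    omega
  obtain ⟨j, _, j', _, hjj, hzz⟩ := Finset.exists_ne_map_eq_of_card_lt_of_maps_to hcard
    (f := z) (fun j _ => by simpa using hzA j)
  have h1 : AcI M {f j'} (z j') := aci_exc hM (hz' j') (h0 j')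
  rw [← hzz] at h1
  exact hf j j' hjj (h1.trans (hz' j))

/-- being in `InfM` is a property of the kind -/
theorem InfM.of_tri (hM : AC M) (h : InfM M y) (hx : ¬ AcI M ∅ x) (h' : Tri M x y) :
    InfM M x := by
  obtain ⟨c, hc, hcx⟩ := h'
  have hc0 : ¬ AcI M ∅ c := fun h0 => hx (hcx.aci_empty.1 h0)
  intro A hA
  obtain ⟨w, hw, hwA⟩ := h A hA
  obtain ⟨c', hc', hc2⟩ := bt hM hc hw
  have hc'0 : ¬ AcI M ∅ c' := fun h0 => hc0 (hc2.right.aci_empty.2 h0)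
  refine ⟨c', hcx.symm.trans hc2.right, ?_⟩
  intro hAc
  exact hwA (hAc.trans (aci_exc hM hc' hc'0))

end Pool.Agent.H566X

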