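import Pool.Agent.H566X.LibB

/-! Elementary library, part C: the back-and-forth relations `W0`, `Wk`, `WW`, `WH`; transport
along isomorphisms. -/

set_option autoImplicit false

namespace Pool.Agent.H566X

open Set

variable {a : ℕ → ℕ} {V W : Type} {M : RS a V} {N : RS a W} {m n : ℕ}
  {p q : Set (V × W)} {x y z : V} {x' y' z' : W}

theorem W0.mono (h : W0 M N q) (hpq : p ⊆ q) : W0 M N p := by
  intro n
  obtain ⟨e, he, hu⟩ := h n
  exact ⟨e, he, fun u hu' => hu u (hpq hu')⟩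

theorem W0.symm (h : W0 M N p) : W0 N M (Prod.swap '' p) := by
  intro n
  obtain ⟨e, he, hu⟩ := h n
  refine ⟨e.symm, he.symm, ?_⟩
  rintro _ ⟨u, hu', rfl⟩
  change e.symm u.2 = u.1
  rw [← hu u hu', Equiv.symm_apply_apply]

theorem W0.inj (h : W0 M N p) (hx : (x, x') ∈ p) (hy : (y, y') ∈ p) : x = y ↔ x' = y' := by
  obtain ⟨e, he, hu⟩ := h 0
  have h1 : e x = x' := hu _ hx
  have h2 : e y = y' := hu _ hy
  rw [← h1, ← h2, e.injective.eq_iff]

theorem W0.ob (h : W0 M N p) (hx : (x, x') ∈ p) (hy : (y, y') ∈ p) :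
    Ob M n x y ↔ Ob N n x' y' := by
  obtain ⟨e, he, hu⟩ := h n
  have h1 : e x = x' := hu _ hx
  have h2 : e y = y' := hu _ hy
  rw [ob_iff he le_rfl, h1, h2]

theorem W0.eqv (h : W0 M N p) (hx : (x, x') ∈ p) (hy : (y, y') ∈ p) :
    Eqv M x y ↔ Eqv N x' y' :=
  forall_congr' fun _ => h.ob hx hy

theorem W0.aci_set (h : W0 M N p) (hx : (x, x') ∈ p) (hq : q ⊆ p) :
    AcI M (Prod.fst '' q) x ↔ AcI N (Prod.snd '' q) x' := by
  refine exists_congr fun n => ?_
  obtain ⟨e, he, hu⟩ := h n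
  have h1 : e x = x' := hu _ hx
  have h2 : e '' (Prod.fst '' q) = Prod.snd '' q := by
    rw [image_image]
    exact image_congr fun u hu' => hu u (hq hu')
  rw [ac_iff he le_rfl, h1, h2]

theorem W0.aci (h : W0 M N p) (hx : (x, x') ∈ p) (hy : (y, y') ∈ p) :
    AcI M {x} y ↔ AcI N {x'} y' := by
  have h1 := h.aci_set hy (singleton_subset_iff.2 hx)
  rwa [image_singleton, image_singleton] at h1

theorem W0.aci_empty (h : W0 M N p) (hx : (x, x') ∈ p) : AcI M ∅ x ↔ AcI N ∅ x' := by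
  have h1 := h.aci_set hx (empty_subset p)
  rwa [image_empty, image_empty] at h1

theorem Wk.w0 {k : ℕ} (h : Wk M N k p) : W0 M N p := by
  cases k with
  | zero => exact h
  | succ k => exact h.1

theorem Wk.mono {j k : ℕ} (h : Wk M N k q) (hj : j ≤ k) (hpq : p ⊆ q) : Wk M N j p := by
  induction j generalizing k p q with
  | zero => exact h.w0.mono hpq
  | succ j ih =>
    obtain ⟨k, rfl⟩ : ∃ k', k = k' + 1 := ⟨k - 1, by omega⟩
    have hj' : j ≤ k := by omega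
    obtain ⟨h1, h2, h3⟩ := h
    refine ⟨h1.mono hpq, fun x => ?_, fun y => ?_⟩
    · obtain ⟨y, hy⟩ := h2 x
      exact ⟨y, ih hy hj' (insert_subset_insert hpq)⟩
    · obtain ⟨x, hx⟩ := h3 y
      exact ⟨x, ih hx hj' (insert_subset_insert hpq)⟩

theorem Wk.symm {k : ℕ} (h : Wk M N k p) : Wk N M k (Prod.swap '' p) := by
  induction k generalizing p with
  | zero => exact W0.symm h
  | succ k ih =>
    obtain ⟨h1, h2, h3⟩ := h
    refine ⟨h1.symm, fun x => ?_, fun y => ?_⟩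
    · obtain ⟨y, hy⟩ := h3 x
      refine ⟨y, ?_⟩
      have h4 := ih hy
      rwa [image_insert_eq] at h4
    · obtain ⟨x, hx⟩ := h2 y
      refine ⟨x, ?_⟩
      have h4 := ih hx
      rwa [image_insert_eq] at h4

theorem WW.symm (h : WW M N p) : WW N M (Prod.swap '' p) := fun k => (h k).symm

theorem WH.symm (h : WH M N p) : WH N M (Prod.swap '' p) := by
  obtain ⟨h1, h2, h3⟩ := h
  refine ⟨h1.symm, fun x => ?_, fun y => ?_⟩
  · obtain ⟨y, hy⟩ := h3 x
    refine ⟨y, ?_⟩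
    have h4 := hy.symm
    rwa [image_insert_eq] at h4
  · obtain ⟨x, hx⟩ := h2 y
    refine ⟨x, ?_⟩
    have h4 := hx.symm
    rwa [image_insert_eq] at h4

theorem WW.w0 (h : WW M N p) : W0 M N p := h 0

theorem Wk.forth {k : ℕ} (h : Wk M N k p) (f : Fin k → V) :
    ∃ g : Fin k → W, W0 M N (p ∪ range fun j => (f j, g j)) := by
  induction k generalizing p with
  | zero =>
    refine ⟨fun j => j.elim0, ?_⟩
    refine W0.mono h ?_
    rintro u (hu | ⟨j, _⟩)
    · exact hu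
    · exact j.elim0
  | succ k ih =>
    obtain ⟨_, h2, _⟩ := h
    obtain ⟨y, hy⟩ := h2 (f 0)
    obtain ⟨g, hg⟩ := ih hy (Fin.tail f)
    refine ⟨Fin.cons y g, hg.mono ?_⟩
    rintro u (hu | ⟨j, rfl⟩)
    · exact Or.inl (Or.inr hu)
    · refine Fin.cases ?_ (fun j => ?_) j
      · left
        left
        rfl
      · right
        exact ⟨j, rfl⟩

theorem Wk.back {k : ℕ} (h : Wk M N k p) (g : Fin k → W) :
    ∃ f : Fin k → V, W0 M N (p ∪ range fun j => (f j, g j)) := by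
  obtain ⟨f, hf⟩ := h.symm.forth g
  refine ⟨f, hf.symm.mono ?_⟩
  rintro u (hu | ⟨j, rfl⟩)
  · exact ⟨u.swap, Or.inl ⟨u, hu, rfl⟩, Prod.swap_swap u⟩
  · exact ⟨(g j, f j), Or.inr ⟨j, rfl⟩, rfl⟩

/-! ### Transport along an isomorphism -/

variable {e : V ≃ W}

theorem Iso.ob (h : Iso M N e) : Ob M n x y ↔ Ob N n (e x) (e y) := ob_iff h.isoN le_rfl

theorem Iso.aci (h : Iso M N e) {A : Set V} : AcI M A x ↔ AcI N (e '' A) (e x) :=
  exists_congr fun n => ac_iff (n := n) h.isoN le_rfl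

theorem Iso.aci_empty (h : Iso M N e) : AcI M ∅ x ↔ AcI N ∅ (e x) :=
  exists_congr fun n => ac_iff_empty (n := n) h.isoN le_rfl

theorem Iso.aci_singleton (h : Iso M N e) : AcI M {y} x ↔ AcI N {e y} (e x) :=
  exists_congr fun n => ac_iff_singleton (n := n) h.isoN le_rfl

theorem Iso.eqv (h : Iso M N e) : Eqv M x y ↔ Eqv N (e x) (e y) :=
  forall_congr' fun _ => h.ob

theorem Iso.tight (h : Iso M N e) : Tight M x ↔ Tight N (e x) := by
  refine exists_congr fun m => and_congr ?_ ?_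
  · refine e.forall_congr fun {y} => ?_
    rw [h.ob (y := y), h.eqv (y := y)]
  · have h1 : {y' | Ob N m (e x) y' ∧ AcI N {e x} y'} =
        e '' {y | Ob M m x y ∧ AcI M {x} y} := by
      ext y'
      constructor
      · rintro ⟨h2, h3⟩
        refine ⟨e.symm y', ⟨?_, ?_⟩, e.apply_symm_apply y'⟩
        · rw [h.ob, e.apply_symm_apply]
          exact h2
        · rw [h.aci_singleton, e.apply_symm_apply]
          exact h3
      · rintro ⟨y, ⟨h2, h3⟩, rfl⟩
        exact ⟨h.ob.1 h2, h.aci_singleton.1 h3⟩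
    rw [h1, finite_image_iff e.injective.injOn]

theorem lc_infM (h : Iso M N e) (hx : InfM M x) : InfM N (e x) := by
  intro A hA
  obtain ⟨y, h1, h2⟩ := hx (e.symm '' A) (hA.image _)
  refine ⟨e y, h.eqv.1 h1, ?_⟩
  rw [h.aci] at h2
  rwa [Equiv.image_symm_image] at h2

theorem Iso.infM (h : Iso M N e) : InfM M x ↔ InfM N (e x) := by
  refine ⟨lc_infM h, fun h1 => ?_⟩
  have h2 := lc_infM h.symm h1
  rwa [e.symm_apply_apply] at h2

theorem lc_tri (h : Iso M N e) (hx : Tri M x y) : Tri N (e x) (e y) := by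
  obtain ⟨c, h1, h2⟩ := hx
  exact ⟨e c, h.aci_singleton.1 h1, h.eqv.1 h2⟩

theorem Iso.tri (h : Iso M N e) : Tri M x y ↔ Tri N (e x) (e y) := by
  refine ⟨lc_tri h, fun h1 => ?_⟩
  have h2 := lc_tri h.symm h1
  rwa [e.symm_apply_apply, e.symm_apply_apply] at h2

theorem Iso.bad (h : Iso M N e) {f : ℕ → V} (hf : Bad M f) : Bad N (fun i => e (f i)) := by
  refine ⟨fun i => ⟨fun h1 => (hf.1 i).1 (h.aci_empty.2 h1),
    fun h1 => (hf.1 i).2 (h.tight.2 h1)⟩, fun i j hij h1 => hf.2 i j hij (h.tri.2 h1)⟩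

theorem lc_multGe (h : Iso M N e) {k : ℕ} (hx : MultGe M x k) : MultGe N (e x) k := by
  obtain ⟨f, h1, h2⟩ := hx
  exact ⟨fun j => e (f j), fun j => h.eqv.1 (h1 j),
    fun j j' hj h3 => h2 j j' hj (h.aci_singleton.2 h3)⟩

theorem Iso.multGe (h : Iso M N e) {k : ℕ} : MultGe M x k ↔ MultGe N (e x) k := by
  refine ⟨lc_multGe h, fun h1 => ?_⟩
  have h2 := lc_multGe h.symm h1
  rwa [e.symm_apply_apply] at h2

theorem lc_fms (h : Iso M N e) : FMS M ⊆ FMS N := by
  rintro k ⟨x, h1, h2, h3⟩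
  exact ⟨e x, fun h4 => h1 (h.aci_empty.2 h4), h.multGe.1 h2, fun h4 => h3 (h.multGe.2 h4)⟩

theorem Iso.fms (h : Iso M N e) : FMS M = FMS N :=
  subset_antisymm (lc_fms h) (lc_fms h.symm)

theorem Iso.ac (h : Iso M N e) (hM : AC M) : AC N := fun n => (hM n).map h.isoN

end Pool.Agent.H566X

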