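import Pool.Agent.H566X.Spec

/-! H566X, task SWP (helper93): exchange a block with its image. -/

set_option autoImplicit false

namespace Pool.Agent.H566X

open Set

theorem swp_ia {V : Type} (σ : Equiv.Perm V) (x : V) : σ⁻¹ (σ x) = x := σ.symm_apply_apply x

theorem swp_ai {V : Type} (σ : Equiv.Perm V) (x : V) : σ (σ⁻¹ x) = x := σ.apply_symm_apply x

theorem t_SWP : S_SWP := by
  intro a V M n hM x σ hx hσ hσB
  have hBf : {y | Bl M n x y}.Finite := bl_finite hM x
  set A0 : Set V := {y | σ y ≠ y} ∪ (σ '' {y | Bl M n x y}) with hA0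
  have hA0f : A0.Finite := hσ.1.union (hBf.image _)
  obtain ⟨s, hs, hss, hs1, hs2⟩ := hM.far A0 x hA0f hx
  have hw : ∀ y, (s * (σ * s * σ⁻¹) * s) y = s (σ (s (σ⁻¹ (s y)))) := fun y => rfl
  have hww : ∀ y, (s * (σ * s * σ⁻¹) * s) ((s * (σ * s * σ⁻¹) * s) y) = y := by
    intro y
    rw [hw, hw, hss, swp_ia, hss, swp_ai, hss]
  have hsupp : ∀ z, z ∉ A0 → σ z = z := by
    intro z hz
    by_contra h
    exact hz (Or.inl h)
  have hB : ∀ y, Bl M n x y → (s * (σ * s * σ⁻¹) * s) y = σ y := by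
    intro b hb
    have h1 : σ (s b) = s b := hsupp _ (hs1 b hb).1
    have h2 : σ⁻¹ (s b) = s b := by rw [Equiv.Perm.inv_eq_iff_eq, h1]
    rw [hw, h2, hss]
    refine hs2 _ (hσB b hb) ?_
    intro h
    have := (hs1 _ h).1
    rw [hss] at this
    exact this (Or.inr ⟨b, hb, rfl⟩)
  refine ⟨s * (σ * s * σ⁻¹) * s, (hs.mul ((hσ.mul hs).mul hσ.inv)).mul hs, hww, hB, ?_⟩
  intro y hy hwy
  have hyσ : ∀ b, Bl M n x b → σ b ≠ y := by
    intro b hb h
    apply hwy
    rw [← h, ← hB b hb, hww]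
    exact hb
  rw [hw]
  by_cases h : Bl M n x (s y)
  · have hc1 : ¬ Bl M n x (σ⁻¹ (s y)) := by
      intro hc
      have := hσB _ hc
      rw [swp_ai] at this
      exact this h
    have hc2 : ¬ Bl M n x (s (σ⁻¹ (s y))) := by
      intro hc
      have h3 := (hs1 _ hc).1
      rw [hss] at h3
      have h4 := hsupp _ h3
      rw [swp_ai] at h4
      rw [← h4] at hc1
      exact hc1 h
    rw [hs2 _ hc1 hc2, swp_ai, hss]
  · have h1 : s y = y := hs2 y hy h
    have hc1 : ¬ Bl M n x (σ⁻¹ y) := by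
      intro hc
      exact hyσ _ hc (swp_ai σ y)
    have hc2 : ¬ Bl M n x (s (σ⁻¹ y)) := by
      intro hc
      have h3 := (hs1 _ hc).1
      rw [hss] at h3
      have h4 := hsupp _ h3
      rw [swp_ai] at h4
      rw [← h4, h1] at hc
      exact hy hc
    rw [h1, hs2 _ hc1 hc2, swp_ai, h1]

end Pool.Agent.H566X
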