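import Pool.Agent.H566X.Spec

set_option autoImplicit false

namespace Pool.Agent.H566X

open Set

/-- extension of tuples by zeros -/
def t1_pad {m : ℕ} (r : ℕ) (t : Fin m → ℕ) : Fin r → ℕ :=
  fun k => if h : k.1 < m then t ⟨k.1, h⟩ else 0

theorem t1_lev {a : ℕ → ℕ} (n : ℕ) (M : RS a ℕ) (i : ℕ) (h : i < n) (t : Fin (a i) → ℕ) :
    lev n M (t1_pad _ t) ⟨i, h⟩ = M i t := by
  unfold lev
  simp only
  congr 1
  funext k
  simp [t1_pad]

theorem t_T1 (h : S_FB) : S_T1 := by
  classical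
  intro a C hC hinv hfew M hM n
  by_contra hnd
  have hpc : Pool.Agent.H566W.PC (lev n M) :=
    (Pool.Agent.H566W.isDec_or_pc (lev n M)).resolve_left hnd
  set B : Set (Pool.Agent.H566V.Str ((Finset.range n).sup a) (Fin n → Bool) ℕ) :=
    (lev n) '' C with hB
  have hlc : Continuous (fun M : RS a ℕ => lev n M) := by
    refine continuous_pi fun t => continuous_pi fun i => ?_
    exact (continuous_apply (fun k : Fin (a i) => t ⟨k.1, lt_of_lt_of_le k.2
      (Finset.le_sup (Finset.mem_range.2 i.2))⟩)).comp (continuous_apply i.1)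
  have hBc : IsClosed B := (hC.isCompact.image hlc).isClosed
  have hBi : Pool.Agent.H566V.PInv B := by
    rintro _ ⟨N, hN, rfl⟩ σ
    refine ⟨fun i t => N i (σ ∘ t), ?_, rfl⟩
    refine hinv N hN _ ⟨σ.symm, fun i t => ?_⟩
    show N i (σ ∘ (σ.symm ∘ t)) = N i t
    congr 1
    funext j
    simp
  have hbig : Pool.Agent.H566W.PBig B := by
    obtain ⟨g, hg1, hg2, hg3⟩ := hpc
    exact ⟨g, Pool.Agent.H566W.LC.continuous hg1,
      fun A => Pool.Agent.H566V.mem_of_cls hBc hBi ⟨M, hM, rfl⟩ (hg2 A), hg3⟩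
  obtain ⟨g, hg1, hg2, hg3⟩ := Pool.Agent.H566W.perfect_of_pbig hbig
  choose N hN hNg using hg2
  let G : (ℕ → Bool) → RS a ℕ := fun A i t =>
    if h : i < n then g A (t1_pad _ t) ⟨i, h⟩ else false
  have hG : ∀ A, ∀ i < n, ∀ t, N A i t = G A i t := by
    intro A i hi t
    simp only [G, dif_pos hi]
    rw [← hNg, t1_lev]
  refine h a C hC.measurableSet hfew n G ?_ (fun A => ⟨N A, hN A, hG A⟩) ?_ ?_
  · refine continuous_pi fun i => continuous_pi fun t => ?_
    by_cases hi : i < n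
    · simp only [G, dif_pos hi]
      exact (continuous_apply _).comp ((continuous_apply _).comp hg1)
    · simp only [G, dif_neg hi]
      exact continuous_const
  · intro A i hi t
    simp only [G, dif_neg (not_lt.2 hi)]
  · rintro A A' ⟨e, he⟩
    apply hg3
    refine ⟨e, fun t => ?_⟩
    rw [← hNg, ← hNg]
    funext i
    show N A' i.1 (e ∘ (fun k => t ⟨k.1, _⟩)) = N A i.1 (fun k => t ⟨k.1, _⟩)
    rw [hG A' i.1 i.2, hG A i.1 i.2]
    exact he i.1 _

end Pool.Agent.H566X
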