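import Pool.Agent.H566X.Spec

set_option autoImplicit false

namespace Pool.Agent.H566X

open Set

private theorem tgt_pigeon {T : Type} {S : Set T} (hS : S.Finite) (m : ℕ)
    (r : ℕ → T → Prop) (h : ∀ n, m ≤ n → ∃ t ∈ S, r n t) :
    ∃ t ∈ S, ∀ k, ∃ n, k ≤ n ∧ m ≤ n ∧ r n t := by
  by_contra hcon
  push Not at hcon
  choose! k hk using hcon
  obtain ⟨K, hK⟩ : ∃ K, ∀ t ∈ S, k t ≤ K := by
    obtain ⟨K, hK⟩ := (hS.image k).bddAbove
    exact ⟨K, fun t ht => hK (mem_image_of_mem _ ht)⟩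
  obtain ⟨t, ht, hr⟩ := h (max m K) (le_max_left _ _)
  exact hk t ht (max m K) ((hK t ht).trans (le_max_right _ _)) (le_max_left _ _) hr

theorem t_TGT (h : S_IND) : S_TGT := by
  intro a V W M N hM hN p hp hW x hx ⟨m, hT1, hT2⟩
  have hx0 : ¬ AcI M ∅ x := fun h0 => hx (AcI.of_empty h0)
  choose e he hep using hW
  obtain ⟨T, hTf, hT⟩ := (hN m).orb
  obtain ⟨t, -, hI⟩ := tgt_pigeon hTf m (fun n t => Ob N m (e n x) t)
    (fun n _ => hT (e n x))
  -- basic transfer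
  have key : ∀ n, m ≤ n → Ob N m (e n x) t → ∀ y, Ob N m t y →
      Ob M m x ((e n).symm y) ∧ Eqv M x ((e n).symm y) := by
    intro n hn hnt y hy
    have h1 : Ob M m x ((e n).symm y) := by
      rw [ob_iff (he n) hn, Equiv.apply_symm_apply]
      exact hnt.trans hy
    exact ⟨h1, hT1 _ h1⟩
  have key2 : ∀ n, m ≤ n → Ob N m (e n x) t → ∀ y, Ob N m t y → Ob N n (e n x) y := by
    intro n hn hnt y hy
    have h2 := (key n hn hnt y hy).2 n
    rw [ob_iff (he n) le_rfl, Equiv.apply_symm_apply] at h2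
    exact h2
  -- (2)
  have hinf : {y | Ob N m t y}.Infinite := by
    obtain ⟨n, -, hn, hnt⟩ := hI 0
    have h1 : {y | Ob M m x y}.Infinite := by
      intro hfin
      apply hx0
      refine ⟨m, hfin.subset ?_⟩
      rintro y ⟨σ, hσ, -, hxy⟩
      exact ⟨σ, hσ, hxy⟩
    refine (h1.image (f := e n) (e n).injective.injOn).mono ?_
    rintro _ ⟨y, hy, rfl⟩
    exact hnt.symm.trans ((ob_iff (he n) hn).1 hy)
  -- (3)
  have h3 : ∀ y, Ob N m t y → ¬ AcI N ∅ y := by
    rintro y hy ⟨n, hac⟩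
    obtain ⟨n', hn', hm', hnt⟩ := hI n
    have h1 := key2 n' hm' hnt y hy
    have h2 : Ac N n' ∅ y := hac.mono hn'
    rw [← h1.ac_empty le_rfl, ← ac_iff_empty (he n') le_rfl] at h2
    exact hx0 ⟨n', h2⟩
  -- (4)
  have h4 : ∀ z, Ob N m t z → {y | Ob N m t y ∧ AcI N {z} y}.Finite := by
    intro z hz
    by_contra hcon
    obtain ⟨F, hF, hcard⟩ := Set.Infinite.exists_subset_card_eq hcon
      ({y | Ob M m x y ∧ AcI M {x} y}.ncard + 1)
    have hn : ∀ y ∈ F, ∃ n, Ac N n {z} y := fun y hy => (hF hy).2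
    choose! g hg using hn
    obtain ⟨n', hn', hm', hnt⟩ := hI (F.sup g)
    obtain ⟨hz1, hz2⟩ := key n' hm' hnt z hz
    obtain ⟨s, hs, hsx⟩ := hz2 n'
    have hmap : ∀ y ∈ F, s.symm ((e n').symm y) ∈ {y | Ob M m x y ∧ AcI M {x} y} := by
      intro y hy
      obtain ⟨hy1, hy2⟩ := key n' hm' hnt y (hF hy).1
      refine ⟨hy1.trans ⟨s.symm, hs.symm.mono hm', rfl⟩, n', ?_⟩
      have h5 : Ac N n' {z} y := (hg y hy).mono ((Finset.le_sup hy).trans hn')
      have h6 : Ac M n' {(e n').symm z} ((e n').symm y) := by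
        rw [ac_iff_singleton (he n') le_rfl, Equiv.apply_symm_apply, Equiv.apply_symm_apply]
        exact h5
      rw [Gr.ac_iff_singleton hs.symm le_rfl] at h6
      have h7 : s.symm ((e n').symm z) = x := by rw [← hsx, Equiv.symm_apply_apply]
      rwa [h7] at h6
    have hle := Set.ncard_le_ncard_of_injOn (s := (F : Set W))
      (t := {y | Ob M m x y ∧ AcI M {x} y}) (fun y => s.symm ((e n').symm y))
      (fun y hy => hmap y hy) (fun y _ y' _ hyy => by simpa using hyy) hT2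
    rw [Set.ncard_coe_finset, hcard] at hle
    omega
  -- (5)
  have hsnd : (Prod.snd '' p).Finite := hp.image _
  obtain ⟨y, hy, hyac⟩ : ∃ y, Ob N m t y ∧ ¬ AcI N (Prod.snd '' p) y := by
    by_contra hcon
    push Not at hcon
    apply hinf
    have hsub : {y | Ob N m t y} ⊆ ⋃ s ∈ Prod.snd '' p, {y | Ob N m t y ∧ AcI N {s} y} := by
      intro y hy
      rcases aci_uni hN hsnd (hcon y hy) with h1 | ⟨s, hs, h1⟩
      · exact absurd h1 (h3 y hy)
      · exact mem_biUnion hs ⟨hy, h1⟩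
    refine (hsnd.biUnion fun s _ => ?_).subset hsub
    rcases Set.eq_empty_or_nonempty {y | Ob N m t y ∧ AcI N {s} y} with h0 | ⟨y0, hy0, hy0s⟩
    · rw [h0]; exact Set.finite_empty
    · refine (h4 y0 hy0).subset ?_
      rintro y ⟨hy, hys⟩
      exact ⟨hy, (aci_exc hN hy0s (h3 y0 hy0)).trans hys⟩
  -- (6)
  refine ⟨y, fun n => ?_⟩
  obtain ⟨n', hn', hm', hnt⟩ := hI n
  have himg : e n' '' (Prod.fst '' p) = Prod.snd '' p := by
    rw [image_image]
    exact image_congr fun u hu => hep n' u hu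
  have hb : ¬ Ac N n' (Prod.snd '' p) (e n' x) := by
    rw [← himg, ← ac_iff (he n') le_rfl]
    exact fun h1 => hx ⟨n', h1⟩
  obtain ⟨σ, hσ, hσp, hσx⟩ := h a W N n' (hN n') (Prod.snd '' p) (e n' x) y hsnd
    (key2 n' hm' hnt y hy) hb (fun h1 => hyac ⟨n', h1⟩)
  refine ⟨(e n').trans σ, ((he n').trans hσ.2).mono hn', ?_⟩
  rintro u (rfl | hu)
  · exact hσx
  · show σ (e n' u.1) = u.2
    rw [hep n' u hu]
    exact hσp _ (mem_image_of_mem _ hu)

end Pool.Agent.H566X
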