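import Pool.Agent.H566X.Spec

set_option autoImplicit false

namespace Pool.Agent.H566X

open Set

theorem t_TH : S_TH := by
  intro a V M n hM A hA
  have key : ∀ T : Set V, T.Finite → T ⊆ A → ∃ θ : Equiv.Perm V, Gr M n θ ∧
      (∀ v ∈ A, Ac M n ∅ v → θ v = v) ∧ ∀ v ∈ T, ¬ Ac M n ∅ v → θ v ∉ A := by
    intro T hT
    induction T, hT using Set.Finite.induction_on with
    | empty => exact fun _ => ⟨1, Gr.one, fun v _ _ => rfl, fun v hv => absurd hv (by simp)⟩
    | @insert v0 T hv hT ih =>
      intro hTA
      obtain ⟨θ, hθ, h1, h2⟩ := ih (fun x hx => hTA (mem_insert_of_mem _ hx))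
      by_cases hac : Ac M n ∅ v0
      · refine ⟨θ, hθ, h1, ?_⟩
        intro v hv hna
        rcases hv with rfl | hv
        · exact absurd hac hna
        · exact h2 v hv hna
      · have hx : ¬ Ac M n ∅ (θ v0) := by
          rw [← Ob.ac_empty (⟨θ, hθ, rfl⟩ : Ob M n v0 (θ v0)) le_rfl]
          exact hac
        obtain ⟨s, hs, hss, hs1, hs2⟩ := hM.far (A ∪ θ '' A) (θ v0) (hA.union (hA.image _)) hx
        refine ⟨s * θ, hs.mul hθ, ?_, ?_⟩
        · intro v hv hav
          show s (θ v) = v
          rw [h1 v hv hav]
          apply hs2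
          · exact fun hb => hb.2 hav
          · intro hb
            apply hb.2
            rw [← Ob.ac_empty (⟨s, hs, rfl⟩ : Ob M n v (s v)) le_rfl]
            exact hav
        · intro v hv hna
          show s (θ v) ∉ A
          rcases hv with rfl | hv
          · exact fun h => (hs1 (θ v) (Bl.refl hx)).1 (Or.inl h)
          · by_cases hb : Bl M n (θ v0) (θ v)
            · exact fun h => (hs1 (θ v) hb).1 (Or.inl h)
            · by_cases hb' : Bl M n (θ v0) (s (θ v))
              · exfalso
                apply (hs1 _ hb').1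
                rw [hss]
                exact Or.inr ⟨v, hTA (mem_insert_of_mem _ hv), rfl⟩
              · rw [hs2 _ hb hb']
                exact h2 v hv hna
  exact key A hA Subset.rfl

end Pool.Agent.H566X
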