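import Pool.Agent.H566X.Spec

set_option autoImplicit false

namespace Pool.Agent.H566X

open Set

theorem thb_ext (h1 : S_ALG) (h2 : S_TGT) (h3 : S_FRE) {a : ℕ → ℕ} {V W : Type} {M : RS a V}
    {N : RS a W} (hM : AC M) (hN : AC N) {p q : Set (V × W)} (hnice : Nice M (Prod.fst '' p))
    (hinf : ∀ w w', (w, w') ∈ p → InfM M w → InfM N w') (hq : q.Finite) (hpq : p ⊆ q)
    (hW : W0 M N q) (x : V) : ∃ y, W0 M N (insert (x, y) q) := by
  by_cases hx : AcI M (Prod.fst '' q) x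
  · exact h1 a V W M N hM hN q hq hW x hx
  · by_cases ht : Tight M x
    · exact h2 a V W M N hM hN q hq hW x hx ht
    · obtain ⟨w, ⟨u, hu, rfl⟩, hw1, hw2⟩ :=
        hnice x (fun h0 => hx (h0.mono (image_mono hpq))) ht
      exact h3 a V W M N hM hN q hq hW u.1 u.2 (hpq hu) (hinf u.1 u.2 hu hw1) x hw2 hx

theorem thb_fst {V W : Type} (p : Set (V × W)) :
    Prod.fst '' (Prod.swap '' p) = Prod.snd '' p := by
  rw [image_image]; rfl

theorem thb_swap {V W : Type} (p : Set (V × W)) :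
    Prod.swap '' (Prod.swap '' p) = p := by
  rw [image_image]
  simp

theorem t_THB (h1 : S_ALG) (h2 : S_TGT) (h3 : S_FRE) (h4 : S_BFI) (h5 : S_TRN) : S_THB := by
  intro a M N hM hN p hp h hnice
  obtain ⟨hi, hn⟩ := h5 a ℕ ℕ M N hM hN p hp h
  have hniceN : Nice N (Prod.fst '' (Prod.swap '' p)) := by
    rw [thb_fst]; exact hn hnice
  obtain ⟨hi', _⟩ := h5 a ℕ ℕ N M hN hM (Prod.swap '' p) (hp.image _) h.symm
  refine h4 a M N {q | q.Finite ∧ p ⊆ q ∧ W0 M N q} (fun q hq => hq.2.2) ?_ ?_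
    ⟨p, hp, Subset.rfl, h.1.w0⟩
  · rintro q ⟨hq1, hq2, hq3⟩ x
    obtain ⟨y, hy⟩ := thb_ext h1 h2 h3 hM hN hnice hi hq1 hq2 hq3 x
    exact ⟨y, hq1.insert _, hq2.trans (subset_insert _ _), hy⟩
  · rintro q ⟨hq1, hq2, hq3⟩ y
    obtain ⟨x, hx⟩ := thb_ext h1 h2 h3 hN hM hniceN hi' (hq1.image _) (image_mono hq2) hq3.symm y
    refine ⟨x, hq1.insert _, hq2.trans (subset_insert _ _), ?_⟩
    have h6 := hx.symm
    rw [image_insert_eq, thb_swap] at h6
    exact h6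

end Pool.Agent.H566X
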