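import Pool.Agent.H566X.ACT
import Pool.Agent.H623R2.VE.PerfSet

set_option autoImplicit false

namespace Pool.Agent.H566X

open Set TopologicalSpace Topology

theorem t_TOP (h1 : S_FSI) (h2 : S_ACT) : S_TOP := by
  classical
  intro X _ _ _ _ _ hX B hF hB
  obtain ⟨F, hF, hBF⟩ := hF
  obtain ⟨a, φ, hφ, hinj, hiso⟩ := h2 X hX
  have hemb : IsClosedEmbedding φ := hφ.isClosedEmbedding hinj
  have hinv : Inv (φ '' B) := by
    rintro _ ⟨x, hx, rfl⟩ N ⟨e, he⟩
    refine ⟨e • x, hB x hx e, ?_⟩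
    have h3 : Iso (φ x) (φ (e • x)) e := (hiso x (e • x) e).2 rfl
    funext i t
    have h4 := h3 i (e.symm ∘ t)
    have h5 := he i (e.symm ∘ t)
    have h6 : e ∘ (e.symm ∘ t) = t := by funext k; simp
    rw [h6] at h4 h5
    rw [h4, h5]
  by_cases hfew : Few (φ '' B)
  · left
    have hcl : ∀ k, IsClosed (φ '' (F k)) := fun k => hemb.isClosedMap _ (hF k)
    have hun : φ '' B = ⋃ k, φ '' (F k) := by rw [hBF, image_iUnion]
    obtain ⟨D, hD, hDx⟩ := h1 a (φ '' B) (fun k => φ '' (F k)) hcl hun hinv hfew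
    let s : RS a ℕ → Set X := fun N =>
      if h : ∃ x, ∃ e : ℕ ≃ ℕ, Iso (φ x) N e then {h.choose} else ∅
    have hs : ∀ N, (s N).Countable := by
      intro N
      simp only [s]
      split_ifs
      · exact countable_singleton _
      · exact countable_empty
    refine ⟨⋃ N ∈ D, s N, hD.biUnion fun N _ => hs N, fun x hx => ?_⟩
    obtain ⟨N, hN, e, he⟩ := hDx (φ x) ⟨x, hx, rfl⟩
    have hex : ∃ x, ∃ e : ℕ ≃ ℕ, Iso (φ x) N e := ⟨x, e, he⟩
    refine ⟨hex.choose, mem_iUnion₂.2 ⟨N, hN, ?_⟩, ?_⟩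
    · simp only [s, dif_pos hex]
      rfl
    · obtain ⟨e', he'⟩ := hex.choose_spec
      have h3 : Iso (φ hex.choose) (φ x) (e'.trans e.symm) := by
        intro i t
        have h4 := he' i t
        have h5 := he i (e.symm ∘ (e' ∘ t))
        have h6 : e ∘ (e.symm ∘ (e' ∘ t)) = e' ∘ t := by funext k; simp
        rw [h6] at h5
        rw [← h4, h5]
        rfl
      exact ⟨e'.trans e.symm, (hiso _ _ _).1 h3⟩
  · right
    unfold Few at hfew
    push Not at hfew
    obtain ⟨g, hg0, hg1, hg2⟩ := hfew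
    choose u hu1 hu2 using hg1
    have hucont : Continuous u := by
      rw [hemb.isInducing.continuous_iff]
      have : φ ∘ u = g := funext hu2
      rw [this]; exact hg0
    have huinj : ∀ A A', (∃ σ : Equiv.Perm ℕ, σ • u A = u A') → A = A' := by
      rintro A A' ⟨σ, hσ⟩
      apply hg2
      refine ⟨σ, ?_⟩
      rw [← hu2, ← hu2]
      exact (hiso _ _ _).2 hσ
    have huinj' : Function.Injective u := fun A A' h => huinj A A' ⟨1, by rw [one_smul, h]⟩
    obtain ⟨h3, h4⟩ := Pool.Agent.H623R2.VE.perfect_range u hucont huinj'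
    refine ⟨range u, h3, h4, ?_, ?_⟩
    · rintro _ ⟨A, rfl⟩
      exact hu1 A
    · rintro _ ⟨A, rfl⟩ _ ⟨A', rfl⟩ h5
      rw [huinj A A' h5]

end Pool.Agent.H566X
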