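import Pool.Agent.H566X.Spec

set_option autoImplicit false

namespace Pool.Agent.H566X

open Set

theorem trn_inf {a : ℕ → ℕ} {V W : Type} {M : RS a V} {N : RS a W} (hM : AC M) (hN : AC N)
    {p : Set (V × W)} (h : WW M N p) {w : V} {w' : W} (hw : (w, w') ∈ p) (hi : InfM M w) :
    InfM N w' := by
  intro A' hA'
  obtain ⟨f, hf1, hf2, hf3⟩ := inf_seq hM hi
  obtain ⟨g, hg⟩ := (h (A'.ncard + 1)).forth (fun j : Fin (A'.ncard + 1) => f j)
  have hmem : ∀ j : Fin (A'.ncard + 1), (f j, g j) ∈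
      p ∪ range fun j : Fin (A'.ncard + 1) => (f j, g j) := fun j => Or.inr ⟨j, rfl⟩
  have hw2 : (w, w') ∈ p ∪ range fun j : Fin (A'.ncard + 1) => (f j, g j) := Or.inl hw
  obtain ⟨j, hj⟩ := pigeon (k := A'.ncard) (f := g) hN
    (fun j h0 => hf2 j ((hg.aci_empty (hmem j)).2 h0))
    (fun j j' hjj h0 => hf3 j j' (fun he => hjj (Fin.ext he)) ((hg.aci (hmem j') (hmem j)).2 h0))
    hA' le_rfl
  exact ⟨g j, (hg.eqv hw2 (hmem j)).1 (hf1 j), hj⟩

theorem trn_tight {a : ℕ → ℕ} {V W : Type} {M : RS a V} {N : RS a W}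
    {q : Set (V × W)} (h : WW M N q) {z : V} {z' : W} (hz : (z, z') ∈ q) (ht : Tight M z) :
    Tight N z' := by
  obtain ⟨m, h1, h2⟩ := ht
  refine ⟨m, ?_, ?_⟩
  · intro y' hy'
    obtain ⟨y, hy⟩ := (h 1).2.2 y'
    have hy0 : W0 M N (insert (y, y') q) := hy
    have e1 : (z, z') ∈ insert (y, y') q := mem_insert_of_mem _ hz
    have e2 : (y, y') ∈ insert (y, y') q := mem_insert _ _
    exact (hy0.eqv e1 e2).1 (h1 y ((hy0.ob e1 e2).2 hy'))
  · by_contra hinf
    set S := {y | Ob M m z y ∧ AcI M {z} y} with hS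
    have hinf' : {y | Ob N m z' y ∧ AcI N {z'} y}.Infinite := hinf
    obtain ⟨T, hT, hc⟩ := hinf'.exists_subset_card_eq (S.ncard + 1)
    let e := T.equivFinOfCardEq hc
    obtain ⟨f, hf⟩ := (h (S.ncard + 1)).back (fun j : Fin (S.ncard + 1) => (e.symm j : W))
    have hmem : ∀ j : Fin (S.ncard + 1), (f j, (e.symm j : W)) ∈
        q ∪ range fun j : Fin (S.ncard + 1) => (f j, (e.symm j : W)) := fun j => Or.inr ⟨j, rfl⟩
    have hz2 : (z, z') ∈ q ∪ range fun j : Fin (S.ncard + 1) => (f j, (e.symm j : W)) :=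
      Or.inl hz
    have hfS : ∀ j, f j ∈ S := by
      intro j
      have h3 := hT (e.symm j).2
      exact ⟨(hf.ob hz2 (hmem j)).2 h3.1, (hf.aci hz2 (hmem j)).2 h3.2⟩
    have hfi : Function.Injective f := by
      intro i j hij
      have h3 := (hf.inj (hmem i) (hmem j)).1 hij
      exact e.symm.injective (Subtype.ext h3)
    have h4 : (range f).ncard ≤ S.ncard := by
      refine Set.ncard_le_ncard ?_ h2
      rintro _ ⟨j, rfl⟩
      exact hfS j
    have h5 : (range f).ncard = S.ncard + 1 := by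
      rw [← Set.image_univ, Set.ncard_image_of_injective _ hfi, Set.ncard_univ, Nat.card_eq_fintype_card,
        Fintype.card_fin]
    omega

theorem t_TRN : S_TRN := by
  intro a V W M N hM hN p hp h
  refine ⟨fun w w' hw hi => trn_inf hM hN h.1 hw hi, ?_⟩
  intro hnice z' hz1 hz2
  obtain ⟨z, hz⟩ := h.2.2 z'
  have hzm : (z, z') ∈ insert (z, z') p := mem_insert _ _
  have hz3 : ¬ AcI M (Prod.fst '' p) z := fun h0 =>
    hz1 ((hz.w0.aci_set hzm (subset_insert _ _)).1 h0)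
  have hz4 : ¬ Tight M z := fun h0 => hz2 (trn_tight hz hzm h0)
  obtain ⟨w, ⟨u, hu, rfl⟩, hw1, c, hc1, hc2⟩ := hnice z hz3 hz4
  have hu' : (u.1, u.2) ∈ p := hu
  refine ⟨u.2, ⟨u, hu, rfl⟩, trn_inf hM hN h.1 hu' hw1, ?_⟩
  obtain ⟨c', hc'⟩ := (hz 1).2.1 c
  have hc0 : W0 M N (insert (c, c') (insert (z, z') p)) := hc'
  have e1 : (c, c') ∈ insert (c, c') (insert (z, z') p) := mem_insert _ _
  have e2 : (z, z') ∈ insert (c, c') (insert (z, z') p) := mem_insert_of_mem _ hzm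
  have e3 : (u.1, u.2) ∈ insert (c, c') (insert (z, z') p) :=
    mem_insert_of_mem _ (mem_insert_of_mem _ hu')
  exact ⟨c', (hc0.aci e3 e1).1 hc1, (hc0.eqv e1 e2).1 hc2⟩

end Pool.Agent.H566X
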