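import Pool.Agent.H566X.ALG
import Pool.Agent.H566X.BFI
import Pool.Agent.H566X.BKI
import Pool.Agent.H566X.C0
import Pool.Agent.H566X.C1
import Pool.Agent.H566X.C2
import Pool.Agent.H566X.C3
import Pool.Agent.H566X.C5
import Pool.Agent.H566X.C6
import Pool.Agent.H566X.C7
import Pool.Agent.H566X.C8
import Pool.Agent.H566X.D3
import Pool.Agent.H566X.D4
import Pool.Agent.H566X.D5
import Pool.Agent.H566X.D7
import Pool.Agent.H566X.DEL
import Pool.Agent.H566X.DIC
import Pool.Agent.H566X.EXT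
import Pool.Agent.H566X.FB
import Pool.Agent.H566X.FRE
import Pool.Agent.H566X.FS1
import Pool.Agent.H566X.FS2
import Pool.Agent.H566X.FSI
import Pool.Agent.H566X.FU1
import Pool.Agent.H566X.FUL
import Pool.Agent.H566X.IND
import Pool.Agent.H566X.LOC
import Pool.Agent.H566X.SWP
import Pool.Agent.H566X.T1
import Pool.Agent.H566X.TGT
import Pool.Agent.H566X.THB
import Pool.Agent.H566X.TRN
import Pool.Agent.H566X.ACT
import Pool.Agent.H566X.TOP
import Pool.Agent.H566X.FIN
import Pool.Agent.H566X.BFW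
import Pool.Agent.H566X.C4
import Pool.Agent.H566X.CEL
import Pool.Agent.H566X.CLO
import Pool.Agent.H566X.D1
import Pool.Agent.H566X.D2
import Pool.Agent.H566X.D6
import Pool.Agent.H566X.FEWF
import Pool.Agent.H566X.TH

/-! Assembly: the strong Vaught conjecture for `F_σ` classes of countable structures in arbitrary
countable relational languages. -/

set_option autoImplicit false

namespace Pool.Agent.H566X

theorem main_FSI : S_FSI :=
  have hFU1 := t_FU1
  have hFUL := t_FUL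
  have hIND := t_IND
  have hSWP := t_SWP
  have hLOC := t_LOC
  have hC0 := t_C0 t_TH
  have hC1 := t_C1
  have hC2 := t_C2 hC1 hLOC
  have hC3 := t_C3
  have hC4 := t_C4 hSWP hC1
  have hC5 := t_C5 hFU1 hC3 hC4
  have hC6 := t_C6 hC5 hFUL
  have hC7 := t_C7 hC4 hC5 hC6
  have hC8 := t_C8 hC6
  have hEXT := t_EXT hC0 hC2 hC7 hC8
  have hD1 := t_D1
  have hD3 := t_D3
  have hD2 := t_D2 hD1 hD3
  have hD4 := t_D4 hFU1 hSWP hD2 hD3
  have hD5 := t_D5 hD4 hFUL hD3
  have hD7 := t_D7 hLOC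
  have hDEL := t_DEL hD5 t_D6 hD7
  have hBFW := t_BFW (t_BKI hIND)
  have hALG := t_ALG
  have hTGT := t_TGT hIND
  have hFRE := t_FRE hIND hALG
  have hTHB := t_THB hALG hTGT hFRE t_BFI t_TRN
  have hT1 := t_T1 t_FB
  have hCLO := t_CLO hT1 t_CEL t_DIC hEXT hDEL hBFW hTHB
  t_FSI hCLO t_FS1 t_FS2 t_FEWF

theorem main_TOP : S_TOP := t_TOP main_FSI t_ACT

end Pool.Agent.H566X
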