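import Pool.Agent.H566X.LibC
import Pool.Agent.H566W.Conv
import Pool.Agent.H899R2.VP.Few

/-! The propositions proved by the tasks. -/

set_option autoImplicit false

namespace Pool.Agent.H566X

open Set

/-! ### Cellular reducts -/

/-- IND: elements of one orbit which are independent of `A` are conjugate over `A` -/
def S_IND : Prop := ∀ (a : ℕ → ℕ) (V : Type) (M : RS a V) (n : ℕ), Cell M n →
  ∀ (A : Set V) (x y : V), A.Finite → Ob M n x y → ¬ Ac M n A x → ¬ Ac M n A y →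
    ∃ σ, Gr M n σ ∧ (∀ z ∈ A, σ z = z) ∧ σ x = y

/-- SWP: exchanging a block with its image under an element of the group -/
def S_SWP : Prop := ∀ (a : ℕ → ℕ) (V : Type) (M : RS a V) (n : ℕ), Cell M n →
  ∀ (x : V) (σ : Equiv.Perm V), ¬ Ac M n ∅ x → Gr M n σ → (∀ y, Bl M n x y → ¬ Bl M n x (σ y)) →
    ∃ w : Equiv.Perm V, Gr M n w ∧ (∀ y, w (w y) = y) ∧ (∀ y, Bl M n x y → w y = σ y) ∧
      ∀ y, ¬ Bl M n x y → ¬ Bl M n x (w y) → w y = y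

/-- TH: moving the non-algebraic elements of a finite set out of this set -/
def S_TH : Prop := ∀ (a : ℕ → ℕ) (V : Type) (M : RS a V) (n : ℕ), Cell M n →
  ∀ A : Set V, A.Finite → ∃ θ, Gr M n θ ∧ (∀ v ∈ A, Ac M n ∅ v → θ v = v) ∧
    ∀ v ∈ A, ¬ Ac M n ∅ v → θ v ∉ A

/-- CEL: cellular decompositions give `Cell` -/
def S_CEL : Prop := ∀ (a : ℕ → ℕ) (M : RS a ℕ) (n : ℕ),
  Pool.Agent.H566V.IsDec (lev n M) → Cell M n

/-! ### Back-and-forth between two structures -/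

/-- ALG: extending by an algebraic element -/
def S_ALG : Prop := ∀ (a : ℕ → ℕ) (V W : Type) (M : RS a V) (N : RS a W), AC M → AC N →
  ∀ p : Set (V × W), p.Finite → W0 M N p → ∀ x, AcI M (Prod.fst '' p) x →
    ∃ y, W0 M N (insert (x, y) p)

/-- TGT: extending by a tight element -/
def S_TGT : Prop := ∀ (a : ℕ → ℕ) (V W : Type) (M : RS a V) (N : RS a W), AC M → AC N →
  ∀ p : Set (V × W), p.Finite → W0 M N p → ∀ x, ¬ AcI M (Prod.fst '' p) x → Tight M x →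
    ∃ y, W0 M N (insert (x, y) p)

/-- FRE: extending by an element of a kind with infinitely many independent members -/
def S_FRE : Prop := ∀ (a : ℕ → ℕ) (V W : Type) (M : RS a V) (N : RS a W), AC M → AC N →
  ∀ p : Set (V × W), p.Finite → W0 M N p → ∀ w w', (w, w') ∈ p → InfM N w' →
    ∀ x, Tri M x w → ¬ AcI M (Prod.fst '' p) x → ∃ y, W0 M N (insert (x, y) p)

/-- BFI: back-and-forth systems give isomorphisms -/
def S_BFI : Prop := ∀ (a : ℕ → ℕ) (M N : RS a ℕ) (S : Set (Set (ℕ × ℕ))),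
  (∀ p ∈ S, W0 M N p) → (∀ p ∈ S, ∀ x, ∃ y, insert (x, y) p ∈ S) →
  (∀ p ∈ S, ∀ y, ∃ x, insert (x, y) p ∈ S) → S.Nonempty → ∃ e : ℕ ≃ ℕ, Iso M N e

/-- TRI: being infinite, being tight and niceness are preserved -/
def S_TRN : Prop := ∀ (a : ℕ → ℕ) (V W : Type) (M : RS a V) (N : RS a W), AC M → AC N →
  ∀ p : Set (V × W), p.Finite → WH M N p →
    (∀ w w', (w, w') ∈ p → InfM M w → InfM N w') ∧
    (Nice M (Prod.fst '' p) → Nice N (Prod.snd '' p))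

/-- THB: isomorphism theorem -/
def S_THB : Prop := ∀ (a : ℕ → ℕ) (M N : RS a ℕ), AC M → AC N →
  ∀ p : Set (ℕ × ℕ), p.Finite → WH M N p → Nice M (Prod.fst '' p) → ∃ e : ℕ ≃ ℕ, Iso M N e

/-- BKI: all finite ranks of back-and-forth at level `n` give an isomorphism of the reducts -/
def S_BKI : Prop := ∀ (a : ℕ → ℕ) (M N : RS a ℕ) (n : ℕ), Cell M n → Cell N n →
  ∀ p : Set (ℕ × ℕ), p.Finite → (∀ k, Bk n M N k p) →
    ∃ e : ℕ ≃ ℕ, IsoN n M N e ∧ ∀ u ∈ p, e u.1 = u.2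

/-- the structure in the format of helper899 -/
def stOf {a : ℕ → ℕ} (M : RS a ℕ) : Pool.Agent.H899R2.VP.St a := (fun _ _ => false, M)

/-- BFW: rank `ω 3` gives everything -/
def S_BFW : Prop := ∀ (a : ℕ → ℕ) (M N : RS a ℕ), AC M → AC N →
  Pool.Agent.H899R2.VP.BF (stOf M) (stOf N) univ univ (Ordinal.omega0 * 3) ∅ →
  ∀ u : Set ℕ, u.Finite → ∃ p : Set (ℕ × ℕ), p.Finite ∧ Prod.fst '' p = u ∧ WH M N p

/-! ### The dichotomy -/

/-- DIC: nice or bad -/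
def S_DIC : Prop := ∀ (a : ℕ → ℕ) (V : Type) (M : RS a V), AC M →
  (∃ u : Set V, u.Finite ∧ Nice M u) ∨ ∃ x : ℕ → V, Bad M x

/-! ### Full subsets -/

/-- FU1: it is enough to move single elements -/
def S_FU1 : Prop := ∀ (a : ℕ → ℕ) (V : Type) (M : RS a V) (D : Set V),
  (∀ (n : ℕ) (F : Set V), F.Finite → ∀ z, z ∉ D → ∃ τ : Equiv.Perm V, Gr M n τ ∧
    (∀ x ∈ F, x ∈ D → τ x = x) ∧ τ z ∈ D ∧ ∀ x, x ∉ D → τ x = x ∨ τ x ∈ D) → Full M D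

/-- FUL: orbits and algebraicity do not change when we restrict to a full subset -/
def S_FUL : Prop := ∀ (a : ℕ → ℕ) (V : Type) (M : RS a V) (D : Set V), Full M D →
  (∀ (n : ℕ) (x y : D), Ob (res M D) n x y ↔ Ob M n x y) ∧
  (∀ (n : ℕ) (A : Set D) (x : D), A.Finite →
    (Ac (res M D) n A x ↔ Ac M n (Subtype.val '' A) x.1)) ∧
  (∀ (n : ℕ) (A : Set V) (z : V), A.Finite → A ⊆ D → z ∉ D → ¬ Ac M n A z)

/-! ### The extension with infinite multiplicities -/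

/-- LOC: a structure all of whose finite parts embed into a member is a member -/
def S_LOC : Prop := ∀ (a : ℕ → ℕ) (C : Set (RS a ℕ)), IsClosed C → Inv C → ∀ M ∈ C,
  ∀ (W : Type) [Countable W] [Infinite W] (N : RS a W),
    (∀ (n : ℕ) (F : Finset W), ∃ f : W → ℕ, Set.InjOn f F ∧
      ∀ i < n, ∀ t : Fin (a i) → W, (∀ k, t k ∈ F) → M i (f ∘ t) = N i t) → Mem C N

/-! ### The extension: details -/

/-- the ultrafilter -/
noncomputable abbrev hyp : Ultrafilter ℕ := Filter.hyperfilter ℕ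

/-- permutations moving everything which is not algebraic to infinity -/
structure THs {a : ℕ → ℕ} (M : RS a ℕ) (θ : ℕ → Equiv.Perm ℕ) : Prop where
  gr : ∀ k, Gr M k (θ k)
  fix : ∀ k, ∀ v ≤ k, Ac M k ∅ v → θ k v = v
  mv : ∀ k, ∀ v ≤ k, ¬ Ac M k ∅ v → k < θ k v

/-- the carrier of the extension: `ℕ` and copies of the non-algebraic part indexed by `ℚ` -/
abbrev XT {a : ℕ → ℕ} (M : RS a ℕ) : Type := ℕ ⊕ (ℚ × {v : ℕ // ¬ AcI M ∅ v})

/-- evaluation -/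
def evx {a : ℕ → ℕ} {M : RS a ℕ} (θ : ℕ → Equiv.Perm ℕ) (ω : ℚ → ℕ) : XT M → ℕ :=
  Sum.elim id (fun x => θ (ω x.1) x.2.1)

open Classical in
/-- the extension (`W hyp` is the ultrafilter on `ℚ → ℕ` of `Pool.Agent.H566V.Tensor`) -/
noncomputable def NX {a : ℕ → ℕ} (M : RS a ℕ) (θ : ℕ → Equiv.Perm ℕ) : RS a (XT M) :=
  fun i t => decide (∀ᶠ ω in (Pool.Agent.H566V.W hyp : Filter (ℚ → ℕ)),
    M i (evx θ ω ∘ t) = true)

/-- C0: the permutations exist -/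
def S_C0 : Prop := ∀ (a : ℕ → ℕ) (M : RS a ℕ), AC M → ∃ θ, THs M θ

/-- C1: different elements have different values almost everywhere -/
def S_C1 : Prop := ∀ (a : ℕ → ℕ) (M : RS a ℕ) (θ : ℕ → Equiv.Perm ℕ), AC M → THs M θ →
  ∀ x y : XT M, x ≠ y →
    ∀ᶠ ω in (Pool.Agent.H566V.W hyp : Filter (ℚ → ℕ)), evx θ ω x ≠ evx θ ω y

/-- C2: the extension is a member of every closed class containing `M` -/
def S_C2 : Prop := ∀ (a : ℕ → ℕ) (C : Set (RS a ℕ)), IsClosed C → Inv C → ∀ M ∈ C,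
  ∀ θ : ℕ → Equiv.Perm ℕ, AC M → THs M θ → Mem C (NX M θ)

/-- C3: the finitary automorphisms of `M` act on the extension -/
def S_C3 : Prop := ∀ (a : ℕ → ℕ) (M : RS a ℕ) (θ : ℕ → Equiv.Perm ℕ), AC M → THs M θ →
  ∀ (n : ℕ) (σ : Equiv.Perm ℕ), Gr M n σ → Gr (NX M θ) n (Equiv.sumCongr σ (Equiv.refl _))

/-- C4: exchanging a block with its copy in row `q` -/
def S_C4 : Prop := ∀ (a : ℕ → ℕ) (M : RS a ℕ) (θ : ℕ → Equiv.Perm ℕ), AC M → THs M θ →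
  ∀ (n : ℕ) (v : {v : ℕ // ¬ AcI M ∅ v}) (q : ℚ), ∃ s : Equiv.Perm (XT M), Gr (NX M θ) n s ∧
    (∀ y : {v : ℕ // ¬ AcI M ∅ v}, Bl M n v.1 y.1 →
      s (Sum.inl y.1) = Sum.inr (q, y) ∧ s (Sum.inr (q, y)) = Sum.inl y.1) ∧
    ∀ z : XT M, (∀ y : {v : ℕ // ¬ AcI M ∅ v}, Bl M n v.1 y.1 →
      z ≠ Sum.inl y.1 ∧ z ≠ Sum.inr (q, y)) → s z = z

/-- C5: `ℕ` is full in the extension; moreover the copy of `v` in row `q` can be moved to
infinitely many places over every finite set without elements in row `q` -/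
def S_C5 : Prop := ∀ (a : ℕ → ℕ) (M : RS a ℕ) (θ : ℕ → Equiv.Perm ℕ), AC M → THs M θ →
  Full (NX M θ) (range Sum.inl) ∧
  ∀ (n : ℕ) (v : {v : ℕ // ¬ AcI M ∅ v}) (q : ℚ) (F : Set (XT M)), F.Finite →
    (∀ y, Sum.inr (q, y) ∉ F) → ¬ Ac (NX M θ) n F (Sum.inr (q, v))

/-- C6: orbits and algebraicity in `M` and in the extension -/
def S_C6 : Prop := ∀ (a : ℕ → ℕ) (M : RS a ℕ) (θ : ℕ → Equiv.Perm ℕ), AC M → THs M θ →
  (∀ (n : ℕ) (x y : ℕ), Ob (NX M θ) n (Sum.inl x) (Sum.inl y) ↔ Ob M n x y) ∧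
  (∀ (n : ℕ) (A : Set ℕ) (x : ℕ), A.Finite →
    (Ac (NX M θ) n (Sum.inl '' A) (Sum.inl x) ↔ Ac M n A x)) ∧
  (∀ (n : ℕ) (A : Set ℕ) (z : XT M), A.Finite → z ∉ range Sum.inl →
    ¬ Ac (NX M θ) n (Sum.inl '' A) z)

/-- C7: all multiplicities in the extension are infinite -/
def S_C7 : Prop := ∀ (a : ℕ → ℕ) (M : RS a ℕ) (θ : ℕ → Equiv.Perm ℕ), AC M → THs M θ →
  AC (NX M θ) → ∀ z, ¬ AcI (NX M θ) ∅ z → InfM (NX M θ) z

/-- C8: bad sequences stay bad -/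
def S_C8 : Prop := ∀ (a : ℕ → ℕ) (M : RS a ℕ) (θ : ℕ → Equiv.Perm ℕ), AC M → THs M θ →
  ∀ x : ℕ → ℕ, Bad M x → Bad (NX M θ) (fun i => Sum.inl (x i))

/-- EXT: the extension -/
def S_EXT : Prop := ∀ (a : ℕ → ℕ) (C : Set (RS a ℕ)), IsClosed C → Inv C →
  (∀ M ∈ C, AC M) → ∀ M ∈ C, ∀ x : ℕ → ℕ, Bad M x →
    ∃ N ∈ C, (∀ z, ¬ AcI N ∅ z → InfM N z) ∧ ∃ y : ℕ → ℕ, Bad N y

/-! ### The deletion lemma -/

/-- the data of the deletion lemma -/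
structure DD {a : ℕ → ℕ} (N : RS a ℕ) (x : ℕ → ℕ) (y : ℕ → ℕ → ℕ) : Prop where
  ac : AC N
  inf : ∀ z, ¬ AcI N ∅ z → InfM N z
  bad : Bad N x
  mate : ∀ i l, Eqv N (x i) (y i l)
  indep : ∀ i l l', l ≠ l' → ¬ AcI N {y i l'} (y i l)

/-- the elements which are kept: of the kind of `x i` with `A i = true` we keep only the blocks of
`y i 0, ..., y i i` -/
def Keep {a : ℕ → ℕ} (N : RS a ℕ) (x : ℕ → ℕ) (y : ℕ → ℕ → ℕ) (A : ℕ → Bool) : Set ℕ :=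
  {z | AcI N ∅ z ∨ ∀ i, A i = true → Tri N z (x i) → ∃ l ≤ i, AcI N {y i l} z}

/-- D1: the orbits of a non-tight element are rich -/
def S_D1 : Prop := ∀ (a : ℕ → ℕ) (V : Type) (N : RS a V), AC N → ∀ x, ¬ AcI N ∅ x →
  ¬ Tight N x → ∀ m,
    {y | Ob N m x y ∧ AcI N ∅ y}.Infinite ∨
    (∃ w : ℕ → V, (∀ j, Ob N m x (w j)) ∧ ∀ j j', j ≠ j' → ¬ Tri N (w j) (w j')) ∨
    ∃ w, Ob N m x w ∧ {c | AcI N {w} c ∧ Ob N m x c}.Infinite

/-- D2: orbits of deleted elements contain infinitely many kept elements -/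
def S_D2 : Prop := ∀ (a : ℕ → ℕ) (N : RS a ℕ) (x : ℕ → ℕ) (y : ℕ → ℕ → ℕ), DD N x y →
  ∀ (A : ℕ → Bool) (n z : ℕ), z ∉ Keep N x y A → {z' | Ob N n z z' ∧ z' ∈ Keep N x y A}.Infinite

/-- D3: closure of the kept set; its complement is a union of blocks -/
def S_D3 : Prop := ∀ (a : ℕ → ℕ) (N : RS a ℕ) (x : ℕ → ℕ) (y : ℕ → ℕ → ℕ), DD N x y →
  ∀ (A : ℕ → Bool) (z z' : ℕ), z ∈ Keep N x y A → AcI N {z} z' → z' ∈ Keep N x y A

/-- D4: the kept set is full -/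
def S_D4 : Prop := ∀ (a : ℕ → ℕ) (N : RS a ℕ) (x : ℕ → ℕ) (y : ℕ → ℕ → ℕ), DD N x y →
  ∀ A : ℕ → Bool, Full N (Keep N x y A)

/-- D5: multiplicities in the restriction -/
def S_D5 : Prop := ∀ (a : ℕ → ℕ) (N : RS a ℕ) (x : ℕ → ℕ) (y : ℕ → ℕ → ℕ), DD N x y →
  ∀ A : ℕ → Bool, FMS (res N (Keep N x y A)) = {k | ∃ i, A i = true ∧ k = i + 1}

/-- D6: membership is locally constant, and the kept set is infinite -/
def S_D6 : Prop := ∀ (a : ℕ → ℕ) (N : RS a ℕ) (x : ℕ → ℕ) (y : ℕ → ℕ → ℕ), DD N x y →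
  (∀ A : ℕ → Bool, (Keep N x y A).Infinite) ∧
  ∀ z, ∃ i, ∀ A B : ℕ → Bool, A i = B i → (z ∈ Keep N x y A ↔ z ∈ Keep N x y B)

/-- D7: a locally constant family of substructures which are pairwise non-isomorphic -/
def S_D7 : Prop := ∀ (a : ℕ → ℕ) (C : Set (RS a ℕ)), IsClosed C → Inv C → ∀ N ∈ C,
  ∀ D : (ℕ → Bool) → Set ℕ, (∀ A, (D A).Infinite) →
  (∀ z, ∃ i, ∀ A B : ℕ → Bool, A i = B i → (z ∈ D A ↔ z ∈ D B)) →
  (∀ A B, (∃ e : D A ≃ D B, Iso (res N (D A)) (res N (D B)) e) → A = B) → ¬ Few C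

/-- DEL: the deletion lemma -/
def S_DEL : Prop := ∀ (a : ℕ → ℕ) (C : Set (RS a ℕ)), IsClosed C → Inv C → ∀ N ∈ C, AC N →
  (∀ z, ¬ AcI N ∅ z → InfM N z) → (∃ x : ℕ → ℕ, Bad N x) → ¬ Few C

/-! ### The theorems -/

/-- FB: a continuous family of reducts of members, pairwise non-isomorphic, is impossible -/
def S_FB : Prop := ∀ (a : ℕ → ℕ) (C : Set (RS a ℕ)), MeasurableSet C → Few C → ∀ n : ℕ,
  ∀ g : (ℕ → Bool) → RS a ℕ, Continuous g →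
  (∀ A, ∃ M ∈ C, ∀ i < n, ∀ t, M i t = g A i t) → (∀ A i, n ≤ i → ∀ t, g A i t = false) →
  (∀ A B, (∃ e : ℕ ≃ ℕ, Iso (g A) (g B) e) → A = B) → False

/-- T1: closed classes with few members have cellular reducts -/
def S_T1 : Prop := ∀ (a : ℕ → ℕ) (C : Set (RS a ℕ)), IsClosed C → Inv C → Few C →
  ∀ M ∈ C, ∀ n, Pool.Agent.H566V.IsDec (lev n M)

/-- CLO: the theorem for closed classes -/
def S_CLO : Prop := ∀ (a : ℕ → ℕ) (C : Set (RS a ℕ)), IsClosed C → Inv C → Few C → CT C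

/-- FEWF: few members also over a finite set of constants -/
def S_FEWF : Prop := ∀ (a : ℕ → ℕ) (B : Set (RS a ℕ)), MeasurableSet B → Few B →
  ∀ (m : ℕ) (g : (ℕ → Bool) → RS a ℕ), Continuous g → (∀ A, g A ∈ B) →
  (∀ A A', (∃ e : ℕ ≃ ℕ, Iso (g A) (g A') e ∧ ∀ i < m, e i = i) → A = A') → False

/-- FSI: the theorem for `F_σ` classes -/
def S_FSI : Prop := ∀ (a : ℕ → ℕ) (B : Set (RS a ℕ)) (F : ℕ → Set (RS a ℕ)),
  (∀ k, IsClosed (F k)) → B = ⋃ k, F k → Inv B → Few B → CT B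

end Pool.Agent.H566X
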