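import Pool.Agent.H566X.Spec

/-! More propositions: the reduction of `F_σ` classes to closed classes. -/

set_option autoImplicit false

namespace Pool.Agent.H566X

open Set

/-- the part of `F` invariant under the pointwise stabiliser of `{0, ..., m - 1}` -/
def EEx {a : ℕ → ℕ} (F : Set (RS a ℕ)) (m : ℕ) : Set (RS a ℕ) :=
  {x | ∀ σ : Equiv.Perm ℕ, (∀ i < m, σ i = i) → (fun i (t : Fin (a i) → ℕ) => x i (σ ∘ t)) ∈ F}

/-- FS1: Baire category -/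
def S_FS1 : Prop := ∀ (a : ℕ → ℕ) (F : ℕ → Set (RS a ℕ)), (∀ k, IsClosed (F k)) →
  ∀ x : RS a ℕ, (∀ σ : Equiv.Perm ℕ, ∃ k, (fun i (t : Fin (a i) → ℕ) => x i (σ ∘ t)) ∈ F k) →
  ∃ (k m : ℕ) (π : Equiv.Perm ℕ), (fun i (t : Fin (a i) → ℕ) => x i (π ∘ t)) ∈ EEx (F k) m

/-- FS2: coding the constants -/
def S_FS2 : Prop := S_CLO → ∀ (a : ℕ → ℕ) (F : Set (RS a ℕ)) (m : ℕ), IsClosed F →
  (¬ ∃ g : (ℕ → Bool) → RS a ℕ, Continuous g ∧ (∀ A, g A ∈ EEx F m) ∧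
    ∀ A A', (∃ e : ℕ ≃ ℕ, Iso (g A) (g A') e ∧ ∀ i < m, e i = i) → A = A') → CT (EEx F m)

end Pool.Agent.H566X
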