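import Pool.Agent.H566X.Spec2

/-! Continuous actions of `Sym(ℕ)` on compact zero-dimensional spaces. -/

set_option autoImplicit false

namespace Pool.Agent.H566X

open Set

/-- The action is jointly continuous, `Sym(ℕ)` carrying the topology of pointwise convergence. -/
def ContAct (X : Type) [TopologicalSpace X] [MulAction (Equiv.Perm ℕ) X] : Prop :=
  ∀ (σ : Equiv.Perm ℕ) (x : X) (U : Set X), IsOpen U → σ • x ∈ U →
    ∃ (n : ℕ) (V : Set X), IsOpen V ∧ x ∈ V ∧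
      ∀ τ : Equiv.Perm ℕ, (∀ i < n, τ i = σ i) → ∀ y ∈ V, τ • y ∈ U

/-- ACT: every compact zero-dimensional space with a continuous action of `Sym(ℕ)` embeds
equivariantly into a space of relational structures -/
def S_ACT : Prop := ∀ (X : Type) [TopologicalSpace X] [CompactSpace X]
  [TopologicalSpace.MetrizableSpace X] [TotallyDisconnectedSpace X]
  [MulAction (Equiv.Perm ℕ) X], ContAct X →
  ∃ (a : ℕ → ℕ) (φ : X → RS a ℕ), Continuous φ ∧ Function.Injective φ ∧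
    ∀ x y : X, ∀ σ : Equiv.Perm ℕ, Iso (φ x) (φ y) σ ↔ σ • x = y

/-- TOP: the topological Vaught conjecture for `Sym(ℕ)` and `F_σ` invariant subsets of compact
zero-dimensional spaces -/
def S_TOP : Prop := ∀ (X : Type) [TopologicalSpace X] [CompactSpace X]
  [TopologicalSpace.MetrizableSpace X] [TotallyDisconnectedSpace X]
  [MulAction (Equiv.Perm ℕ) X], ContAct X →
  ∀ B : Set X, (∃ F : ℕ → Set X, (∀ k, IsClosed (F k)) ∧ B = ⋃ k, F k) →
  (∀ x ∈ B, ∀ σ : Equiv.Perm ℕ, σ • x ∈ B) →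
  (∃ C : Set X, C.Countable ∧ ∀ x ∈ B, ∃ c ∈ C, ∃ σ : Equiv.Perm ℕ, σ • c = x) ∨
  (∃ P : Set X, P.Nonempty ∧ Perfect P ∧ P ⊆ B ∧
    ∀ x ∈ P, ∀ y ∈ P, (∃ σ : Equiv.Perm ℕ, σ • x = y) → x = y)

end Pool.Agent.H566X
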